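import Mathlib

/-! Definitions for SL_n(Q_p): triangular subgroups, congruence subgroups, Weyl representatives. -/

set_option autoImplicit false

noncomputable section

open Matrix Topology

namespace Pool.Agent.Helper911

variable (p : ℕ) [Fact p.Prime] (n : ℕ)

/-- The group SL_n(Q_p). -/
abbrev SLn := Matrix.SpecialLinearGroup (Fin n) ℚ_[p]

variable {n}

/-- Matrices of SL_n(Q_p) which are upper triangular for the order given by the permutation `s`. -/
def Up (s : Equiv.Perm (Fin n)) : Subgroup (SLn p n) where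
  carrier := {g | ∀ i j, s j < s i → g i j = 0}
  mul_mem' := by
    intro a b ha hb i j hij
    simp only [Matrix.SpecialLinearGroup.coe_mul, Matrix.mul_apply]
    refine Finset.sum_eq_zero fun k _ => ?_
    rcases lt_or_ge (s k) (s i) with h | h
    · rw [ha i k h, zero_mul]
    · rw [hb k j (lt_of_lt_of_le hij h), mul_zero]
  one_mem' := by
    intro i j hij
    have : i ≠ j := by rintro rfl; exact lt_irrefl _ hij
    simp [Matrix.one_apply_ne this]
  inv_mem' := by
    intro a ha i j hij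
    have hdet : IsUnit (a : Matrix (Fin n) (Fin n) ℚ_[p]).det := by simp
    haveI : Invertible (a : Matrix (Fin n) (Fin n) ℚ_[p]) :=
      Matrix.invertibleOfIsUnitDet _ hdet
    have h1 : Matrix.BlockTriangular (a : Matrix (Fin n) (Fin n) ℚ_[p]) s := fun i j h => ha i j h
    have h2 := Matrix.blockTriangular_inv_of_blockTriangular h1
    have h3 : ((a⁻¹ : SLn p n) : Matrix (Fin n) (Fin n) ℚ_[p])
        = (a : Matrix (Fin n) (Fin n) ℚ_[p])⁻¹ := by
      rw [Matrix.SpecialLinearGroup.coe_inv, Matrix.inv_def]; simp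
    show ((a⁻¹ : SLn p n) : Matrix (Fin n) (Fin n) ℚ_[p]) i j = 0
    rw [h3]; exact h2 hij

/-- Unipotent matrices of SL_n(Q_p), upper triangular for the order given by `s`. -/
def NU (s : Equiv.Perm (Fin n)) : Subgroup (SLn p n) where
  carrier := {g | g ∈ Up p s ∧ ∀ i, g i i = 1}
  mul_mem' := by
    rintro a b ⟨ha, ha'⟩ ⟨hb, hb'⟩
    refine ⟨mul_mem ha hb, fun i => ?_⟩
    simp only [Matrix.SpecialLinearGroup.coe_mul, Matrix.mul_apply]
    rw [Finset.sum_eq_single i, ha' i, hb' i, one_mul]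
    · intro k _ hk
      rcases lt_or_gt_of_ne (fun h : s k = s i => hk (s.injective h)) with h | h
      · rw [ha i k h, zero_mul]
      · rw [hb k i h, mul_zero]
    · intro h; exact absurd (Finset.mem_univ i) h
  one_mem' := ⟨one_mem _, fun i => by simp⟩
  inv_mem' := by
    rintro a ⟨ha, ha'⟩
    refine ⟨inv_mem ha, fun i => ?_⟩
    have h := congrArg (fun g : SLn p n => g i i) (mul_inv_cancel a)
    simp only [Matrix.SpecialLinearGroup.coe_mul, Matrix.mul_apply] at h
    rw [Finset.sum_eq_single i] at h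
    · rw [ha' i, one_mul] at h
      simpa using h
    · intro k _ hk
      rcases lt_or_gt_of_ne (fun h : s k = s i => hk (s.injective h)) with h' | h'
      · rw [ha i k h', zero_mul]
      · rw [inv_mem ha k i h', mul_zero]
    · intro h; exact absurd (Finset.mem_univ i) h

/-- The order-reversed permutation. -/
def rv (s : Equiv.Perm (Fin n)) : Equiv.Perm (Fin n) := s.trans Fin.revPerm

/-- Unipotent matrices, lower triangular for the order given by `s`. -/
def NL (s : Equiv.Perm (Fin n)) : Subgroup (SLn p n) := NU p (rv s)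

/-- Diagonal matrices. -/
def Tor (n : ℕ) : Subgroup (SLn p n) := Up p (1 : Equiv.Perm (Fin n)) ⊓ Up p (rv 1)

theorem fact_pow_pos (m : ℤ) : 0 < (p : ℝ) ^ m := by
  have : 0 < (p : ℝ) := by exact_mod_cast (Fact.out : p.Prime).pos
  positivity

theorem pow_neg_le_one (m : ℕ) : (p : ℝ) ^ (-(m : ℤ)) ≤ 1 := by
  have h1 : (1 : ℝ) ≤ p := by exact_mod_cast (Fact.out : p.Prime).one_le
  rw [_root_.zpow_neg, _root_.zpow_natCast]
  exact inv_le_one_of_one_le₀ (one_le_pow₀ h1)

theorem norm_det_le_one {M : Matrix (Fin n) (Fin n) ℚ_[p]} (hM : ∀ i j, ‖M i j‖ ≤ 1) :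
    ‖M.det‖ ≤ 1 := by
  rw [Matrix.det_apply]
  refine IsUltrametricDist.norm_sum_le_of_forall_le_of_nonneg zero_le_one fun s _ => ?_
  have h1 : ‖∏ i, M (s i) i‖ ≤ 1 := by
    rw [norm_prod]
    exact Finset.prod_le_one (fun _ _ => norm_nonneg _) (fun i _ => hM _ _)
  rcases Int.units_eq_one_or (Equiv.Perm.sign s) with h | h
  · simpa [h] using h1
  · simpa [h] using h1

theorem norm_inv_le_one {g : SLn p n} (hg : ∀ i j, ‖g i j‖ ≤ 1) (i j : Fin n) :
    ‖(g⁻¹ : SLn p n) i j‖ ≤ 1 := by
  rw [Matrix.SpecialLinearGroup.coe_inv, Matrix.adjugate_apply]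
  refine norm_det_le_one p fun a b => ?_
  rw [Matrix.updateRow_apply]
  split_ifs
  · rw [Pi.single_apply]; split_ifs <;> simp
  · exact hg a b

/-- The congruence subgroup of level `m` (for `m = 0` it is SL_n(Z_p)). -/
def Cong (n m : ℕ) : Subgroup (SLn p n) where
  carrier := {g | ∀ i j, ‖g i j - (1 : Matrix (Fin n) (Fin n) ℚ_[p]) i j‖ ≤ (p : ℝ) ^ (-(m : ℤ))}
  mul_mem' := by
    intro a b ha hb i j
    have hb1 : ∀ k, ‖b k j‖ ≤ 1 := by
      intro k
      have h := hb k j
      have h2 : b k j = (b k j - (1 : Matrix (Fin n) (Fin n) ℚ_[p]) k j)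
        + (1 : Matrix (Fin n) (Fin n) ℚ_[p]) k j := by ring
      rw [h2]
      refine (IsUltrametricDist.norm_add_le_max _ _).trans (max_le (h.trans (pow_neg_le_one p m)) ?_)
      rw [Matrix.one_apply]; split_ifs <;> simp
    have h3 : (a * b : SLn p n) i j - (1 : Matrix (Fin n) (Fin n) ℚ_[p]) i j
        = (∑ k, (a i k - (1 : Matrix (Fin n) (Fin n) ℚ_[p]) i k) * b k j)
          + (b i j - (1 : Matrix (Fin n) (Fin n) ℚ_[p]) i j) := by
      simp only [Matrix.SpecialLinearGroup.coe_mul, Matrix.mul_apply, sub_mul,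
        Finset.sum_sub_distrib]
      have : ∑ k, (1 : Matrix (Fin n) (Fin n) ℚ_[p]) i k * b k j = b i j := by
        rw [← Matrix.mul_apply, Matrix.one_mul]
      rw [this]; ring
    show ‖(a * b : SLn p n) i j - (1 : Matrix (Fin n) (Fin n) ℚ_[p]) i j‖ ≤ _
    rw [h3]
    refine (IsUltrametricDist.norm_add_le_max _ _).trans (max_le ?_ (hb i j))
    refine IsUltrametricDist.norm_sum_le_of_forall_le_of_nonneg (fact_pow_pos p _).le
      fun k _ => ?_
    rw [norm_mul]
    calc _ ≤ (p : ℝ) ^ (-(m : ℤ)) * 1 :=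
          mul_le_mul (ha i k) (hb1 k) (norm_nonneg _) (fact_pow_pos p _).le
      _ = _ := mul_one _
  one_mem' := by
    intro i j
    simp only [Matrix.SpecialLinearGroup.coe_one, sub_self, norm_zero]
    exact (fact_pow_pos p _).le
  inv_mem' := by
    intro a ha i j
    have ha1 : ∀ k l, ‖a k l‖ ≤ 1 := by
      intro k l
      have h2 : a k l = (a k l - (1 : Matrix (Fin n) (Fin n) ℚ_[p]) k l)
        + (1 : Matrix (Fin n) (Fin n) ℚ_[p]) k l := by ring
      rw [h2]
      refine (IsUltrametricDist.norm_add_le_max _ _).trans (max_le ((ha k l).trans (pow_neg_le_one p m)) ?_)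
      rw [Matrix.one_apply]; split_ifs <;> simp
    have h3 : (a⁻¹ : SLn p n) i j - (1 : Matrix (Fin n) (Fin n) ℚ_[p]) i j
        = - ∑ k, (a⁻¹ : SLn p n) i k * (a k j - (1 : Matrix (Fin n) (Fin n) ℚ_[p]) k j) := by
      simp only [mul_sub, Finset.sum_sub_distrib]
      have e1 : ∑ k, (a⁻¹ : SLn p n) i k * a k j = (1 : Matrix (Fin n) (Fin n) ℚ_[p]) i j := by
        rw [← Matrix.mul_apply, ← Matrix.SpecialLinearGroup.coe_mul, inv_mul_cancel,
          Matrix.SpecialLinearGroup.coe_one]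
      have e2 : ∑ k, (a⁻¹ : SLn p n) i k * (1 : Matrix (Fin n) (Fin n) ℚ_[p]) k j
          = (a⁻¹ : SLn p n) i j := by
        rw [← Matrix.mul_apply, Matrix.mul_one]
      rw [e1, e2]; ring
    show ‖(a⁻¹ : SLn p n) i j - (1 : Matrix (Fin n) (Fin n) ℚ_[p]) i j‖ ≤ _
    rw [h3, norm_neg]
    refine IsUltrametricDist.norm_sum_le_of_forall_le_of_nonneg (fact_pow_pos p _).le
      fun k _ => ?_
    rw [norm_mul]
    calc _ ≤ 1 * (p : ℝ) ^ (-(m : ℤ)) :=
          mul_le_mul (norm_inv_le_one p ha1 i k) (ha k j) (norm_nonneg _) zero_le_one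
      _ = _ := one_mul _

end Pool.Agent.Helper911
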