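import Mathlib
import Pool.Agent.Helper911_SL.Defs

/-! Elementary matrices, diagonal matrices, Weyl representatives in SL_n(Q_p). -/

set_option autoImplicit false

noncomputable section

open Matrix Topology

namespace Pool.Agent.Helper911

variable (p : ℕ) [Fact p.Prime] {n : ℕ}

/-- The elementary matrix `1 + c E_ij`. -/
def el (i j : Fin n) (h : i ≠ j) (c : ℚ_[p]) : SLn p n :=
  ⟨Matrix.transvection i j c, Matrix.det_transvection_of_ne i j h c⟩

theorem el_apply (i j : Fin n) (h : i ≠ j) (c : ℚ_[p]) (a b : Fin n) :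
    el p i j h c a b = (if a = b then 1 else 0) + (if a = i ∧ b = j then c else 0) := by
  show (Matrix.transvection i j c) a b = _
  rw [Matrix.transvection, Matrix.add_apply, Matrix.one_apply, Matrix.single_apply]
  simp only [eq_comm (a := i) (b := a), eq_comm (a := j) (b := b)]

/-- The diagonal matrix with entries `t`. -/
def dg (t : Fin n → ℚ_[p]) (h : ∏ i, t i = 1) : SLn p n :=
  ⟨Matrix.diagonal t, by rw [Matrix.det_diagonal, h]⟩

theorem dg_apply (t : Fin n → ℚ_[p]) (h : ∏ i, t i = 1) (i j : Fin n) :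
    dg p t h i j = if i = j then t i else 0 := by
  show (Matrix.diagonal t) i j = _
  rw [Matrix.diagonal_apply]

/-- The coroot: `x` at place `i`, `x⁻¹` at place `j`. -/
def corootFun (i j : Fin n) (x : ℚ_[p]ˣ) : Fin n → ℚ_[p] :=
  fun k => if k = i then (x : ℚ_[p]) else if k = j then ((x⁻¹ : ℚ_[p]ˣ) : ℚ_[p]) else 1

theorem corootFun_prod (i j : Fin n) (h : i ≠ j) (x : ℚ_[p]ˣ) :
    ∏ k, corootFun p i j x k = 1 := by
  have h1 : ∀ k, corootFun p i j x k
      = (if k = i then (x : ℚ_[p]) else 1) * (if k = j then ((x⁻¹ : ℚ_[p]ˣ) : ℚ_[p]) else 1) := by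
    intro k
    unfold corootFun
    by_cases hi : k = i
    · have hj : k ≠ j := by rintro rfl; exact h hi.symm
      simp [hi, h]
    · simp [hi]
  simp only [h1, Finset.prod_mul_distrib, Finset.prod_ite_eq', Finset.mem_univ, if_true,
    Units.mul_inv]

/-- The coroot `x ↦ diag(.., x, .., x⁻¹, ..)`. -/
def coroot (i j : Fin n) (h : i ≠ j) (x : ℚ_[p]ˣ) : SLn p n :=
  dg p (corootFun p i j x) (corootFun_prod p i j h x)

/-- Sign vector of the Weyl representative. -/
def eps [NeZero n] (w : Equiv.Perm (Fin n)) (i : Fin n) : ℚ_[p] :=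
  if i = 0 then ((Equiv.Perm.sign w : ℤ) : ℚ_[p]) else 1

theorem eps_mul_self [NeZero n] (w : Equiv.Perm (Fin n)) (i : Fin n) :
    eps p w i * eps p w i = 1 := by
  unfold eps
  rcases Int.units_eq_one_or (Equiv.Perm.sign w) with h | h <;> split_ifs <;> simp [h]

/-- The signed permutation matrix `e_w` (column `j` is `± e_{w j}`). -/
def wrep [NeZero n] (w : Equiv.Perm (Fin n)) : SLn p n :=
  ⟨Matrix.diagonal (eps p w) * (w.symm).toPEquiv.toMatrix, by
    rw [Matrix.det_mul, Matrix.det_diagonal, Matrix.det_permutation]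
    have : ∏ i, eps p w i = ((Equiv.Perm.sign w : ℤ) : ℚ_[p]) := by
      simp [eps, Finset.prod_ite_eq']
    rw [this, Equiv.Perm.sign_symm]
    rcases Int.units_eq_one_or (Equiv.Perm.sign w) with h | h <;> simp [h]⟩

theorem wrep_apply [NeZero n] (w : Equiv.Perm (Fin n)) (i j : Fin n) :
    wrep p w i j = if w j = i then eps p w i else 0 := by
  show (Matrix.diagonal (eps p w) * (w.symm).toPEquiv.toMatrix :
    Matrix (Fin n) (Fin n) ℚ_[p]) i j = _
  rw [Matrix.diagonal_mul, PEquiv.toMatrix_apply]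
  simp only [Equiv.toPEquiv_apply, Option.mem_def, Option.some.injEq]
  by_cases h : w j = i
  · have : w.symm i = j := by rw [← h]; simp
    simp [h, this]
  · have : ¬ w.symm i = j := by rintro rfl; exact h (by simp)
    rw [if_neg this, if_neg h, mul_zero]

theorem wrep_inv_apply [NeZero n] (w : Equiv.Perm (Fin n)) (i j : Fin n) :
    ((wrep p w)⁻¹ : SLn p n) i j = if w i = j then eps p w j else 0 := by
  let M : Matrix (Fin n) (Fin n) ℚ_[p] := fun i j => if w i = j then eps p w j else 0
  have h1 : (wrep p w : Matrix (Fin n) (Fin n) ℚ_[p]) * M = 1 := by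
    ext a b
    rw [Matrix.mul_apply, Finset.sum_eq_single (w.symm a)]
    · rw [wrep_apply]
      simp only [M, Equiv.apply_symm_apply, if_true, Matrix.one_apply]
      by_cases hab : a = b
      · subst hab; simp [eps_mul_self]
      · simp [hab]
    · intro c _ hc
      rw [wrep_apply, if_neg, zero_mul]
      rintro rfl; exact hc (by simp)
    · intro h; exact absurd (Finset.mem_univ _) h
  have h2 : ((wrep p w)⁻¹ : SLn p n) = (M : Matrix (Fin n) (Fin n) ℚ_[p]) := by
    have h3 : (((wrep p w)⁻¹ : SLn p n) : Matrix (Fin n) (Fin n) ℚ_[p])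
        * (wrep p w : Matrix (Fin n) (Fin n) ℚ_[p]) = 1 := by
      rw [← Matrix.SpecialLinearGroup.coe_mul, inv_mul_cancel, Matrix.SpecialLinearGroup.coe_one]
    calc _ = (((wrep p w)⁻¹ : SLn p n) : Matrix (Fin n) (Fin n) ℚ_[p])
          * ((wrep p w : Matrix (Fin n) (Fin n) ℚ_[p]) * M) := by rw [h1, Matrix.mul_one]
      _ = _ := by rw [← Matrix.mul_assoc, h3, Matrix.one_mul]
  exact congrFun (congrFun h2 i) j

theorem conj_wrep_apply [NeZero n] (w : Equiv.Perm (Fin n)) (g : SLn p n) (i j : Fin n) :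
    (wrep p w * g * (wrep p w)⁻¹ : SLn p n) i j
      = eps p w i * eps p w j * g (w.symm i) (w.symm j) := by
  rw [Matrix.SpecialLinearGroup.coe_mul, Matrix.mul_apply, Finset.sum_eq_single (w.symm j)]
  · rw [wrep_inv_apply]
    simp only [Equiv.apply_symm_apply, if_true]
    rw [Matrix.SpecialLinearGroup.coe_mul, Matrix.mul_apply, Finset.sum_eq_single (w.symm i)]
    · rw [wrep_apply]; simp only [Equiv.apply_symm_apply, if_true]; ring
    · intro c _ hc
      rw [wrep_apply, if_neg, zero_mul]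
      rintro rfl; exact hc (by simp)
    · intro h; exact absurd (Finset.mem_univ _) h
  · intro c _ hc
    rw [wrep_inv_apply, if_neg, mul_zero]
    rintro rfl; exact hc (by simp)
  · intro h; exact absurd (Finset.mem_univ _) h

/-- Exponents of the contracting element. -/
def zexp (i : Fin n) : ℤ := 2 * (i : ℤ) - ((n : ℤ) - 1)

theorem zexp_sum : ∑ i : Fin n, zexp i = 0 := by
  unfold zexp
  rw [Finset.sum_sub_distrib, ← Finset.mul_sum]
  have h1 : ∑ i : Fin n, (i : ℤ) = (n : ℤ) * (n - 1) / 2 := by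
    rw [Fin.sum_univ_eq_sum_range (fun i => (i : ℤ)) n]
    have := Finset.sum_range_id_mul_two n
    rcases n with _ | n
    · simp
    · have h2 : (∑ i ∈ Finset.range (n+1), (i : ℤ)) * 2 = (n + 1) * n := by
        have := congrArg (fun x : ℕ => (x : ℤ)) this
        push_cast at this
        simpa using this
      push_cast
      rw [show ((n : ℤ) + 1) * (n + 1 - 1) = (∑ i ∈ Finset.range (n+1), (i : ℤ)) * 2 by
        rw [h2]; ring]
      simp
  have h2 : (2 : ℤ) ∣ (n : ℤ) * (n - 1) := by
    rcases Int.even_or_odd (n : ℤ) with h | h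
    · exact Dvd.dvd.mul_right h.two_dvd _
    · exact Dvd.dvd.mul_left (by obtain ⟨k, hk⟩ := h; exact ⟨k, by rw [hk]; ring⟩) _
  rw [h1, Int.mul_ediv_cancel' h2]
  simp
  ring

/-- The contracting element `diag(p^{2i-(n-1)})`. -/
def zel (n : ℕ) : SLn p n :=
  dg p (fun i => (p : ℚ_[p]) ^ zexp i) (by
    have hp : (p : ℚ_[p]) ≠ 0 := by exact_mod_cast (Fact.out : p.Prime).ne_zero
    have : ∀ s : Finset (Fin n), ∏ i ∈ s, (p : ℚ_[p]) ^ zexp i = (p : ℚ_[p]) ^ (∑ i ∈ s, zexp i) := by
      intro s
      induction s using Finset.cons_induction with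
      | empty => simp
      | cons a s ha ih => rw [Finset.prod_cons, Finset.sum_cons, ih, zpow_add₀ hp]
    rw [this, zexp_sum, _root_.zpow_zero])

end Pool.Agent.Helper911
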