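import Mathlib
import Pool.Agent.Helper911_SL.Defs2

set_option autoImplicit false
set_option linter.unusedSectionVars false
set_option maxHeartbeats 1000000

noncomputable section

open Matrix Topology Filter

namespace Pool.Agent.Helper911


variable (p : ℕ) [Fact p.Prime] {n : ℕ} [NeZero n]

/-! ======= TARGETS ======= -/

/-- TARGET 1. `Cong p n m` is open: it is a finite intersection (over entries) of preimages of
closed balls of positive radius, which are open in the ultrametric field `ℚ_[p]`; the entry maps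
`g ↦ g i j` are continuous (`Matrix.SpecialLinearGroup.continuous_apply`, `isClosedEmbedding_val`). -/
theorem cong_open (n m : ℕ) : IsOpen (Cong p n m : Set (SLn p n)) := by
  have e : (Cong p n m : Set (SLn p n)) = ⋂ i : Fin n, ⋂ j : Fin n,
      (fun g : SLn p n => g i j) ⁻¹'
        Metric.closedBall ((1 : Matrix (Fin n) (Fin n) ℚ_[p]) i j) ((p : ℝ) ^ (-(m : ℤ))) := by
    ext g
    simp only [Set.mem_iInter, Set.mem_preimage, Metric.mem_closedBall, dist_eq_norm]
    exact Iff.rfl
  rw [e]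
  refine isOpen_iInter_of_finite fun i => isOpen_iInter_of_finite fun j => ?_
  refine (IsUltrametricDist.isOpen_closedBall _ (fact_pow_pos p _).ne').preimage ?_
  exact (continuous_apply j).comp
    (Matrix.SpecialLinearGroup.continuous_apply (fun g : SLn p n => g) continuous_id i)

/-- TARGET 2. Compact: image under the closed embedding into matrices is closed and bounded in the
proper space `Matrix (Fin n) (Fin n) ℚ_[p]` (a finite product of the proper spaces `ℚ_[p]`). -/
theorem cong_compact (n m : ℕ) : IsCompact (Cong p n m : Set (SLn p n)) := by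
  have hK : IsCompact {M : Matrix (Fin n) (Fin n) ℚ_[p] | ∀ i j,
      ‖M i j - (1 : Matrix (Fin n) (Fin n) ℚ_[p]) i j‖ ≤ (p : ℝ) ^ (-(m : ℤ))} := by
    have h1 : IsCompact {M : Fin n → Fin n → ℚ_[p] | ∀ i, M i ∈ {v : Fin n → ℚ_[p] | ∀ j, v j ∈
        Metric.closedBall ((1 : Matrix (Fin n) (Fin n) ℚ_[p]) i j) ((p : ℝ) ^ (-(m : ℤ)))}} :=
      isCompact_pi_infinite fun i => isCompact_pi_infinite fun j => isCompact_closedBall _ _
    have e : {M : Matrix (Fin n) (Fin n) ℚ_[p] | ∀ i j,
        ‖M i j - (1 : Matrix (Fin n) (Fin n) ℚ_[p]) i j‖ ≤ (p : ℝ) ^ (-(m : ℤ))}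
        = {M : Fin n → Fin n → ℚ_[p] | ∀ i, M i ∈ {v : Fin n → ℚ_[p] | ∀ j, v j ∈
        Metric.closedBall ((1 : Matrix (Fin n) (Fin n) ℚ_[p]) i j) ((p : ℝ) ^ (-(m : ℤ)))}} := by
      ext M
      constructor
      · intro h i j
        exact (dist_eq_norm _ _).trans_le (h i j)
      · intro h i j
        exact (dist_eq_norm _ _).symm.trans_le (h i j)
    rw [e]
    exact h1
  exact Matrix.SpecialLinearGroup.isClosedEmbedding_val.isCompact_preimage hK

/-- TARGET 3. The congruence subgroups form a basis of neighbourhoods of `1`. -/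
theorem cong_small (n : ℕ) : ∀ U ∈ 𝓝 (1 : SLn p n), ∃ m : ℕ, 1 ≤ m ∧
    (Cong p n m : Set (SLn p n)) ⊆ U := by
  intro U hU
  have h0 := (Matrix.SpecialLinearGroup.isClosedEmbedding_val (n := Fin n)
    (R := ℚ_[p])).isInducing.nhds_eq_comap (1 : SLn p n)
  have h00 := h0.symm.le hU
  obtain ⟨V, hV, hVU⟩ := Filter.mem_comap.1 h00
  have key : ∀ (W : Set (Fin n → Fin n → ℚ_[p])) (x : Fin n → Fin n → ℚ_[p]), W ∈ 𝓝 x →
      ∃ ε > 0, ∀ y : Fin n → Fin n → ℚ_[p], (∀ i j, ‖y i j - x i j‖ < ε) → y ∈ W := by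
    intro W x hW
    obtain ⟨ε, hε, hb⟩ := Metric.mem_nhds_iff.1 hW
    refine ⟨ε, hε, fun y hy => hb ?_⟩
    rw [Metric.mem_ball, dist_pi_lt_iff hε]
    intro i
    rw [dist_pi_lt_iff hε]
    intro j
    rw [dist_eq_norm]
    exact hy i j
  obtain ⟨ε, hε, hb⟩ := key V _ hV
  have hp1 : (1 : ℝ) < p := by exact_mod_cast (Fact.out : p.Prime).one_lt
  obtain ⟨m, hm⟩ := exists_pow_lt_of_lt_one hε (inv_lt_one_of_one_lt₀ hp1)
  refine ⟨m + 1, by omega, fun g hg => hVU ?_⟩
  show (g : Matrix (Fin n) (Fin n) ℚ_[p]) ∈ V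
  refine hb _ ?_
  intro i j
  refine lt_of_le_of_lt (hg i j) (lt_of_le_of_lt ?_ hm)
  rw [_root_.zpow_neg, _root_.zpow_natCast, inv_pow]
  apply inv_anti₀
  · positivity
  · exact pow_le_pow_right₀ hp1.le (by omega)

/-- TARGET 4. -/
theorem up_closed (s : Equiv.Perm (Fin n)) : IsClosed (Up p s : Set (SLn p n)) := by
  have e : (Up p s : Set (SLn p n)) = ⋂ i : Fin n, ⋂ j : Fin n, ⋂ (_ : s j < s i),
      {g : SLn p n | g i j = 0} := by
    ext g
    simp only [Set.mem_iInter, Set.mem_ofPred_eq]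
    exact Iff.rfl
  rw [e]
  refine isClosed_iInter fun i => isClosed_iInter fun j => isClosed_iInter fun _ => ?_
  refine isClosed_eq ?_ continuous_const
  exact (continuous_apply j).comp
    (Matrix.SpecialLinearGroup.continuous_apply (fun g : SLn p n => g) continuous_id i)

/-- TARGET 5. -/
theorem nu_closed (s : Equiv.Perm (Fin n)) : IsClosed (NU p s : Set (SLn p n)) := by
  have e : (NU p s : Set (SLn p n)) = (Up p s : Set (SLn p n)) ∩ ⋂ i : Fin n,
      {g : SLn p n | g i i = 1} := by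
    ext g
    simp only [Set.mem_inter_iff, Set.mem_iInter, Set.mem_ofPred_eq]
    exact Iff.rfl
  rw [e]
  refine (up_closed p s).inter (isClosed_iInter fun i => ?_)
  refine isClosed_eq ?_ continuous_const
  exact (continuous_apply i).comp
    (Matrix.SpecialLinearGroup.continuous_apply (fun g : SLn p n => g) continuous_id i)
end Pool.Agent.Helper911
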