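import Mathlib
import Pool.Agent.Helper911_SL.Defs2

set_option autoImplicit false
set_option linter.unusedSectionVars false
set_option maxHeartbeats 1000000

noncomputable section

open Matrix Topology Filter

namespace Pool.Agent.Helper911


variable (p : ℕ) [Fact p.Prime] {n : ℕ} [NeZero n]

/-! ======= TARGETS ======= -/

omit [NeZero n] in
theorem iw_mul_el (h : SLn p n) (i j : Fin n) (hij : i ≠ j) (c : ℚ_[p]) (a b : Fin n) :
    (h * el p i j hij c) a b = h a b + if b = j then h a i * c else 0 := by
  rw [Matrix.SpecialLinearGroup.coe_mul, Matrix.mul_apply]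
  have : ∀ k, (h a k) * (el p i j hij c k b) = (if k = b then h a k else 0) +
      (if k = i then (if b = j then h a k * c else 0) else 0) := by
    intro k
    rw [el_apply]
    by_cases h1 : k = b <;> by_cases h2 : k = i <;> by_cases h3 : b = j <;>
      simp [h1, h2, h3, mul_add]
  simp only [this, Finset.sum_add_distrib, Finset.sum_ite_eq', Finset.mem_univ, if_true]

omit [NeZero n] in
theorem iw_el_mem (i j : Fin n) (hij : i ≠ j) (c : ℚ_[p]) (hc : ‖c‖ ≤ 1) :
    el p i j hij c ∈ Cong p n 0 := by
  intro a b
  rw [el_apply, Matrix.one_apply]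
  simp only [Nat.cast_zero, neg_zero, _root_.zpow_zero, add_sub_cancel_left]
  split_ifs
  · exact hc
  · simp

/-- the positions of index `< m` vanish -/
def IwGood (h : SLn p n) (m : ℕ) : Prop :=
  ∀ i j : Fin n, j < i → (n - 1 - (i : ℕ)) * n + j < m → h i j = 0

omit [NeZero n] in
theorem iw_idx {a b i : Fin n} (h : i < a) (j : Fin n) :
    (n - 1 - (a : ℕ)) * n + b < (n - 1 - (i : ℕ)) * n + j := by
  have h1 : (i : ℕ) < a := h
  have h2 := a.2
  have h3 := b.2
  have h4 : (n - 1 - (a : ℕ)) + 1 ≤ (n - 1 - (i : ℕ)) := by omega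
  calc (n - 1 - (a : ℕ)) * n + b < (n - 1 - (a : ℕ)) * n + n := by omega
    _ = ((n - 1 - (a : ℕ)) + 1) * n := by ring
    _ ≤ (n - 1 - (i : ℕ)) * n := by gcongr
    _ ≤ _ := by omega

omit [NeZero n] in
theorem iw_pos (h : SLn p n) (i j : Fin n) (hij : j < i)
    (hg : IwGood p h ((n - 1 - (i : ℕ)) * n + j)) (hn : ‖h i j‖ ≤ ‖h i i‖) :
    ∃ k ∈ Cong p n 0, IwGood p (h * k) ((n - 1 - (i : ℕ)) * n + j + 1) := by
  have key : ∀ h' : SLn p n, IwGood p h' ((n - 1 - (i : ℕ)) * n + j) → h' i j = 0 →
      IwGood p h' ((n - 1 - (i : ℕ)) * n + j + 1) := by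
    intro h' hg' h0 a b hab hlt
    rcases Nat.lt_or_ge ((n - 1 - (a : ℕ)) * n + b) ((n - 1 - (i : ℕ)) * n + j) with hl | hl
    · exact hg' a b hab hl
    · have he : (n - 1 - (a : ℕ)) * n + b = (n - 1 - (i : ℕ)) * n + j := by omega
      have hai : a = i := by
        rcases lt_trichotomy a i with hh | hh | hh
        · have := iw_idx (b := j) hh b
          omega
        · exact hh
        · have := iw_idx (b := b) hh j
          omega
      subst hai
      have hbj : b = j := by
        apply Fin.ext
        omega
      subst hbj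
      exact h0
  by_cases hb : h i i = 0
  · have ha : h i j = 0 := by
      rw [hb, norm_zero] at hn
      exact norm_le_zero_iff.1 hn
    refine ⟨1, one_mem _, ?_⟩
    rw [mul_one]
    exact key h hg ha
  · have hne : i ≠ j := ne_of_gt hij
    refine ⟨el p i j hne (-(h i j / h i i)), iw_el_mem p i j hne _ ?_, ?_⟩
    · rw [norm_neg, norm_div]
      exact div_le_one_of_le₀ hn (norm_nonneg _)
    · apply key
      · intro a b hab hlt
        rw [iw_mul_el, hg a b hab hlt, zero_add]
        split_ifs with hbj
        · subst hbj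
          have hia : i < a := by
            rcases lt_trichotomy a i with hh | hh | hh
            · have := iw_idx (b := b) hh b
              omega
            · subst hh
              omega
            · exact hh
          rw [hg a i hia (iw_idx hia b), zero_mul]
        · rfl
      · rw [iw_mul_el, if_pos rfl]
        field_simp
        ring

omit [NeZero n] in
theorem iw_step (h : SLn p n) (i j : Fin n) (hij : j < i)
    (hg : IwGood p h ((n - 1 - (i : ℕ)) * n + j)) :
    ∃ k ∈ Cong p n 0, IwGood p (h * k) ((n - 1 - (i : ℕ)) * n + j + 1) := by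
  rcases le_or_gt ‖h i j‖ ‖h i i‖ with hn | hn
  · exact iw_pos p h i j hij hg hn
  · have hne : j ≠ i := ne_of_lt hij
    have hk : el p j i hne 1 ∈ Cong p n 0 := iw_el_mem p j i hne 1 (by simp)
    obtain ⟨k, hk2, hgood⟩ := iw_pos p (h * el p j i hne 1) i j hij (by
      intro a b hab hlt
      rw [iw_mul_el, hg a b hab hlt, zero_add]
      split_ifs with hbi
      · subst hbi
        rw [hg a j (hij.trans hab) (iw_idx hab j), zero_mul]
      · rfl) (by
      rw [iw_mul_el, iw_mul_el, if_neg hne, if_pos rfl, add_zero, mul_one]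
      have := IsUltrametricDist.norm_add_eq_max_of_norm_ne_norm (x := h i i) (y := h i j) hn.ne
      rw [this]
      exact le_max_right _ _)
    exact ⟨el p j i hne 1 * k, mul_mem hk hk2, by rw [← mul_assoc]; exact hgood⟩

omit [NeZero n] in
theorem iw_all (g : SLn p n) (m : ℕ) : ∃ k ∈ Cong p n 0, IwGood p (g * k) m := by
  induction m with
  | zero => exact ⟨1, one_mem _, fun i j _ h => absurd h (Nat.not_lt_zero _)⟩
  | succ m ih =>
    obtain ⟨k, hk, hg⟩ := ih
    by_cases hex : ∃ i j : Fin n, j < i ∧ (n - 1 - (i : ℕ)) * n + j = m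
    · obtain ⟨i, j, hij, hm⟩ := hex
      subst hm
      obtain ⟨k', hk', hg'⟩ := iw_step p (g * k) i j hij hg
      exact ⟨k * k', mul_mem hk hk', by rw [← mul_assoc]; exact hg'⟩
    · refine ⟨k, hk, fun i j hij hlt => ?_⟩
      rcases Nat.lt_succ_iff_lt_or_eq.1 hlt with hl | hl
      · exact hg i j hij hl
      · exact absurd ⟨i, j, hij, hl⟩ hex

/-- TARGET: the Iwasawa decomposition of SL_n(Q_p). `Up p 1` is the group of upper triangular
matrices and `Cong p n 0` is SL_n(Z_p).

Proof. It is enough to find `k` in `Cong p n 0` with `g * k` upper triangular (then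
`g = (g * k) * k⁻¹`). Process the positions `(i, j)` with `j < i` one after the other, in any order
in which larger `i` come first (for instance strong induction on the number of unprocessed
positions in the lexicographic order; `j` in any order inside a row). Invariant: all processed
positions of the current matrix vanish. To process `(i, j)`: let `a` be the entry at `(i, j)` and
`b` the entry at `(i, i)`. If `‖a‖ ≤ ‖b‖`: if `b = 0` then `a = 0` and there is nothing to do;
otherwise multiply on the right by `el i j (-(a/b))`, that is column `j` -= `(a/b)` column `i`;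
the coefficient has norm at most 1, so this element is in `Cong p n 0`. If `‖b‖ < ‖a‖`, first
multiply by `el j i 1` (column `i` += column `j`), after which the entry at `(i, i)` is
`b' = a + b`, of norm `‖a‖`, and then proceed as before. Only the columns `i` and `j` change, and
they change by combinations of each other; rows `i' > i` have zeros in both columns `i` and `j`
(positions `(i', i)`, `(i', j)` with `i' > i` have been processed), so these zeros persist, and
in row `i` the other columns are untouched. -/
theorem iwasawa (g : SLn p n) : ∃ b ∈ Up p (1 : Equiv.Perm (Fin n)), ∃ k ∈ Cong p n 0,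
    g = b * k := by
  obtain ⟨k, hk, hg⟩ := iw_all p g (n * n)
  refine ⟨g * k, ?_, k⁻¹, inv_mem hk, by rw [mul_inv_cancel_right]⟩
  intro i j hij
  have hij' : j < i := by simpa using hij
  apply hg i j hij'
  have h1 := i.2
  have h2 := j.2
  have h3 : (n - 1 - (i : ℕ)) ≤ n - 1 := Nat.sub_le _ _
  calc (n - 1 - (i : ℕ)) * n + j ≤ (n - 1) * n + j := by gcongr
    _ < (n - 1) * n + n := by omega
    _ = n * n := by
      obtain ⟨m, hm⟩ : ∃ m, n = m + 1 := ⟨n - 1, by omega⟩
      rw [hm]; simp; ring
end Pool.Agent.Helper911
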