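import Mathlib
import Pool.Agent.Helper911_SL.Defs2

set_option autoImplicit false
set_option linter.unusedSectionVars false
set_option maxHeartbeats 1000000

noncomputable section

open Matrix Topology Filter

namespace Pool.Agent.Helper911


variable (p : ℕ) [Fact p.Prime] {n : ℕ} [NeZero n]

/-! ======= TARGETS ======= -/

theorem iwahori_norm_diag {m : ℕ} (hm : 1 ≤ m) {h : SLn p n} (hh : h ∈ Cong p n m) (i : Fin n) :
    ‖h i i‖ = 1 := by
  have h1 := hh i i
  rw [Matrix.one_apply_eq] at h1
  have h2 : (p : ℝ) ^ (-(m : ℤ)) < 1 := by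
    have h1 : (1 : ℝ) < p := by exact_mod_cast (Fact.out : p.Prime).one_lt
    rw [_root_.zpow_neg, _root_.zpow_natCast]
    exact inv_lt_one_of_one_lt₀ (one_lt_pow₀ h1 (by omega))
  have h3 : ‖h i i - 1‖ < ‖(1 : ℚ_[p])‖ := by
    rw [norm_one]
    exact lt_of_le_of_lt h1 h2
  have h4 := IsUltrametricDist.norm_add_eq_max_of_norm_ne_norm (ne_of_lt h3)
  rw [sub_add_cancel, norm_one] at h4
  rw [h4]
  rw [norm_one] at h3
  exact max_eq_right h3.le

theorem iwahori_el_NL (i j : Fin n) (hij : j < i) (c : ℚ_[p]) :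
    el p i j (ne_of_gt hij) c ∈ NL p (1 : Equiv.Perm (Fin n)) := by
  refine ⟨fun a b hab => ?_, fun a => ?_⟩
  · have hab' : a < b := by
      simpa [rv] using hab
    rw [el_apply, if_neg (ne_of_lt hab'), if_neg, add_zero]
    rintro ⟨rfl, rfl⟩
    exact lt_asymm hij hab'
  · rw [el_apply, if_pos rfl, if_neg, add_zero]
    rintro ⟨rfl, rfl⟩
    exact lt_irrefl _ hij

theorem iwahori_el_Cong (m : ℕ) (i j : Fin n) (hij : i ≠ j) (c : ℚ_[p])
    (hc : ‖c‖ ≤ (p : ℝ) ^ (-(m : ℤ))) : el p i j hij c ∈ Cong p n m := by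
  intro a b
  rw [el_apply, Matrix.one_apply, add_sub_cancel_left]
  split_ifs
  · exact hc
  · rw [norm_zero]; exact (fact_pow_pos p _).le

theorem iwahori_step (m : ℕ) (hm : 1 ≤ m) (g : SLn p n) (hg : g ∈ Cong p n m) (N : ℕ) :
    ∃ y ∈ NL p (1 : Equiv.Perm (Fin n)), y ∈ Cong p n m ∧
      ∀ i j : Fin n, j < i → (n - 1 - (i : ℕ)) * n + (j : ℕ) < N → (g * y : SLn p n) i j = 0 := by
  induction N with
  | zero => exact ⟨1, one_mem _, one_mem _, fun i j _ h => absurd h (Nat.not_lt_zero _)⟩
  | succ N ih =>
    obtain ⟨y, hy1, hy2, hy3⟩ := ih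
    by_cases hex : ∃ i j : Fin n, j < i ∧ (n - 1 - (i : ℕ)) * n + (j : ℕ) = N
    · obtain ⟨i, j, hij, hN⟩ := hex
      have hh : g * y ∈ Cong p n m := mul_mem hg hy2
      have hd := iwahori_norm_diag p hm hh i
      have hb0 : (g * y : SLn p n) i i ≠ 0 := by
        intro h0
        rw [h0, norm_zero] at hd
        exact zero_ne_one hd
      set c : ℚ_[p] := -((g * y : SLn p n) i j / (g * y : SLn p n) i i) with hc
      have hcn : ‖c‖ ≤ (p : ℝ) ^ (-(m : ℤ)) := by
        rw [hc, norm_neg, norm_div, hd, div_one]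
        have := hh i j
        rwa [Matrix.one_apply_ne (ne_of_gt hij), sub_zero] at this
      refine ⟨y * el p i j (ne_of_gt hij) c, mul_mem hy1 (iwahori_el_NL p i j hij c),
        mul_mem hy2 (iwahori_el_Cong p m i j (ne_of_gt hij) c hcn), ?_⟩
      intro a b hab hkey
      rw [← mul_assoc]
      have hmul : ∀ a b, (g * y * el p i j (ne_of_gt hij) c : SLn p n) a b =
          ((g * y : SLn p n) : Matrix (Fin n) (Fin n) ℚ_[p]) a b +
          if b = j then c * ((g * y : SLn p n) : Matrix (Fin n) (Fin n) ℚ_[p]) a i else 0 := by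
        intro a b
        have h0 : (g * y * el p i j (ne_of_gt hij) c : SLn p n) a b =
          (((g * y : SLn p n) : Matrix (Fin n) (Fin n) ℚ_[p]) * Matrix.transvection i j c) a b :=
          rfl
        rw [h0]
        by_cases hb : b = j
        · rw [hb, if_pos rfl, Matrix.mul_transvection_apply_same]
        · rw [if_neg hb, Matrix.mul_transvection_apply_of_ne _ _ _ _ hb, add_zero]
      rw [hmul]
      have hi := i.2
      have ha := a.2
      have hj := j.2
      have hbn := b.2
      by_cases hai : a = i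
      · subst hai
        by_cases hbj : b = j
        · subst hbj
          rw [if_pos rfl, hc]
          field_simp
          ring
        · rw [if_neg hbj, add_zero]
          apply hy3 a b hab
          have : (b : ℕ) ≠ j := fun h => hbj (Fin.ext h)
          omega
      · -- row `a ≠ i`
        have hlt : i < a := by
          by_contra hcon
          have h1 : a < i := lt_of_le_of_ne (not_lt.mp hcon) hai
          have h2 : (a : ℕ) < i := h1
          have h3 : (n - 1 - (a : ℕ)) ≥ (n - 1 - (i : ℕ)) + 1 := by omega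
          have h4 : (n - 1 - (a : ℕ)) * n ≥ ((n - 1 - (i : ℕ)) + 1) * n :=
            Nat.mul_le_mul_right n h3
          rw [add_mul, one_mul] at h4
          omega
        have h2 : (i : ℕ) < a := hlt
        have h3 : (n - 1 - (i : ℕ)) ≥ (n - 1 - (a : ℕ)) + 1 := by omega
        have h4 : (n - 1 - (i : ℕ)) * n ≥ ((n - 1 - (a : ℕ)) + 1) * n :=
          Nat.mul_le_mul_right n h3
        rw [add_mul, one_mul] at h4
        have e1 : ((g * y : SLn p n) : Matrix (Fin n) (Fin n) ℚ_[p]) a b = 0 :=
          hy3 a b hab (by omega)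
        have e2 : ((g * y : SLn p n) : Matrix (Fin n) (Fin n) ℚ_[p]) a i = 0 :=
          hy3 a i hlt (by omega)
        rw [e1, e2]
        simp
    · refine ⟨y, hy1, hy2, fun i j hij hkey => ?_⟩
      apply hy3 i j hij
      have : (n - 1 - (i : ℕ)) * n + (j : ℕ) ≠ N := fun h => hex ⟨i, j, hij, h⟩
      omega

/-- TARGET 1: the Iwahori factorisation of the congruence subgroup of level `m ≥ 1`.
(`Up p 1` = upper triangular, `NL p 1` = lower triangular unipotent.)

Proof. It is enough to find `y` in `NL p 1 ⊓ Cong p n m` with `g * y` upper triangular (then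
`b = g * y` is in `Cong p n m`, and `g = b * y⁻¹`). Process the positions `(i, j)` with `j < i` one
after the other, larger `i` first (for instance by induction on the number of unprocessed
positions in a suitable order). Invariant: the current matrix is in `Cong p n m` and its processed
entries vanish. To process `(i, j)`: the diagonal entry `b` at `(i, i)` satisfies
`‖b - 1‖ ≤ p^(-m) < 1`, so `‖b‖ = 1`; multiply on the right by `el i j (-(a/b))` where `a` is the
entry at `(i, j)`, `‖a/b‖ ≤ p^(-m)`: column `j` -= `(a/b)` column `i`. Rows `i' > i` have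
zeros in columns `i` and `j` already, so these zeros persist; row `i` keeps its other
processed zeros since only column `j` changes. -/
theorem iwahori (m : ℕ) (hm : 1 ≤ m) (g : SLn p n) (hg : g ∈ Cong p n m) :
    ∃ b ∈ Up p (1 : Equiv.Perm (Fin n)), b ∈ Cong p n m ∧
      ∃ y ∈ NL p (1 : Equiv.Perm (Fin n)), y ∈ Cong p n m ∧ g = b * y := by
  obtain ⟨y, hy1, hy2, hy3⟩ := iwahori_step p m hm g hg (n * n)
  refine ⟨g * y, ?_, mul_mem hg hy2, y⁻¹, inv_mem hy1, inv_mem hy2, by group⟩
  intro i j hij
  apply hy3 i j (by simpa using hij)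
  have hi := i.2
  have hj := j.2
  have h1 : (n - 1 - (i : ℕ)) * n ≤ (n - 1) * n := Nat.mul_le_mul_right n (by omega)
  have h2 : n * n = (n - 1) * n + n := by
    obtain ⟨k, hk⟩ : ∃ k, n = k + 1 := ⟨n - 1, by omega⟩
    rw [hk]
    simp
    ring
  omega

/-- TARGET 2: an upper triangular matrix is diagonal times unipotent (the diagonal entries of `b`
have product `det b = 1`: `Matrix.det_of_upperTriangular`). -/
theorem up_factor (b : SLn p n) (hb : b ∈ Up p (1 : Equiv.Perm (Fin n))) :
    ∃ t ∈ Tor p n, ∃ u ∈ NU p (1 : Equiv.Perm (Fin n)), b = t * u := by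
  have hdet : ∏ i, b i i = 1 := by
    have h1 : Matrix.BlockTriangular (b : Matrix (Fin n) (Fin n) ℚ_[p]) id :=
      fun i j h => hb i j (by simpa using h)
    rw [← Matrix.det_of_upperTriangular h1]
    exact b.2
  have hne : ∀ i, b i i ≠ 0 := by
    intro i h0
    have := Finset.prod_eq_zero (f := fun i => b i i) (Finset.mem_univ i) h0
    rw [hdet] at this
    exact one_ne_zero this
  let t := dg p (fun i => b i i) hdet
  have ht : t ∈ Tor p n := by
    constructor
    · intro i j hij
      show dg p _ hdet i j = 0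
      rw [dg_apply, if_neg]
      rintro rfl; exact lt_irrefl _ hij
    · intro i j hij
      show dg p _ hdet i j = 0
      rw [dg_apply, if_neg]
      rintro rfl; exact lt_irrefl _ hij
  refine ⟨t, ht, t⁻¹ * b, ⟨mul_mem (inv_mem ht.1) hb, fun i => ?_⟩, by group⟩
  have h1 : (t * (t⁻¹ * b) : SLn p n) i i = b i i := by
    rw [mul_inv_cancel_left]
  rw [Matrix.SpecialLinearGroup.coe_mul, Matrix.mul_apply, Finset.sum_eq_single i] at h1
  · have h2 : (t : Matrix (Fin n) (Fin n) ℚ_[p]) i i = b i i := by
      show dg p _ hdet i i = _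
      rw [dg_apply, if_pos rfl]
    rw [h2] at h1
    exact mul_left_cancel₀ (hne i) (by rw [h1, mul_one])
  · intro k _ hk
    have h2 : (t : Matrix (Fin n) (Fin n) ℚ_[p]) i k = 0 := by
      show dg p _ hdet i k = _
      rw [dg_apply, if_neg (Ne.symm hk)]
    rw [h2, zero_mul]
  · intro h; exact absurd (Finset.mem_univ i) h
end Pool.Agent.Helper911
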