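import Mathlib
import Pool.Agent.Helper911_SL.Defs2

set_option autoImplicit false
set_option linter.unusedSectionVars false
set_option maxHeartbeats 1000000

noncomputable section

open Matrix Topology Filter

namespace Pool.Agent.Helper911


variable (p : ℕ) [Fact p.Prime] {n : ℕ} [NeZero n]

/-! ======= TARGETS ======= -/

theorem BR_low (c : Fin n) (f : Fin n → ℚ_[p]) :
    ∃ y ∈ NL p (1 : Equiv.Perm (Fin n)), ∀ (M : SLn p n) (k b : Fin n),
      (M * y : SLn p n) k b = M k b + if b < c then M k c * f b else 0 := by
  let Y : Matrix (Fin n) (Fin n) ℚ_[p] := fun a b =>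
    (if a = b then 1 else 0) + if a = c ∧ b < c then f b else 0
  have hd : Y.det = 1 := by
    rw [Matrix.det_of_isLowerTriangular Y]
    · refine Finset.prod_eq_one fun i _ => ?_
      show (if i = i then 1 else 0) + (if i = c ∧ i < c then f i else 0) = (1 : ℚ_[p])
      rw [if_pos rfl, if_neg, add_zero]
      rintro ⟨rfl, h⟩; exact lt_irrefl _ h
    · intro i j hij
      have hij' : i < j := hij
      show (if i = j then 1 else 0) + (if i = c ∧ j < c then f j else 0) = (0 : ℚ_[p])
      rw [if_neg hij'.ne, if_neg, add_zero]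
      rintro ⟨rfl, h⟩; exact lt_asymm h hij'
  refine ⟨⟨Y, hd⟩, ⟨?_, ?_⟩, ?_⟩
  · intro i j hij
    have hij' : i < j := by
      simpa [rv] using hij
    show (if i = j then 1 else 0) + (if i = c ∧ j < c then f j else 0) = (0 : ℚ_[p])
    rw [if_neg hij'.ne, if_neg, add_zero]
    rintro ⟨rfl, h⟩; exact lt_asymm h hij'
  · intro i
    show (if i = i then 1 else 0) + (if i = c ∧ i < c then f i else 0) = (1 : ℚ_[p])
    rw [if_pos rfl, if_neg, add_zero]
    rintro ⟨rfl, h⟩; exact lt_irrefl _ h
  · intro M k b
    show ((M : Matrix (Fin n) (Fin n) ℚ_[p]) * Y) k b = _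
    rw [Matrix.mul_apply]
    have h1 : ∀ a, M k a * Y a b = (if a = b then M k a else 0) +
        (if a = c then (if b < c then M k a * f b else 0) else 0) := by
      intro a
      show M k a * ((if a = b then 1 else 0) + (if a = c ∧ b < c then f b else 0)) = _
      simp only [mul_add, mul_ite, mul_one, mul_zero, ite_and]
    rw [Finset.sum_congr rfl fun a _ => h1 a, Finset.sum_add_distrib, Finset.sum_ite_eq',
      Finset.sum_ite_eq', if_pos (Finset.mem_univ _), if_pos (Finset.mem_univ _)]

theorem BR_up (i : Fin n) (f : Fin n → ℚ_[p]) :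
    ∃ b ∈ Up p (1 : Equiv.Perm (Fin n)), ∀ (M : SLn p n) (k j : Fin n),
      (b * M : SLn p n) k j = M k j + if k < i then f k * M i j else 0 := by
  let Y : Matrix (Fin n) (Fin n) ℚ_[p] := fun a b =>
    (if a = b then 1 else 0) + if b = i ∧ a < i then f a else 0
  have hd : Y.det = 1 := by
    rw [Matrix.det_of_isUpperTriangular (M := Y)]
    · refine Finset.prod_eq_one fun k _ => ?_
      show (if k = k then 1 else 0) + (if k = i ∧ k < i then f k else 0) = (1 : ℚ_[p])
      rw [if_pos rfl, if_neg, add_zero]
      rintro ⟨rfl, h⟩; exact lt_irrefl _ h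
    · intro k j hij
      have hij' : j < k := hij
      show (if k = j then 1 else 0) + (if j = i ∧ k < i then f k else 0) = (0 : ℚ_[p])
      rw [if_neg hij'.ne', if_neg, add_zero]
      rintro ⟨rfl, h⟩; exact lt_asymm h hij'
  refine ⟨⟨Y, hd⟩, ?_, ?_⟩
  · intro k j hij
    have hij' : j < k := by simpa using hij
    show (if k = j then 1 else 0) + (if j = i ∧ k < i then f k else 0) = (0 : ℚ_[p])
    rw [if_neg hij'.ne', if_neg, add_zero]
    rintro ⟨rfl, h⟩; exact lt_asymm h hij'
  · intro M k j
    show (Y * (M : Matrix (Fin n) (Fin n) ℚ_[p])) k j = _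
    rw [Matrix.mul_apply]
    have h1 : ∀ a, Y k a * M a j = (if k = a then M a j else 0) +
        (if a = i then (if k < i then f k * M a j else 0) else 0) := by
      intro a
      show ((if k = a then 1 else 0) + (if a = i ∧ k < i then f k else 0)) * M a j = _
      simp only [add_mul, ite_mul, one_mul, zero_mul, ite_and]
    rw [Finset.sum_congr rfl fun a _ => h1 a, Finset.sum_add_distrib, Finset.sum_ite_eq,
      Finset.sum_ite_eq', if_pos (Finset.mem_univ _), if_pos (Finset.mem_univ _)]

theorem BR_row (M : SLn p n) (i : Fin n) : ∃ c, M i c ≠ 0 ∧ ∀ j, c < j → M i j = 0 := by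
  classical
  have h1 : ∃ j, M i j ≠ 0 := by
    by_contra hne
    push Not at hne
    have h2 := Matrix.det_eq_zero_of_row_eq_zero (A := (M : Matrix (Fin n) (Fin n) ℚ_[p])) i hne
    have h3 : (M : Matrix (Fin n) (Fin n) ℚ_[p]).det = 1 := M.2
    rw [h3] at h2
    exact one_ne_zero h2
  let S : Finset (Fin n) := Finset.univ.filter fun j => M i j ≠ 0
  have hS : S.Nonempty := by
    obtain ⟨j, hj⟩ := h1
    exact ⟨j, by simp [S, hj]⟩
  refine ⟨S.max' hS, ?_, ?_⟩
  · have := S.max'_mem hS
    simpa [S] using this
  · intro j hj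
    by_contra hne
    have h2 : j ∈ S := by simp [S, hne]
    exact absurd (S.le_max' j h2) (not_le.2 hj)

theorem BR_inv (g : SLn p n) (m : ℕ) (hm : m ≤ n) :
    ∃ b ∈ Up p (1 : Equiv.Perm (Fin n)), ∃ y ∈ NL p (1 : Equiv.Perm (Fin n)),
    ∃ σ : Fin n → Fin n, ∀ i : Fin n, n ≤ (i : ℕ) + m →
      (∀ j, (b * g * y : SLn p n) i j ≠ 0 ↔ j = σ i) ∧
      (∀ k, k ≠ i → (b * g * y : SLn p n) k (σ i) = 0) := by
  induction m with
  | zero =>
    refine ⟨1, one_mem _, 1, one_mem _, id, fun i hi => ?_⟩
    have := i.2
    omega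
  | succ m ih =>
    obtain ⟨b, hb, y, hy, σ, h⟩ := ih (by omega)
    set M : SLn p n := b * g * y with hM
    obtain ⟨i, hi⟩ : ∃ i : Fin n, (i : ℕ) + m + 1 = n := ⟨⟨n - m - 1, by omega⟩, by
      show n - m - 1 + m + 1 = n
      omega⟩
    obtain ⟨c, hc1, hc2⟩ := BR_row p M i
    obtain ⟨y', hy', hyM⟩ := BR_low p c (fun j => -(M i j / M i c))
    set N : SLn p n := M * y' with hN
    obtain ⟨b', hb', hbN⟩ := BR_up p i (fun k => -(N k c / N i c))
    have hP : b' * b * g * (y * y') = b' * N := by rw [hN, hM]; group
    refine ⟨b' * b, mul_mem hb' hb, y * y', mul_mem hy hy', Function.update σ i c, ?_⟩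
    rw [hP]
    -- facts on processed rows
    have hσ : ∀ k : Fin n, i < k → (∀ j, M k j ≠ 0 ↔ j = σ k) ∧ ∀ l, l ≠ k → M l (σ k) = 0 := by
      intro k hk
      have hk' : (i : ℕ) < k := hk
      exact h k (by omega)
    have hσc : ∀ k : Fin n, i < k → c ≠ σ k := by
      intro k hk hck
      exact hc1 (hck ▸ (hσ k hk).2 i hk.ne)
    have hMc : ∀ k : Fin n, i < k → M k c = 0 := by
      intro k hk
      by_contra hne
      exact hσc k hk (((hσ k hk).1 c).1 hne)
    have hNe : ∀ k j, N k j = M k j + if j < c then M k c * -(M i j / M i c) else 0 :=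
      fun k j => hyM M k j
    have hN1 : ∀ k : Fin n, i < k → ∀ j, N k j = M k j := by
      intro k hk j
      rw [hNe, hMc k hk]
      simp
    have hN2 : ∀ j, j ≠ c → N i j = 0 := by
      intro j hj
      rw [hNe]
      rcases lt_or_gt_of_ne hj with hlt | hgt
      · rw [if_pos hlt]; field_simp; ring
      · rw [if_neg (lt_asymm hgt), hc2 j hgt, add_zero]
    have hN3 : N i c = M i c := by
      rw [hNe, if_neg (lt_irrefl _), add_zero]
    have hN4 : ∀ k : Fin n, i < k → ∀ l, N l (σ k) = M l (σ k) := by
      intro k hk l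
      rw [hNe, (hσ k hk).2 i hk.ne]
      simp
    have hQ : ∀ k j, (b' * N : SLn p n) k j = N k j + if k < i then -(N k c / N i c) * N i j else 0 :=
      fun k j => hbN N k j
    intro k hk
    have hik : i ≤ k := by
      show (i : ℕ) ≤ k
      omega
    rcases eq_or_lt_of_le hik with rfl | hlt
    · rw [Function.update_self]
      refine ⟨fun j => ?_, fun l hl => ?_⟩
      · rw [hQ, if_neg (lt_irrefl _), add_zero]
        constructor
        · intro hne
          by_contra hjc
          exact hne (hN2 j hjc)
        · rintro rfl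
          rw [hN3]; exact hc1
      · rw [hQ]
        rcases lt_or_gt_of_ne hl with h3 | h3
        · rw [if_pos h3]
          have : N i c ≠ 0 := by rw [hN3]; exact hc1
          field_simp; ring
        · rw [if_neg (lt_asymm h3), add_zero, hN1 l h3, hMc l h3]
    · rw [Function.update_of_ne hlt.ne']
      refine ⟨fun j => ?_, fun l hl => ?_⟩
      · rw [hQ, if_neg (lt_asymm hlt), add_zero, hN1 k hlt]
        exact (hσ k hlt).1 j
      · rw [hQ, hN4 k hlt l, hN2 (σ k) (hσc k hlt).symm, (hσ k hlt).2 l hl]
        simp

/-- TARGET: the Bruhat decomposition (with the opposite unipotent group on the right).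
`Up p 1` = upper triangular, `NL p 1` = lower triangular unipotent, `wrep p w` = signed permutation
matrix with entry `± 1` at `(w j, j)`.

Proof (Gaussian elimination). Work inside the double coset of `g`: replace `g` by `b g y` with `b`
upper triangular and `y` lower unipotent. Process the rows `i` from the last to the first.
Invariant after the rows `> i` have been processed: there is a map `σ` on the rows `> i`,
injective, such that for `i' > i` the row `i'` of the current matrix has its only nonzero entry in
column `σ i'`, and that column has its only nonzero entry in row `i'`.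
To process row `i`: the row is nonzero (the matrix is invertible); its nonzero entries are in columns not of
the form `σ i'`, `i' > i`. Let `c` be the largest column with nonzero entry `(i, c)`. For each `j < c`
multiply on the right by `el c j (-(a_ij / a_ic))` (column `j` -= multiple of column `c`; allowed since
`c > j`). Column `c` vanishes in rows `> i`, so those rows do not change. Now row `i` has its only
nonzero entry in column `c`. Then for each `i'' < i` multiply on the left by `el i'' i (-(a_i''c / a_ic))` (row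
`i''` -= multiple of row `i`; allowed since `i'' < i`), which only changes column `c`. Put `σ i = c`.
At the end the matrix is monomial; `σ` is a bijection, and with `w = σ⁻¹` (so `w (σ i) = i`) the
matrix is a diagonal matrix times `wrep p w`; the diagonal matrix has determinant one, since both
other matrices have. (A convenient form of the induction: for each `m ≤ n`, the invariant for the rows
with index `≥ n - m`.) -/
theorem bruhat_exists (g : SLn p n) : ∃ w : Equiv.Perm (Fin n),
    ∃ b ∈ Up p (1 : Equiv.Perm (Fin n)), ∃ y ∈ NL p (1 : Equiv.Perm (Fin n)),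
      g = b * wrep p w * y := by
  obtain ⟨b, hb, y, hy, σ, h⟩ := BR_inv p g n le_rfl
  set M : SLn p n := b * g * y with hM
  have h1 : ∀ i j, M i j ≠ 0 ↔ j = σ i := fun i => (h i (by have := i.2; omega)).1
  have h2 : ∀ i k, k ≠ i → M k (σ i) = 0 := fun i => (h i (by have := i.2; omega)).2
  have hinj : Function.Injective σ := by
    intro i i' hii
    by_contra hne
    have h3 := h2 i' i hne
    rw [← hii] at h3
    exact (h1 i (σ i)).2 rfl h3
  let s : Equiv.Perm (Fin n) := Equiv.ofBijective σ hinj.bijective_of_finite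
  have hs : ∀ i, s i = σ i := fun i => rfl
  have hM2 : g = (b⁻¹ * (M * (wrep p s⁻¹)⁻¹)) * wrep p s⁻¹ * y⁻¹ := by
    rw [hM]; group
  refine ⟨s⁻¹, b⁻¹ * (M * (wrep p s⁻¹)⁻¹), mul_mem (inv_mem hb) ?_, y⁻¹, inv_mem hy, hM2⟩
  intro i j hij
  simp only [Equiv.Perm.coe_one, id_eq] at hij
  rw [Matrix.SpecialLinearGroup.coe_mul, Matrix.mul_apply]
  refine Finset.sum_eq_zero fun k _ => ?_
  rw [wrep_inv_apply]
  split_ifs with hk
  · have h3 : k = σ j := by
      rw [← hs, ← hk]; simp
    rw [h3, h2 j i (by rintro rfl; exact lt_irrefl _ hij), zero_mul]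
  · rw [mul_zero]
end Pool.Agent.Helper911
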