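import Mathlib
import Pool.Agent.Helper911_SL.Defs2

set_option autoImplicit false
set_option linter.unusedSectionVars false
set_option maxHeartbeats 1000000

noncomputable section

open Matrix Topology Filter

namespace Pool.Agent.Helper911


variable (p : ℕ) [Fact p.Prime] {n : ℕ} [NeZero n]

/-! ======= TARGETS ======= -/

theorem eps_ne_zero (w : Equiv.Perm (Fin n)) (i : Fin n) : eps p w i ≠ 0 := by
  intro h
  have := eps_mul_self p w i
  rw [h, mul_zero] at this
  exact zero_ne_one this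

/-- TARGET 1: uniqueness in the Bruhat decomposition. Proof: `b⁻¹ * wrep w' = wrep w * y`. Compare
the entries at `(w j, j)`: on the right `± y j j ≠ 0` (the row `w j` of `wrep w * y` is `±` row `j`
of `y`). On the left the entry at `(i, j)` is `±` the entry of `b⁻¹` at `(i, w' j)`, so it is nonzero
only if `i ≤ w' j`. So `w j ≤ w' j` for all `j`, hence `w = w'` (a permutation `τ` of `Fin n` with
`i ≤ τ i` for all `i` is the identity). -/
theorem bruhat_unique (w w' : Equiv.Perm (Fin n)) (b : SLn p n)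
    (hb : b ∈ Up p (1 : Equiv.Perm (Fin n))) (y : SLn p n)
    (hy : y ∈ NL p (1 : Equiv.Perm (Fin n)))
    (h : wrep p w' = b * wrep p w * y) : w' = w := by
  have hb' : b⁻¹ ∈ Up p (1 : Equiv.Perm (Fin n)) := inv_mem hb
  have hy1 : ∀ i, y i i = 1 := hy.2
  have h1 : b⁻¹ * wrep p w' = wrep p w * y := by rw [h]; group
  have hle : ∀ j, w j ≤ w' j := by
    intro j
    by_contra hlt
    rw [not_le] at hlt
    have h2 := congrArg (fun g : SLn p n => g (w j) j) h1
    simp only [Matrix.SpecialLinearGroup.coe_mul, Matrix.mul_apply] at h2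
    rw [Finset.sum_eq_single (w' j), Finset.sum_eq_single j] at h2
    · rw [wrep_apply p w (w j) j, if_pos rfl, hy1 j, mul_one, hb' (w j) (w' j) hlt, zero_mul] at h2
      exact eps_ne_zero p w (w j) h2.symm
    · intro k _ hk
      rw [wrep_apply, if_neg, zero_mul]
      intro hh; exact hk (w.injective hh)
    · intro hh; exact absurd (Finset.mem_univ _) hh
    · intro k _ hk
      rw [wrep_apply, if_neg (fun hh => hk hh.symm), mul_zero]
    · intro hh; exact absurd (Finset.mem_univ _) hh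
  have hsum : ∑ j, ((w j : Fin n) : ℕ) = ∑ j, ((w' j : Fin n) : ℕ) := by
    rw [Equiv.sum_comp w (fun j : Fin n => (j : ℕ)), Equiv.sum_comp w' (fun j : Fin n => (j : ℕ))]
  have h3 := (Finset.sum_eq_sum_iff_of_le (fun j _ => (Fin.le_def.1 (hle j)))).1 hsum
  ext j
  exact (h3 j (Finset.mem_univ _)).symm

theorem conj_wrep_NU_gen (w s : Equiv.Perm (Fin n)) (g : SLn p n) :
    wrep p w * g * (wrep p w)⁻¹ ∈ NU p s ↔ g ∈ NU p (w.trans s) := by
  constructor
  · rintro ⟨h1, h2⟩
    refine ⟨fun i j hij => ?_, fun i => ?_⟩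
    · have h3 := h1 (w i) (w j) hij
      rw [conj_wrep_apply] at h3
      simp only [Equiv.symm_apply_apply] at h3
      rcases mul_eq_zero.1 h3 with h4 | h4
      · rcases mul_eq_zero.1 h4 with h5 | h5
        · exact absurd h5 (eps_ne_zero p w _)
        · exact absurd h5 (eps_ne_zero p w _)
      · exact h4
    · have h3 := h2 (w i)
      rw [conj_wrep_apply, eps_mul_self, one_mul] at h3
      simpa using h3
  · rintro ⟨h1, h2⟩
    refine ⟨fun i j hij => ?_, fun i => ?_⟩
    · rw [conj_wrep_apply, h1 (w.symm i) (w.symm j) (by simpa using hij), mul_zero]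
    · rw [conj_wrep_apply, eps_mul_self, one_mul, h2]

/-- TARGET 2. -/
theorem conj_wrep_NU (w : Equiv.Perm (Fin n)) (g : SLn p n) :
    wrep p w * g * (wrep p w)⁻¹ ∈ NU p (1 : Equiv.Perm (Fin n)) ↔ g ∈ NU p w := by
  rw [conj_wrep_NU_gen]
  have : w.trans (1 : Equiv.Perm (Fin n)) = w := by ext; rfl
  rw [this]

/-- TARGET 3. -/
theorem conj_wrep_NL (w : Equiv.Perm (Fin n)) (g : SLn p n) :
    wrep p w * g * (wrep p w)⁻¹ ∈ NL p (1 : Equiv.Perm (Fin n)) ↔ g ∈ NL p w := by
  unfold NL
  rw [conj_wrep_NU_gen]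
  have : w.trans (rv (1 : Equiv.Perm (Fin n))) = rv w := by ext; rfl
  rw [this]

theorem mem_Tor_iff (g : SLn p n) : g ∈ Tor p n ↔ ∀ i j, i ≠ j → g i j = 0 := by
  constructor
  · rintro ⟨h1, h2⟩ i j hij
    rcases lt_or_gt_of_ne hij with h | h
    · exact h2 i j (by
        show Fin.rev j < Fin.rev i
        exact Fin.rev_lt_rev.2 h)
    · exact h1 i j h
  · intro h
    refine ⟨fun i j hij => h i j ?_, fun i j hij => h i j ?_⟩
    · rintro rfl; exact lt_irrefl _ hij
    · rintro rfl; exact lt_irrefl _ hij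

/-- TARGET 4. -/
theorem conj_wrep_Tor (w : Equiv.Perm (Fin n)) (g : SLn p n) (hg : g ∈ Tor p n) :
    wrep p w * g * (wrep p w)⁻¹ ∈ Tor p n := by
  rw [mem_Tor_iff] at hg ⊢
  intro i j hij
  rw [conj_wrep_apply, hg _ _ (fun h => hij (w.symm.injective h)), mul_zero]

/-- TARGET 5. -/
theorem wrep_mem (w : Equiv.Perm (Fin n)) : wrep p w ∈ Cong p n 0 := by
  intro i j
  have h0 : (p : ℝ) ^ (-((0 : ℕ) : ℤ)) = 1 := by simp
  rw [h0]
  have h1 : ‖wrep p w i j‖ ≤ 1 := by
    rw [wrep_apply]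
    split_ifs
    · have h2 : ‖eps p w i‖ * ‖eps p w i‖ = 1 := by
        rw [← norm_mul, eps_mul_self, norm_one]
      nlinarith [norm_nonneg (eps p w i)]
    · simp
  have h2 : ‖(1 : Matrix (Fin n) (Fin n) ℚ_[p]) i j‖ ≤ 1 := by
    rw [Matrix.one_apply]; split_ifs <;> simp
  rw [sub_eq_add_neg]
  refine (IsUltrametricDist.norm_add_le_max _ _).trans (max_le h1 ?_)
  rwa [norm_neg]

/-- TARGET 6. -/
theorem zel_mem : zel p n ∈ Tor p n := by
  rw [mem_Tor_iff]
  intro i j hij
  unfold zel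
  rw [dg_apply, if_neg hij]

theorem tor_conj_apply (t g : SLn p n) (ht : t ∈ Tor p n) (i j : Fin n) :
    (t * g * t⁻¹ : SLn p n) i j = t i i * g i j * (t⁻¹ : SLn p n) j j := by
  have ht' : t⁻¹ ∈ Tor p n := inv_mem ht
  rw [mem_Tor_iff] at ht ht'
  rw [Matrix.SpecialLinearGroup.coe_mul, Matrix.mul_apply, Finset.sum_eq_single j]
  · rw [Matrix.SpecialLinearGroup.coe_mul, Matrix.mul_apply, Finset.sum_eq_single i]
    · intro k _ hk
      rw [ht i k (Ne.symm hk), zero_mul]
    · intro hh; exact absurd (Finset.mem_univ _) hh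
  · intro k _ hk
    rw [ht' k j hk, mul_zero]
  · intro hh; exact absurd (Finset.mem_univ _) hh

theorem tor_diag_inv (t : SLn p n) (ht : t ∈ Tor p n) (i : Fin n) :
    t i i * (t⁻¹ : SLn p n) i i = 1 := by
  have h := tor_conj_apply p t 1 ht i i
  rw [mul_one, mul_inv_cancel] at h
  simpa using h.symm

/-- TARGET 7. -/
theorem tor_conj_NU (s : Equiv.Perm (Fin n)) (t g : SLn p n) (ht : t ∈ Tor p n)
    (hg : g ∈ NU p s) : t * g * t⁻¹ ∈ NU p s := by
  obtain ⟨h1, h2⟩ := hg
  refine ⟨fun i j hij => ?_, fun i => ?_⟩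
  · rw [tor_conj_apply p t g ht, h1 i j hij, mul_zero, zero_mul]
  · rw [tor_conj_apply p t g ht, h2 i, mul_one, tor_diag_inv p t ht]

/-- TARGET 8. -/
theorem up_inter_NL (g : SLn p n) (h1 : g ∈ Up p (1 : Equiv.Perm (Fin n)))
    (h2 : g ∈ NL p (1 : Equiv.Perm (Fin n))) : g = 1 := by
  have h3 : g ∈ Tor p n := ⟨h1, h2.1⟩
  rw [mem_Tor_iff] at h3
  ext i j
  rw [Matrix.SpecialLinearGroup.coe_one, Matrix.one_apply]
  split_ifs with h
  · subst h; exact h2.2 i
  · exact h3 i j h

theorem el_mem_NU_iff (s : Equiv.Perm (Fin n)) (i j : Fin n) (hij : i ≠ j) :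
    el p i j hij 1 ∈ NU p s ↔ s i < s j := by
  constructor
  · rintro ⟨h1, -⟩
    by_contra hlt
    have hlt' : s j < s i := lt_of_le_of_ne (not_lt.1 hlt) (fun h => hij (s.injective h).symm)
    have h3 := h1 i j hlt'
    rw [el_apply, if_neg hij, if_pos ⟨rfl, rfl⟩, zero_add] at h3
    exact one_ne_zero h3
  · intro h
    refine ⟨fun a b hab => ?_, fun a => ?_⟩
    · rw [el_apply, if_neg, if_neg, add_zero]
      · rintro ⟨rfl, rfl⟩; exact lt_asymm h hab
      · rintro rfl; exact lt_irrefl _ hab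
    · rw [el_apply, if_pos rfl, if_neg, add_zero]
      rintro ⟨h1, h2⟩; exact hij (h1.symm.trans h2)

/-- TARGET 9: for `j < i` the element `el i j 1` is in `NL p 1`, and it is in `NU p w` iff
`w i < w j`; so `w` and `w'` have the same inversions, and `w' * w⁻¹` is monotone. -/
theorem stab_inj (w w' : Equiv.Perm (Fin n))
    (h : ∀ s ∈ NL p (1 : Equiv.Perm (Fin n)), s ∈ NU p w ↔ s ∈ NU p w') : w = w' := by
  have h1 : ∀ i j, j < i → (w i < w j ↔ w' i < w' j) := by
    intro i j hij
    have h2 : el p i j hij.ne' 1 ∈ NL p (1 : Equiv.Perm (Fin n)) := by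
      unfold NL
      rw [el_mem_NU_iff]
      show Fin.rev i < Fin.rev j
      exact Fin.rev_lt_rev.2 hij
    have h3 := h _ h2
    rwa [el_mem_NU_iff, el_mem_NU_iff] at h3
  have h2 : ∀ i j, w i < w j → w' i < w' j := by
    intro i j hij
    rcases lt_trichotomy j i with hl | hl | hl
    · exact (h1 i j hl).1 hij
    · subst hl; exact absurd hij (lt_irrefl _)
    · rcases lt_trichotomy (w' i) (w' j) with h3 | h3 | h3
      · exact h3
      · exact absurd (w'.injective h3) hl.ne
      · exact absurd ((h1 j i hl).2 h3) (lt_asymm hij)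
  have h3 : StrictMono (w.symm.trans w') := by
    intro a b hab
    have := h2 (w.symm a) (w.symm b) (by simpa using hab)
    simpa using this
  let e : Fin n ≃o Fin n := StrictMono.orderIsoOfSurjective (w.symm.trans w') h3
    (w.symm.trans w').surjective
  have h4 : e = OrderIso.refl (Fin n) := Subsingleton.elim _ _
  ext j
  have h5 := congrArg (fun f : Fin n ≃o Fin n => f (w j)) h4
  have h6 : e (w j) = w' j := by
    show (w.symm.trans w') (w j) = w' j
    simp
  simp only [h6, OrderIso.refl_apply] at h5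
  rw [h5]
end Pool.Agent.Helper911
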