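import Mathlib
import Pool.Agent.Helper911_SL.Defs2

set_option autoImplicit false
set_option linter.unusedSectionVars false
set_option maxHeartbeats 1000000

noncomputable section

open Matrix Topology Filter

namespace Pool.Agent.Helper911


variable (p : ℕ) [Fact p.Prime] {n : ℕ} [NeZero n]

/-! ======= helper lemmas ======= -/

namespace Peel

theorem mem_NL (v : Equiv.Perm (Fin n)) (x : SLn p n) :
    x ∈ NL p v ↔ (∀ i j, v i < v j → x i j = 0) ∧ ∀ i, x i i = 1 := by
  constructor
  · rintro ⟨h1, h2⟩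
    refine ⟨fun i j hij => h1 i j ?_, h2⟩
    simpa [rv, Equiv.trans_apply, Fin.revPerm_apply] using hij
  · rintro ⟨h1, h2⟩
    refine ⟨fun i j hij => h1 i j ?_, h2⟩
    simpa [rv, Equiv.trans_apply, Fin.revPerm_apply] using hij

theorem mem_NU (v : Equiv.Perm (Fin n)) (x : SLn p n) :
    x ∈ NU p v ↔ (∀ i j, v j < v i → x i j = 0) ∧ ∀ i, x i i = 1 := Iff.rfl

theorem el_diag (i j : Fin n) (h : i ≠ j) (c : ℚ_[p]) (a : Fin n) : el p i j h c a a = 1 := by
  rw [el_apply, if_pos rfl, if_neg, add_zero]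
  rintro ⟨rfl, h2⟩
  exact h h2

theorem el_off (i j : Fin n) (h : i ≠ j) (c : ℚ_[p]) (a b : Fin n) (hab : a ≠ b)
    (h2 : ¬ (a = i ∧ b = j)) : el p i j h c a b = 0 := by
  rw [el_apply, if_neg hab, if_neg h2, add_zero]

theorem el_mem_NL (v : Equiv.Perm (Fin n)) (i j : Fin n) (h : i ≠ j) (c : ℚ_[p])
    (hv : v j < v i) : el p i j h c ∈ NL p v := by
  rw [mem_NL]
  refine ⟨fun a b hab => el_off p i j h c a b ?_ ?_, fun a => el_diag p i j h c a⟩
  · rintro rfl; exact lt_irrefl _ hab
  · rintro ⟨rfl, rfl⟩; exact lt_asymm hab hv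

theorem el_mem_NU (v : Equiv.Perm (Fin n)) (i j : Fin n) (h : i ≠ j) (c : ℚ_[p])
    (hv : v i < v j) : el p i j h c ∈ NU p v := by
  rw [mem_NU]
  refine ⟨fun a b hab => el_off p i j h c a b ?_ ?_, fun a => el_diag p i j h c a⟩
  · rintro rfl; exact lt_irrefl _ hab
  · rintro ⟨rfl, rfl⟩; exact lt_asymm hab hv

theorem el_mem_Cong (i j : Fin n) (h : i ≠ j) (c : ℚ_[p]) (m : ℕ)
    (hc : ‖c‖ ≤ (p : ℝ) ^ (-(m : ℤ))) : el p i j h c ∈ Cong p n m := by
  intro a b
  rw [el_apply, Matrix.one_apply]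
  have h1 : ((if a = b then (1 : ℚ_[p]) else 0) + (if a = i ∧ b = j then c else 0)
    - (if a = b then (1 : ℚ_[p]) else 0)) = if a = i ∧ b = j then c else 0 := by ring
  rw [h1]
  split_ifs
  · exact hc
  · rw [norm_zero]; exact (fact_pow_pos p _).le

theorem el_mul_neg (i j : Fin n) (h : i ≠ j) (c : ℚ_[p]) :
    el p i j h c * el p i j h (-c) = 1 := by
  apply Subtype.ext
  show Matrix.transvection i j c * Matrix.transvection i j (-c) = 1
  rw [Matrix.transvection_mul_transvection_same i j h, add_neg_cancel, Matrix.transvection_zero]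

theorem el_mul_apply (i j : Fin n) (h : i ≠ j) (c : ℚ_[p]) (x : SLn p n) (a b : Fin n) :
    (el p i j h c * x : SLn p n) a b = x a b + if a = i then c * x j b else 0 := by
  show (Matrix.transvection i j c * (x : Matrix (Fin n) (Fin n) ℚ_[p])) a b = _
  by_cases ha : a = i
  · subst ha
    rw [Matrix.transvection_mul_apply_same, if_pos rfl]
  · rw [Matrix.transvection_mul_apply_of_ne _ _ _ _ ha, if_neg ha, add_zero]

theorem peel (v : Equiv.Perm (Fin n)) (H : Subgroup (SLn p n)) (B : Finset (Fin n × Fin n))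
    (hB : ∀ q ∈ B, v q.2 < v q.1)
    (hH : ∀ q ∈ B, ∀ (h : q.1 ≠ q.2) (c : ℚ_[p]), el p q.1 q.2 h c ∈ H) :
    ∀ (k : ℕ) (T : Finset (Fin n × Fin n)), T.card = k → T ⊆ B →
      (∀ q ∈ T, ∀ q' ∈ B, ((v q.1 : ℕ) : ℤ) - ((v q.2 : ℕ) : ℤ) <
        ((v q'.1 : ℕ) : ℤ) - ((v q'.2 : ℕ) : ℤ) → q' ∈ T) →
      ∀ x ∈ NL p v, (∀ q ∈ B, q ∉ T → x q.1 q.2 = 0) →
      ∃ h ∈ H, ∃ y ∈ NL p v, (∀ q ∈ B, y q.1 q.2 = 0) ∧ x = h * y ∧
        ∀ m, x ∈ Cong p n m → h ∈ Cong p n m ∧ y ∈ Cong p n m := by
  intro k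
  induction k with
  | zero =>
    intro T hT _ _ x hx h0
    rw [Finset.card_eq_zero] at hT
    subst hT
    exact ⟨1, one_mem _, x, hx, fun q hq => h0 q hq (Finset.notMem_empty _), (one_mul x).symm,
      fun m hm => ⟨one_mem _, hm⟩⟩
  | succ k ih =>
    intro T hT hTB hup x hx h0
    have hne : T.Nonempty := by
      rw [← Finset.card_pos]; omega
    obtain ⟨⟨a, b⟩, hq, hmin⟩ := Finset.exists_min_image T
      (fun q => ((v q.1 : ℕ) : ℤ) - ((v q.2 : ℕ) : ℤ)) hne
    have hv : v b < v a := hB _ (hTB hq)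
    have hab : a ≠ b := by rintro rfl; exact lt_irrefl _ hv
    have hx' := (mem_NL p v x).1 hx
    obtain ⟨h, hh, y, hy, hy0, hxy, hc⟩ := ih (T.erase (a, b))
      (by rw [Finset.card_erase_of_mem hq]; omega)
      ((Finset.erase_subset _ _).trans hTB)
      (by
        intro q hqT q' hq'B hlt
        rw [Finset.mem_erase] at hqT ⊢
        refine ⟨?_, hup q hqT.2 q' hq'B hlt⟩
        rintro rfl
        have := hmin q hqT.2
        simp only at this hlt
        omega)
      (el p a b hab (-(x a b)) * x) (mul_mem (el_mem_NL p v a b hab _ hv) hx)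
      (by
        rintro ⟨a', b'⟩ hqB hqT
        simp only at *
        rw [el_mul_apply]
        by_cases heq : (a', b') = (a, b)
        · rw [Prod.mk.injEq] at heq
          obtain ⟨rfl, rfl⟩ := heq
          rw [if_pos rfl, hx'.2]; ring
        · have hqT' : (a', b') ∉ T := fun h => hqT (Finset.mem_erase.2 ⟨heq, h⟩)
          have hz : x a' b' = 0 := h0 (a', b') hqB hqT'
          rw [hz, zero_add]
          split_ifs with ha
          · subst ha
            have hbb : b' ≠ b := by rintro rfl; exact heq rfl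
            have h3 : x b b' = 0 := by
              apply hx'.1
              by_contra hlt
              have hle : v b' ≤ v b := not_lt.1 hlt
              have hlt2 : v b' < v b := lt_of_le_of_ne hle (fun h => hbb (v.injective h))
              apply hqT'
              apply hup (a', b) hq (a', b') hqB
              have : ((v b' : ℕ) : ℤ) < ((v b : ℕ) : ℤ) := by exact_mod_cast hlt2
              simp only
              omega
            rw [h3, mul_zero]
          · rfl)
    refine ⟨el p a b hab (x a b) * h, mul_mem (hH _ (hTB hq) hab _) hh, y, hy, hy0, ?_, ?_⟩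
    · rw [mul_assoc, ← hxy, ← mul_assoc, el_mul_neg, one_mul]
    · intro m hm
      have hn : ‖x a b‖ ≤ (p : ℝ) ^ (-(m : ℤ)) := by
        have := hm a b
        rwa [Matrix.one_apply_ne hab, sub_zero] at this
      have h1 : el p a b hab (x a b) ∈ Cong p n m := el_mem_Cong p a b hab _ m hn
      have h2 : el p a b hab (-(x a b)) ∈ Cong p n m :=
        el_mem_Cong p a b hab _ m (by rwa [norm_neg])
      have h3 := hc m (mul_mem h2 hm)
      exact ⟨mul_mem h1 h3.1, h3.2⟩

end Peel

/-! ======= TARGETS ======= -/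

/-- TARGET 1. Recall `NL p w` consists of the unipotent matrices `x` with `x a b = 0` whenever
`w a < w b`; `NU p 1` upper unipotent, `NL p 1` lower unipotent.

Proof of both targets (peeling). General statement: let `w` be a permutation, and let `bad` be a set
of positions `(a, b)` with `w b < w a`, and `H` a subgroup such that `el a b c ∈ H` for all bad `(a, b)`
and all `c`. Then each `x` in `NL p w` can be written `x = h * y` with `h ∈ H` and `y ∈ NL p w` with
`y a b = 0` for all bad `(a, b)`; and if all congruence conditions hold for `x` (`x ∈ Cong p n m`) then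
`h, y ∈ Cong p n m` (the same `h`, `y` for all `m`).
Process the bad positions in the order of increasing `d = w a - w b` (for example by induction on
`d`, or on the number of bad positions not yet processed): left multiplication by
`el a b (-(x a b))` (row `a` -= `x a b` * row `b`) kills the entry `(a, b)`, and changes the entry
`(a, k)` only if `x b k ≠ 0`, that is `k = b` or `w k < w b`, and in the second case `(a, k)` has
`w a - w k > d`. So processed zeros and the other entries with difference `≤ d` do not change.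
If `x ∈ Cong p n m` then `‖x a b‖ ≤ p^(-m)`, so `el a b (-(x a b)) ∈ Cong p n m` and the invariant persists.
For TARGET 1 use bad = positions `(a, b)` with `a < b` and `w b < w a`, `H = NU p 1 ⊓ NL p w`: an
element of `NL p w` with zeros at the bad positions is in `NL p 1`.
For TARGET 2 use the permutation `1` in place of `w`, bad = positions `(a, b)` with `b < a` and
`w a < w b`, `H = NL p 1 ⊓ NU p w`. -/
theorem peel_low (w : Equiv.Perm (Fin n)) (x : SLn p n) (hx : x ∈ NL p w) :
    ∃ h ∈ NU p (1 : Equiv.Perm (Fin n)) ⊓ NL p w,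
      ∃ y ∈ NL p (1 : Equiv.Perm (Fin n)) ⊓ NL p w,
        x = h * y ∧ ∀ m, x ∈ Cong p n m → h ∈ Cong p n m ∧ y ∈ Cong p n m := by
  classical
  obtain ⟨h, hh, y, hy, hy0, hxy, hc⟩ := Peel.peel p w (NU p (1 : Equiv.Perm (Fin n)) ⊓ NL p w)
    (Finset.univ.filter (fun q : Fin n × Fin n => q.1 < q.2 ∧ w q.2 < w q.1))
    (fun q hq => (Finset.mem_filter.1 hq).2.2)
    (fun q hq h c => ⟨Peel.el_mem_NU p 1 _ _ h c (Finset.mem_filter.1 hq).2.1,
      Peel.el_mem_NL p w _ _ h c (Finset.mem_filter.1 hq).2.2⟩) _ _ rfl (Finset.Subset.refl _)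
    (fun _ _ q' hq' _ => hq') x hx (fun q hq hq' => absurd hq hq')
  refine ⟨h, hh, y, ⟨?_, hy⟩, hxy, hc⟩
  have hy' := (Peel.mem_NL p w y).1 hy
  refine (Peel.mem_NL p 1 y).2 ⟨fun a b hab => ?_, hy'.2⟩
  have hab' : a < b := hab
  rcases lt_trichotomy (w a) (w b) with h1 | h1 | h1
  · exact hy'.1 a b h1
  · exact absurd (w.injective h1) hab'.ne
  · exact hy0 (a, b) (Finset.mem_filter.2 ⟨Finset.mem_univ _, hab', h1⟩)

/-- TARGET 2. -/
theorem peel_st (w : Equiv.Perm (Fin n)) (x : SLn p n)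
    (hx : x ∈ NL p (1 : Equiv.Perm (Fin n))) :
    ∃ s ∈ NL p (1 : Equiv.Perm (Fin n)) ⊓ NU p w,
      ∃ y ∈ NL p (1 : Equiv.Perm (Fin n)) ⊓ NL p w, x = s * y := by
  classical
  obtain ⟨h, hh, y, hy, hy0, hxy, hc⟩ := Peel.peel p (1 : Equiv.Perm (Fin n))
    (NL p (1 : Equiv.Perm (Fin n)) ⊓ NU p w)
    (Finset.univ.filter (fun q : Fin n × Fin n => q.2 < q.1 ∧ w q.1 < w q.2))
    (fun q hq => (Finset.mem_filter.1 hq).2.1)
    (fun q hq h c => ⟨Peel.el_mem_NL p 1 _ _ h c (Finset.mem_filter.1 hq).2.1,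
      Peel.el_mem_NU p w _ _ h c (Finset.mem_filter.1 hq).2.2⟩) _ _ rfl (Finset.Subset.refl _)
    (fun _ _ q' hq' _ => hq') x hx (fun q hq hq' => absurd hq hq')
  refine ⟨h, hh, y, ⟨hy, ?_⟩, hxy⟩
  have hy' := (Peel.mem_NL p 1 y).1 hy
  refine (Peel.mem_NL p w y).2 ⟨fun a b hab => ?_, hy'.2⟩
  rcases lt_trichotomy a b with h1 | h1 | h1
  · exact hy'.1 a b h1
  · subst h1; exact absurd hab (lt_irrefl _)
  · exact hy0 (a, b) (Finset.mem_filter.2 ⟨Finset.mem_univ _, h1, hab⟩)
end Pool.Agent.Helper911
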