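import Mathlib
import Pool.Agent.Helper911_SL.Defs2
import Pool.Agent.Helper911_SL.JA
import Pool.Agent.Helper911_SL.JC
import Pool.Agent.Helper911_SL.JE
import Pool.Agent.Helper911_SL.JF

set_option autoImplicit false
set_option linter.unusedSectionVars false
set_option maxHeartbeats 1000000

noncomputable section

open Matrix Topology Filter

namespace Pool.Agent.Helper911


variable (p : ℕ) [Fact p.Prime] {n : ℕ} [NeZero n]



/-! ======= TARGETS ======= -/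

/-- TARGET: the chart at `e_w` is open.

Proof. Let `g = b e_w n0 y0` with `n0 ∈ O1`, `y0 ∈ O2`. Put `v = e_w n0 y0 e_w⁻¹`, an element of
`NL p 1` (by `conj_wrep_NL`, as `n0`, `y0` are in `NL p w`). By continuity there is `m ≥ 1` such that:
for all `n1 y1` in `Cong p n m`: `n0 * n1 ∈ O1` and `y1 * y0 ∈ O2`. Choose `m' ≥ 1` such that
`(e_w n0)⁻¹ * Cong m' * (e_w n0) ⊆ Cong m` (conjugation by a fixed element is continuous, use `cong_small`/`cong_open`).
Claim: the neighbourhood `b * Cong m' * (e_w n0 y0)` of `g` lies in the set.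
(It is a neighbourhood since `Cong m'` is open and left and right multiplications are homeomorphisms.)
Take `c ∈ Cong m'`. By `iwahori`, `c = b1 * y1` with `b1 ∈ Up p 1` and
`y1 ∈ NL p 1 ⊓ Cong m'`. Then `x := (e_w n0)⁻¹ * y1 * (e_w n0)` is in `Cong m`, and in `NL p w`
(`e_w x e_w⁻¹ = (e_w n0 e_w⁻¹)⁻¹ y1 (e_w n0 e_w⁻¹)` is in `NL p 1`; use `conj_wrep_NL`).
By `peel_low`, `x = h * y` with `h ∈ NU p 1 ⊓ NL p w`, `y ∈ NL p 1 ⊓ NL p w`, both in `Cong m`.
So `c * (e_w n0 y0) = b1 * y1 * e_w n0 y0 = b1 * (e_w n0) * x * y0 = b1 * e_w * (n0 * h) * (y * y0)`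
with `n0 * h ∈ O1` and `y * y0 ∈ O2`. -/
theorem chart_open (w : Equiv.Perm (Fin n)) (O1 O2 : Set (SLn p n)) (h1 : IsOpen O1)
    (h2 : IsOpen O2) :
    IsOpen {g | ∃ b ∈ Up p (1 : Equiv.Perm (Fin n)),
      ∃ n' ∈ NU p (1 : Equiv.Perm (Fin n)) ⊓ NL p w,
      ∃ y ∈ NL p (1 : Equiv.Perm (Fin n)) ⊓ NL p w,
        n' ∈ O1 ∧ y ∈ O2 ∧ g = b * wrep p w * n' * y} := by
  rw [isOpen_iff_mem_nhds]
  rintro g ⟨b, hb, n0, hn0, y0, hy0, hO1, hO2, rfl⟩
  -- choose m
  have hU1 : {x : SLn p n | n0 * x ∈ O1} ∈ 𝓝 (1 : SLn p n) := by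
    have hc : ContinuousAt (fun x : SLn p n => n0 * x) 1 := (continuous_const_mul n0).continuousAt
    have := hc.preimage_mem_nhds (h1.mem_nhds (by simpa using hO1 : (fun x : SLn p n => n0 * x) 1 ∈ O1))
    exact this
  have hU2 : {x : SLn p n | x * y0 ∈ O2} ∈ 𝓝 (1 : SLn p n) := by
    have hc : ContinuousAt (fun x : SLn p n => x * y0) 1 := (continuous_mul_const y0).continuousAt
    have := hc.preimage_mem_nhds (h2.mem_nhds (by simpa using hO2 : (fun x : SLn p n => x * y0) 1 ∈ O2))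
    exact this
  obtain ⟨m, hm, hmU⟩ := cong_small p n _ (Filter.inter_mem hU1 hU2)
  set k : SLn p n := wrep p w * n0 with hk
  have hcm : ((Cong p n m : Set (SLn p n))) ∈ 𝓝 (1 : SLn p n) :=
    (cong_open p n m).mem_nhds (one_mem _)
  have hU3 : {x : SLn p n | k⁻¹ * x * k ∈ (Cong p n m : Set (SLn p n))} ∈ 𝓝 (1 : SLn p n) := by
    have hc : ContinuousAt (fun x : SLn p n => k⁻¹ * x * k) 1 :=
      ((continuous_mul_const k).comp (continuous_const_mul k⁻¹)).continuousAt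
    have h3 : k⁻¹ * 1 * k = (1 : SLn p n) := by simp
    have h4 : (Cong p n m : Set (SLn p n)) ∈ 𝓝 ((fun x : SLn p n => k⁻¹ * x * k) 1) := by
      show (Cong p n m : Set (SLn p n)) ∈ 𝓝 (k⁻¹ * 1 * k)
      rw [h3]; exact hcm
    exact hc.preimage_mem_nhds h4
  obtain ⟨m', hm', hmU'⟩ := cong_small p n _ hU3
  -- the neighbourhood
  have hnb : {g' : SLn p n | b⁻¹ * g' * (k * y0)⁻¹ ∈ (Cong p n m' : Set (SLn p n))}
      ∈ 𝓝 (b * wrep p w * n0 * y0) := by
    have hc : ContinuousAt (fun x : SLn p n => b⁻¹ * x * (k * y0)⁻¹) (b * wrep p w * n0 * y0) :=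
      ((continuous_mul_const (k * y0)⁻¹).comp (continuous_const_mul b⁻¹)).continuousAt
    have h3 : b⁻¹ * (b * wrep p w * n0 * y0) * (k * y0)⁻¹ = (1 : SLn p n) := by
      simp only [hk]; group
    have h4 : (Cong p n m' : Set (SLn p n)) ∈
        𝓝 ((fun x : SLn p n => b⁻¹ * x * (k * y0)⁻¹) (b * wrep p w * n0 * y0)) := by
      show (Cong p n m' : Set (SLn p n)) ∈ 𝓝 (b⁻¹ * (b * wrep p w * n0 * y0) * (k * y0)⁻¹)
      rw [h3]; exact (cong_open p n m').mem_nhds (one_mem _)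
    exact hc.preimage_mem_nhds h4
  refine Filter.mem_of_superset hnb ?_
  intro g' hg'
  obtain ⟨b1, hb1, _, y1, hy1, hy1c, hcy⟩ := iwahori p m' hm' _ hg'
  -- x
  have hx1 : k⁻¹ * y1 * k ∈ Cong p n m := hmU' hy1c
  have hx2 : k⁻¹ * y1 * k ∈ NL p w := by
    rw [← conj_wrep_NL]
    have e1 : wrep p w * (k⁻¹ * y1 * k) * (wrep p w)⁻¹
        = (wrep p w * n0 * (wrep p w)⁻¹)⁻¹ * y1 * (wrep p w * n0 * (wrep p w)⁻¹) := by
      simp only [hk]; group
    rw [e1]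
    have e2 : wrep p w * n0 * (wrep p w)⁻¹ ∈ NL p (1 : Equiv.Perm (Fin n)) := by
      rw [conj_wrep_NL]; exact hn0.2
    exact mul_mem (mul_mem (inv_mem e2) hy1) e2
  obtain ⟨h, hh, y, hy, hxe, hcg⟩ := peel_low p w _ hx2
  obtain ⟨hhc, hyc⟩ := hcg m hx1
  refine ⟨b * b1, mul_mem hb hb1, n0 * h, mul_mem hn0 hh, y * y0, mul_mem hy hy0, ?_, ?_, ?_⟩
  · exact (hmU hhc).1
  · exact (hmU hyc).2
  · have e3 : g' = b * (b⁻¹ * g' * (k * y0)⁻¹) * (k * y0) := by group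
    rw [e3, hcy]
    have e4 : y1 * k = k * (h * y) := by
      rw [← hxe]; group
    calc b * (b1 * y1) * (k * y0) = b * b1 * (y1 * k) * y0 := by group
      _ = b * b1 * (k * (h * y)) * y0 := by rw [e4]
      _ = b * b1 * wrep p w * (n0 * h) * (y * y0) := by simp only [hk]; group
end Pool.Agent.Helper911
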