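import Mathlib
import Pool.Agent.Helper911_SL.Defs2

set_option autoImplicit false
set_option linter.unusedSectionVars false
set_option maxHeartbeats 1000000

noncomputable section

open Matrix Topology Filter

namespace Pool.Agent.Helper911


variable (p : ℕ) [Fact p.Prime] {n : ℕ} [NeZero n]

/-! ======= TARGETS ======= -/

/-! `zel p n = diag (p^(2i-(n-1)))`; so `(zel^m * y * (zel^m)⁻¹) i j = p^(2m(i-j)) * y i j`
and `((zel^m)⁻¹ * y * zel^m) i j = p^(2m(j-i)) * y i j`. Prove these two entry formulas first (for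
a diagonal matrix the powers and the inverse are diagonal). Then everything is immediate. -/

omit [NeZero n] in
theorem zelAux_p_ne : (p : ℚ_[p]) ≠ 0 := by exact_mod_cast (Fact.out : p.Prime).ne_zero

omit [NeZero n] in
theorem zelAux_dg_mul (t u : Fin n → ℚ_[p]) (ht : ∏ i, t i = 1) (hu : ∏ i, u i = 1)
    (htu : ∏ i, (t i * u i) = 1) :
    dg p t ht * dg p u hu = dg p (fun i => t i * u i) htu := by
  apply Subtype.ext
  show Matrix.diagonal t * Matrix.diagonal u = Matrix.diagonal (fun i => t i * u i)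
  rw [Matrix.diagonal_mul_diagonal]

omit [NeZero n] in
theorem zelAux_dg_inv (t : Fin n → ℚ_[p]) (ht : ∏ i, t i = 1) (ht0 : ∀ i, t i ≠ 0)
    (hti : ∏ i, (t i)⁻¹ = 1) :
    (dg p t ht)⁻¹ = dg p (fun i => (t i)⁻¹) hti := by
  apply inv_eq_of_mul_eq_one_right
  rw [zelAux_dg_mul p t _ ht hti (by simp [ht0])]
  apply Subtype.ext
  show Matrix.diagonal (fun i => t i * (t i)⁻¹) = 1
  rw [← Matrix.diagonal_one]
  congr 1
  funext i
  exact mul_inv_cancel₀ (ht0 i)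

omit [NeZero n] in
theorem zelAux_dg_mul_apply (t : Fin n → ℚ_[p]) (ht : ∏ i, t i = 1) (y : SLn p n) (i j : Fin n) :
    (dg p t ht * y : SLn p n) i j = t i * y i j := by
  show ((Matrix.diagonal t * (y : Matrix (Fin n) (Fin n) ℚ_[p])) i j) = _
  rw [Matrix.diagonal_mul]

omit [NeZero n] in
theorem zelAux_mul_dg_apply (t : Fin n → ℚ_[p]) (ht : ∏ i, t i = 1) (y : SLn p n) (i j : Fin n) :
    (y * dg p t ht : SLn p n) i j = y i j * t j := by
  show (((y : Matrix (Fin n) (Fin n) ℚ_[p]) * Matrix.diagonal t) i j) = _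
  rw [Matrix.mul_diagonal]

omit [NeZero n] in
theorem zelAux_prod (k : ℤ) : ∏ i : Fin n, (p : ℚ_[p]) ^ (k * zexp i) = 1 := by
  have hp := zelAux_p_ne p
  have : ∀ s : Finset (Fin n), ∏ i ∈ s, (p : ℚ_[p]) ^ (k * zexp i)
      = (p : ℚ_[p]) ^ (∑ i ∈ s, k * zexp i) := by
    intro s
    induction s using Finset.cons_induction with
    | empty => simp
    | cons a s ha ih => rw [Finset.prod_cons, Finset.sum_cons, ih, zpow_add₀ hp]
  rw [this, ← Finset.mul_sum, zexp_sum, mul_zero, _root_.zpow_zero]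

omit [NeZero n] in
theorem zelAux_pow (m : ℕ) :
    (zel p n) ^ m = dg p (fun i => (p : ℚ_[p]) ^ ((m : ℤ) * zexp i)) (zelAux_prod p m) := by
  induction m with
  | zero =>
    apply Subtype.ext
    show (1 : Matrix (Fin n) (Fin n) ℚ_[p]) = Matrix.diagonal _
    rw [← Matrix.diagonal_one]
    congr 1
    funext i
    simp
  | succ m ih =>
    rw [pow_succ, ih]
    apply Subtype.ext
    show Matrix.diagonal (fun i => (p : ℚ_[p]) ^ ((m : ℤ) * zexp i)) *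
      Matrix.diagonal (fun i => (p : ℚ_[p]) ^ zexp i) = Matrix.diagonal _
    rw [Matrix.diagonal_mul_diagonal]
    congr 1
    funext i
    rw [← zpow_add₀ (zelAux_p_ne p)]
    congr 1
    push_cast
    ring

omit [NeZero n] in
theorem zelAux_pow_inv (m : ℕ) :
    ((zel p n) ^ m)⁻¹ = dg p (fun i => (p : ℚ_[p]) ^ ((-(m : ℤ)) * zexp i))
      (zelAux_prod p (-(m : ℤ))) := by
  rw [zelAux_pow]
  have h : ∏ i : Fin n, ((p : ℚ_[p]) ^ ((m : ℤ) * zexp i))⁻¹ = 1 := by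
    rw [Finset.prod_inv_distrib, zelAux_prod, inv_one]
  rw [zelAux_dg_inv p _ _ (fun i => zpow_ne_zero _ (zelAux_p_ne p)) h]
  apply Subtype.ext
  show Matrix.diagonal _ = Matrix.diagonal _
  congr 1
  funext i
  rw [← _root_.zpow_neg, neg_mul]

omit [NeZero n] in
theorem zelAux_conj (m : ℕ) (y : SLn p n) (i j : Fin n) :
    ((zel p n) ^ m * y * ((zel p n) ^ m)⁻¹ : SLn p n) i j
      = (p : ℚ_[p]) ^ (2 * (m : ℤ) * ((i : ℤ) - (j : ℤ))) * y i j := by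
  rw [zelAux_pow_inv, zelAux_mul_dg_apply, zelAux_pow, zelAux_dg_mul_apply,
    mul_right_comm, ← zpow_add₀ (zelAux_p_ne p)]
  congr 2
  unfold zexp
  ring

omit [NeZero n] in
theorem zelAux_conj_inv (m : ℕ) (y : SLn p n) (i j : Fin n) :
    (((zel p n) ^ m)⁻¹ * y * (zel p n) ^ m : SLn p n) i j
      = (p : ℚ_[p]) ^ (2 * (m : ℤ) * ((j : ℤ) - (i : ℤ))) * y i j := by
  rw [zelAux_pow_inv, zelAux_pow, zelAux_mul_dg_apply, zelAux_dg_mul_apply,
    mul_right_comm, ← zpow_add₀ (zelAux_p_ne p)]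
  congr 2
  unfold zexp
  ring

omit [NeZero n] in
theorem zelAux_gen (y y' : SLn p n) (M : ℕ) (c : ℤ) (k : Fin n → Fin n → ℤ)
    (hk : ∀ i j, y' i j = (p : ℚ_[p]) ^ (k i j) * y i j)
    (hd : ∀ i, y i i = 1 ∧ k i i = 0)
    (ho : ∀ i j, i ≠ j → y i j = 0 ∨ (M : ℤ) + c ≤ k i j)
    (hc : ∀ i j, i ≠ j → ‖y i j‖ ≤ (p : ℝ) ^ c) : y' ∈ Cong p n M := by
  have hp1 : (1 : ℝ) ≤ p := by exact_mod_cast (Fact.out : p.Prime).one_le
  have hp0 : (0 : ℝ) < p := by linarith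
  intro i j
  by_cases hij : i = j
  · subst hij
    rw [hk, (hd i).1, (hd i).2]
    simp only [_root_.zpow_zero, mul_one, Matrix.one_apply_eq, sub_self, norm_zero]
    exact (fact_pow_pos p _).le
  · rw [Matrix.one_apply_ne hij, sub_zero, hk]
    rcases ho i j hij with h | h
    · rw [h, mul_zero, norm_zero]
      exact (fact_pow_pos p _).le
    · rw [norm_mul, Padic.norm_p_zpow]
      calc (p : ℝ) ^ (-k i j) * ‖y i j‖ ≤ (p : ℝ) ^ (-k i j) * (p : ℝ) ^ c :=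
            mul_le_mul_of_nonneg_left (hc i j hij) (fact_pow_pos p _).le
        _ = (p : ℝ) ^ (-k i j + c) := (zpow_add₀ hp0.ne' _ _).symm
        _ ≤ (p : ℝ) ^ (-(M : ℤ)) := zpow_le_zpow_right₀ hp1 (by linarith)

omit [NeZero n] in
theorem zelAux_lower (y : SLn p n) (hy : y ∈ NL p (1 : Equiv.Perm (Fin n))) :
    (∀ i, y i i = 1) ∧ ∀ i j, i < j → y i j = 0 := by
  refine ⟨hy.2, fun i j hij => hy.1 i j ?_⟩
  show Fin.rev j < Fin.rev i
  exact Fin.rev_lt_rev.2 hij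

omit [NeZero n] in
theorem zelAux_upper (y : SLn p n) (hy : y ∈ NU p (1 : Equiv.Perm (Fin n))) :
    (∀ i, y i i = 1) ∧ ∀ i j, j < i → y i j = 0 :=
  ⟨hy.2, fun i j hij => hy.1 i j hij⟩

omit [NeZero n] in
theorem zelAux_bound (y : SLn p n) : ∃ c : ℕ, ∀ i j, ‖y i j‖ ≤ (p : ℝ) ^ (c : ℤ) := by
  have hp1 : (1 : ℝ) < p := by exact_mod_cast (Fact.out : p.Prime).one_lt
  obtain ⟨c, hc⟩ := pow_unbounded_of_one_lt (∑ i, ∑ j, ‖y i j‖) hp1
  refine ⟨c, fun i j => ?_⟩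
  rw [_root_.zpow_natCast]
  refine le_trans ?_ hc.le
  refine (Finset.single_le_sum (f := fun j => ‖y i j‖) (fun _ _ => norm_nonneg _)
    (Finset.mem_univ j)).trans ?_
  exact Finset.single_le_sum (f := fun i => ∑ j, ‖y i j‖)
    (fun _ _ => Finset.sum_nonneg fun _ _ => norm_nonneg _) (Finset.mem_univ i)

omit [NeZero n] in
theorem zelAux_off (y : SLn p n) (m : ℕ) (h : y ∈ Cong p n m) (i j : Fin n) (hij : i ≠ j) :
    ‖y i j‖ ≤ (p : ℝ) ^ (-(m : ℤ)) := by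
  have h1 := h i j
  rwa [Matrix.one_apply_ne hij, sub_zero] at h1

omit [NeZero n] in
theorem zelAux_ho (y : SLn p n) (hy : ∀ i j : Fin n, i < j → y i j = 0) (M m : ℕ) (c : ℤ)
    (hM : (M : ℤ) + c ≤ 2 * (m : ℤ)) (i j : Fin n) (hij : i ≠ j) :
    y i j = 0 ∨ (M : ℤ) + c ≤ 2 * (m : ℤ) * ((i : ℤ) - (j : ℤ)) := by
  rcases lt_or_gt_of_ne hij with h | h
  · exact Or.inl (hy i j h)
  · right
    have h1 : (1 : ℤ) ≤ (i : ℤ) - (j : ℤ) := by
      have : (j : ℕ) < (i : ℕ) := h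
      omega
    have h2 : 2 * (m : ℤ) * 1 ≤ 2 * (m : ℤ) * ((i : ℤ) - (j : ℤ)) :=
      mul_le_mul_of_nonneg_left h1 (by positivity)
    linarith

omit [NeZero n] in
theorem zelAux_ho' (y : SLn p n) (hy : ∀ i j : Fin n, j < i → y i j = 0) (M m : ℕ) (c : ℤ)
    (hM : (M : ℤ) + c ≤ 2 * (m : ℤ)) (i j : Fin n) (hij : i ≠ j) :
    y i j = 0 ∨ (M : ℤ) + c ≤ 2 * (m : ℤ) * ((j : ℤ) - (i : ℤ)) := by
  rcases lt_or_gt_of_ne hij with h | h
  · right
    have h1 : (1 : ℤ) ≤ (j : ℤ) - (i : ℤ) := by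
      have : (i : ℕ) < (j : ℕ) := h
      omega
    have h2 : 2 * (m : ℤ) * 1 ≤ 2 * (m : ℤ) * ((j : ℤ) - (i : ℤ)) :=
      mul_le_mul_of_nonneg_left h1 (by positivity)
    linarith
  · exact Or.inl (hy i j h)

/-- TARGET 1. -/
theorem shrink_Nb (y : SLn p n) (hy : y ∈ NL p (1 : Equiv.Perm (Fin n))) (m : ℕ)
    (h : y ∈ Cong p n m) : zel p n * y * (zel p n)⁻¹ ∈ Cong p n m := by
  obtain ⟨h1, h2⟩ := zelAux_lower p y hy
  refine zelAux_gen p y _ m (-(m : ℤ)) (fun i j => 2 * ((1 : ℕ) : ℤ) * ((i : ℤ) - (j : ℤ)))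
    (fun i j => ?_) (fun i => ⟨h1 i, by ring⟩) (fun i j hij => ?_)
    (fun i j hij => zelAux_off p y m h i j hij)
  · have := zelAux_conj p 1 y i j
    rwa [pow_one] at this
  · exact zelAux_ho p y h2 m 1 (-(m : ℤ)) (by push_cast; linarith) i j hij

/-- TARGET 2. -/
theorem absorb_Nb (y : SLn p n) (hy : y ∈ NL p (1 : Equiv.Perm (Fin n))) (M : ℕ) : ∃ m : ℕ,
    (zel p n) ^ m * y * ((zel p n) ^ m)⁻¹ ∈ Cong p n M := by
  obtain ⟨h1, h2⟩ := zelAux_lower p y hy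
  obtain ⟨c, hc⟩ := zelAux_bound p y
  refine ⟨M + c, zelAux_gen p y _ M c
    (fun i j => 2 * ((M + c : ℕ) : ℤ) * ((i : ℤ) - (j : ℤ)))
    (fun i j => zelAux_conj p (M + c) y i j) (fun i => ⟨h1 i, by ring⟩)
    (fun i j hij => zelAux_ho p y h2 M (M + c) c (by push_cast; omega) i j hij)
    (fun i j _ => hc i j)⟩

/-- TARGET 3. -/
theorem unif_Nb (M : ℕ) : ∃ m : ℕ, ∀ y ∈ NL p (1 : Equiv.Perm (Fin n)), y ∈ Cong p n 0 →
    (zel p n) ^ m * y * ((zel p n) ^ m)⁻¹ ∈ Cong p n M := by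
  refine ⟨M, fun y hy h => ?_⟩
  obtain ⟨h1, h2⟩ := zelAux_lower p y hy
  refine zelAux_gen p y _ M 0 (fun i j => 2 * ((M : ℕ) : ℤ) * ((i : ℤ) - (j : ℤ)))
    (fun i j => zelAux_conj p M y i j) (fun i => ⟨h1 i, by ring⟩)
    (fun i j hij => zelAux_ho p y h2 M M 0 (by omega) i j hij) (fun i j hij => ?_)
  have := zelAux_off p y 0 h i j hij
  simpa using this

/-- TARGET 4. -/
theorem shrink_N (y : SLn p n) (hy : y ∈ NU p (1 : Equiv.Perm (Fin n))) (m : ℕ)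
    (h : y ∈ Cong p n m) : (zel p n)⁻¹ * y * (zel p n) ∈ Cong p n m := by
  obtain ⟨h1, h2⟩ := zelAux_upper p y hy
  refine zelAux_gen p y _ m (-(m : ℤ)) (fun i j => 2 * ((1 : ℕ) : ℤ) * ((j : ℤ) - (i : ℤ)))
    (fun i j => ?_) (fun i => ⟨h1 i, by ring⟩) (fun i j hij => ?_)
    (fun i j hij => zelAux_off p y m h i j hij)
  · have := zelAux_conj_inv p 1 y i j
    rwa [pow_one] at this
  · exact zelAux_ho' p y h2 m 1 (-(m : ℤ)) (by push_cast; linarith) i j hij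

/-- TARGET 5. -/
theorem absorb_N (y : SLn p n) (hy : y ∈ NU p (1 : Equiv.Perm (Fin n))) (M : ℕ) : ∃ m : ℕ,
    ((zel p n) ^ m)⁻¹ * y * (zel p n) ^ m ∈ Cong p n M := by
  obtain ⟨h1, h2⟩ := zelAux_upper p y hy
  obtain ⟨c, hc⟩ := zelAux_bound p y
  refine ⟨M + c, zelAux_gen p y _ M c
    (fun i j => 2 * ((M + c : ℕ) : ℤ) * ((j : ℤ) - (i : ℤ)))
    (fun i j => zelAux_conj_inv p (M + c) y i j) (fun i => ⟨h1 i, by ring⟩)
    (fun i j hij => zelAux_ho' p y h2 M (M + c) c (by push_cast; omega) i j hij)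
    (fun i j _ => hc i j)⟩

/-- TARGET 6. -/
theorem unif_N (M : ℕ) : ∃ m : ℕ, ∀ y ∈ NU p (1 : Equiv.Perm (Fin n)), y ∈ Cong p n 0 →
    ((zel p n) ^ m)⁻¹ * y * (zel p n) ^ m ∈ Cong p n M := by
  refine ⟨M, fun y hy h => ?_⟩
  obtain ⟨h1, h2⟩ := zelAux_upper p y hy
  refine zelAux_gen p y _ M 0 (fun i j => 2 * ((M : ℕ) : ℤ) * ((j : ℤ) - (i : ℤ)))
    (fun i j => zelAux_conj_inv p M y i j) (fun i => ⟨h1 i, by ring⟩)
    (fun i j hij => zelAux_ho' p y h2 M M 0 (by omega) i j hij) (fun i j hij => ?_)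
  have := zelAux_off p y 0 h i j hij
  simpa using this
end Pool.Agent.Helper911
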