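import Mathlib
import Pool.Agent.Helper911_SL.Defs2

set_option autoImplicit false
set_option linter.unusedSectionVars false
set_option maxHeartbeats 1000000

noncomputable section

open Matrix Topology Filter

namespace Pool.Agent.Helper911


variable (p : ℕ) [Fact p.Prime] {n : ℕ} [NeZero n]

/-! ======= TARGETS ======= -/

theorem nu_nilp (s : Equiv.Perm (Fin n)) (y : SLn p n) (hy : y ∈ NU p s) (r : ℕ) :
    ∀ i j : Fin n, (s j : ℕ) < s i + r →
      (((y : Matrix (Fin n) (Fin n) ℚ_[p]) - 1) ^ r) i j = 0 := by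
  induction r with
  | zero =>
    intro i j h
    have hij : i ≠ j := by
      rintro rfl
      omega
    rw [pow_zero, Matrix.one_apply_ne hij]
  | succ r ih =>
    intro i j h
    rw [pow_succ, Matrix.mul_apply]
    refine Finset.sum_eq_zero fun k _ => ?_
    by_cases hk : (s k : ℕ) < s i + r
    · rw [ih i k hk, zero_mul]
    · have h1 : (s j : ℕ) ≤ s k := by omega
      rcases h1.lt_or_eq with h2 | h2
      · have hkj : k ≠ j := by
          rintro rfl
          omega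
        have h3 : (y : Matrix (Fin n) (Fin n) ℚ_[p]) k j = 0 := hy.1 k j (Fin.lt_def.2 h2)
        rw [Matrix.sub_apply, Matrix.one_apply_ne hkj, h3, sub_zero, mul_zero]
      · have hkj : j = k := s.injective (Fin.ext h2)
        have h3 : (y : Matrix (Fin n) (Fin n) ℚ_[p]) k k = 1 := hy.2 k
        rw [hkj, Matrix.sub_apply, Matrix.one_apply_eq, h3, sub_self, mul_zero]

theorem nu_pow (s : Equiv.Perm (Fin n)) (y : SLn p n) (hy : y ∈ NU p s) (N : ℕ) :
    ((y ^ N : SLn p n) : Matrix (Fin n) (Fin n) ℚ_[p]) =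
      ∑ m ∈ Finset.range n, (N.choose m : ℚ_[p]) •
        ((y : Matrix (Fin n) (Fin n) ℚ_[p]) - 1) ^ m := by
  have hz : ∀ m, n ≤ m → ((y : Matrix (Fin n) (Fin n) ℚ_[p]) - 1) ^ m = 0 := by
    intro m hm
    ext i j
    rw [nu_nilp p s y hy m i j (by omega)]
    rfl
  have h1 : (y : Matrix (Fin n) (Fin n) ℚ_[p]) = ((y : Matrix (Fin n) (Fin n) ℚ_[p]) - 1) + 1 := by
    abel
  rw [Matrix.SpecialLinearGroup.coe_pow]
  conv_lhs => rw [h1, (Commute.one_right _).add_pow]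
  have h2 : ∀ m, ((y : Matrix (Fin n) (Fin n) ℚ_[p]) - 1) ^ m * 1 ^ (N - m) * (N.choose m : Matrix (Fin n) (Fin n) ℚ_[p]) = (N.choose m : ℚ_[p]) •
        ((y : Matrix (Fin n) (Fin n) ℚ_[p]) - 1) ^ m := by
    intro m
    rw [one_pow, mul_one, ← nsmul_eq_mul', Nat.cast_smul_eq_nsmul]
  simp only [h2]
  have h3 : ∀ a b : ℕ, a ≤ b → (∀ m, a ≤ m → (N.choose m : ℚ_[p]) •
        ((y : Matrix (Fin n) (Fin n) ℚ_[p]) - 1) ^ m = 0) →
      ∑ m ∈ Finset.range a, (N.choose m : ℚ_[p]) •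
        ((y : Matrix (Fin n) (Fin n) ℚ_[p]) - 1) ^ m =
      ∑ m ∈ Finset.range b, (N.choose m : ℚ_[p]) •
        ((y : Matrix (Fin n) (Fin n) ℚ_[p]) - 1) ^ m := by
    intro a b hab h0
    refine Finset.sum_subset (Finset.range_mono hab) fun m _ hm => h0 m ?_
    rw [Finset.mem_range, not_lt] at hm
    exact hm
  rw [h3 (N + 1) (max (N + 1) n) (le_max_left _ _) (fun m hm => by
      rw [Nat.choose_eq_zero_of_lt (by omega), Nat.cast_zero, zero_smul]),
    h3 n (max (N + 1) n) (le_max_right _ _) (fun m hm => by rw [hz m hm, smul_zero])]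

theorem choose_tendsto (m : ℕ) :
    Tendsto (fun k : ℕ => ((p ^ k).choose m : ℚ_[p])) atTop (𝓝 (if m = 0 then 1 else 0)) := by
  rcases m with _ | m
  · simp only [Nat.choose_zero_right, Nat.cast_one, if_true]
    exact tendsto_const_nhds
  · rw [if_neg (Nat.succ_ne_zero m)]
    have hm : ((m + 1 : ℕ) : ℚ_[p]) ≠ 0 := by exact_mod_cast Nat.succ_ne_zero m
    have hm' : 0 < ‖((m + 1 : ℕ) : ℚ_[p])‖ := norm_pos_iff.2 hm
    have hb : ∀ k : ℕ, ‖((p ^ k).choose (m + 1) : ℚ_[p])‖ ≤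
        ‖(p : ℚ_[p])‖ ^ k * (‖((m + 1 : ℕ) : ℚ_[p])‖)⁻¹ := by
      intro k
      obtain ⟨N, hN⟩ : ∃ N, p ^ k = N + 1 :=
        ⟨p ^ k - 1, (Nat.sub_add_cancel (Nat.pow_pos (Fact.out : p.Prime).pos)).symm⟩
      have h1 := Nat.add_one_mul_choose_eq N m
      rw [← hN] at h1
      have h2 : (p : ℚ_[p]) ^ k * (N.choose m : ℚ_[p]) =
          ((p ^ k).choose (m + 1) : ℚ_[p]) * ((m + 1 : ℕ) : ℚ_[p]) := by
        exact_mod_cast congrArg (Nat.cast (R := ℚ_[p])) h1
      have h3 : ‖(N.choose m : ℚ_[p])‖ ≤ 1 := by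
        exact_mod_cast Padic.norm_int_le_one (p := p) (N.choose m : ℤ)
      have h4 := congrArg norm h2
      rw [norm_mul, norm_mul, norm_pow] at h4
      rw [← div_eq_mul_inv, le_div_iff₀ hm', ← h4]
      exact mul_le_of_le_one_right (pow_nonneg (norm_nonneg _) _) h3
    rw [tendsto_zero_iff_norm_tendsto_zero]
    refine squeeze_zero (fun _ => norm_nonneg _) hb ?_
    have h5 := (tendsto_pow_atTop_nhds_zero_of_lt_one (norm_nonneg (p : ℚ_[p]))
      (Padic.norm_p_lt_one (p := p))).mul_const (‖((m + 1 : ℕ) : ℚ_[p])‖)⁻¹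
    rwa [zero_mul] at h5

/-- TARGET: `y^(p^k) → 1` for unipotent `y`.

Proof. `y = 1 + Y` with `Y` nilpotent (`Y i j ≠ 0` only if `s i < s j`, so `Y^n = 0`; by induction on
`r`, `(Y^r) i j ≠ 0` only if `s i + r ≤ s j`). By the binomial theorem for commuting matrices (`Commute.add_pow`),
`y^(p^k) - 1 = ∑ 1 ≤ i < n, choose (p^k) i • Y^i` (for `i ≥ n` the terms vanish). For fixed `i ≥ 1`,
`i * choose (p^k) i = p^k * choose (p^k - 1) (i - 1)`, so
`‖choose (p^k) i‖ ≤ ‖p^k‖ / ‖i‖ → 0`. So each entry of `y^(p^k)` tends to that of `1`. The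
topology on `SLn` is the subspace topology of matrices (`Matrix.SpecialLinearGroup.isClosedEmbedding_val`,
or `Topology.IsInducing.subtypeVal`), and matrices converge iff all entries do (`tendsto_pi_nhds`). -/
theorem prop_unip (s : Equiv.Perm (Fin n)) (y : SLn p n) (hy : y ∈ NU p s) :
    Tendsto (fun k : ℕ => y ^ (p ^ k)) atTop (𝓝 1) := by
  have hind : Topology.IsInducing
      (fun g : SLn p n => (g : Matrix (Fin n) (Fin n) ℚ_[p])) := ⟨rfl⟩
  rw [hind.tendsto_nhds_iff]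
  have h1 : ((fun g : SLn p n => (g : Matrix (Fin n) (Fin n) ℚ_[p])) ∘
      fun k : ℕ => y ^ (p ^ k)) = fun k : ℕ =>
      ∑ m ∈ Finset.range n, ((p ^ k).choose m : ℚ_[p]) •
        ((y : Matrix (Fin n) (Fin n) ℚ_[p]) - 1) ^ m := by
    funext k
    exact nu_pow p s y hy (p ^ k)
  have h2 : (((1 : SLn p n) : Matrix (Fin n) (Fin n) ℚ_[p])) = ∑ m ∈ Finset.range n,
      (if m = 0 then (1 : ℚ_[p]) else 0) • ((y : Matrix (Fin n) (Fin n) ℚ_[p]) - 1) ^ m := by
    rw [Finset.sum_eq_single 0]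
    · rw [if_pos rfl, one_smul, pow_zero]
      rfl
    · intro m _ hm
      rw [if_neg hm, zero_smul]
    · intro h
      exact absurd (Finset.mem_range.2 (Nat.pos_of_ne_zero (NeZero.ne n))) h
  rw [h1]
  change Tendsto _ atTop (𝓝 ((1 : SLn p n) : Matrix (Fin n) (Fin n) ℚ_[p]))
  rw [h2]
  exact tendsto_finsetSum _ fun m _ => (choose_tendsto p m).smul_const _
end Pool.Agent.Helper911
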