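import Mathlib
import Pool.Agent.Helper911_SL.Defs2
import Pool.Agent.Helper911_SL.JA

set_option autoImplicit false
set_option linter.unusedSectionVars false
set_option maxHeartbeats 1000000

noncomputable section

open Matrix Topology Filter

namespace Pool.Agent.Helper911


variable (p : ℕ) [Fact p.Prime] {n : ℕ} [NeZero n]



/-! ======= AUXILIARY LEMMAS ======= -/

theorem torus_decomp_pow_sub_one {c : ℚ_[p]} (hc : ‖c‖ = 1) (s : ℕ) : ‖c ^ s - 1‖ ≤ ‖c - 1‖ := by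
  induction s with
  | zero => simp
  | succ s ih =>
    have h : c ^ (s+1) - 1 = c * (c ^ s - 1) + (c - 1) := by ring
    rw [h]
    refine (IsUltrametricDist.norm_add_le_max _ _).trans (max_le ?_ le_rfl)
    rw [norm_mul, hc, one_mul]; exact ih

theorem torus_decomp_ball_iff {c x a : ℚ_[p]} {ρ : ℝ} (hc : ‖c‖ = 1) (hca : ‖c - 1‖ * ‖a‖ ≤ ρ) :
    ‖c * x - a‖ ≤ ρ ↔ ‖x - a‖ ≤ ρ := by
  constructor
  · intro h
    have h1 : ‖c * (x - a)‖ ≤ ρ := by
      have h2 : c * (x - a) = (c * x - a) - (c - 1) * a := by ring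
      rw [h2, sub_eq_add_neg]
      refine (IsUltrametricDist.norm_add_le_max _ _).trans (max_le h ?_)
      rw [norm_neg, norm_mul]; exact hca
    rwa [norm_mul, hc, one_mul] at h1
  · intro h
    have h2 : c * x - a = c * (x - a) + (c - 1) * a := by ring
    rw [h2]
    refine (IsUltrametricDist.norm_add_le_max _ _).trans (max_le ?_ ?_)
    · rw [norm_mul, hc, one_mul]; exact h
    · rw [norm_mul]; exact hca

theorem torus_decomp_pow_sq {q : ℚ_[p]} (hq : ‖q - 1‖ < 1) (s : ℕ) :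
    ‖q ^ s - 1 - s * (q - 1)‖ ≤ ‖q - 1‖ ^ 2 := by
  have hq1 : ‖q‖ ≤ 1 := by
    have : q = (q - 1) + 1 := by ring
    rw [this]
    refine (IsUltrametricDist.norm_add_le_max _ _).trans (max_le hq.le (by simp))
  induction s with
  | zero => simp
  | succ s ih =>
    have h : q ^ (s+1) - 1 - ((s+1 : ℕ) : ℚ_[p]) * (q - 1)
        = q * (q ^ s - 1 - s * (q - 1)) + s * ((q - 1) * (q - 1)) := by
      push_cast; ring
    rw [h]
    refine (IsUltrametricDist.norm_add_le_max _ _).trans (max_le ?_ ?_)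
    · rw [norm_mul]
      calc _ ≤ 1 * ‖q - 1‖ ^ 2 := mul_le_mul hq1 ih (norm_nonneg _) zero_le_one
        _ = _ := one_mul _
    · rw [norm_mul, norm_mul, ← pow_two]
      have : ‖(s : ℚ_[p])‖ ≤ 1 := by
        simpa using Padic.norm_int_le_one (p := p) (s : ℤ)
      calc _ ≤ 1 * ‖q - 1‖ ^ 2 := mul_le_mul_of_nonneg_right this (by positivity)
        _ = _ := one_mul _

theorem torus_decomp_digit {z : ℚ_[p]} (hz : ‖z‖ ≤ 1) : ∃! s : Fin p, ‖z + (s : ℕ)‖ < 1 := by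
  obtain ⟨y, hy⟩ : ∃ y : ℤ_[p], (y : ℚ_[p]) = z := ⟨⟨z, hz⟩, rfl⟩
  obtain ⟨m, ⟨hm1, hm2⟩, hm3⟩ := PadicInt.existsUnique_mem_range (-y)
  have key : ∀ k : ℕ, (-y - (k : ℤ_[p]) : ℤ_[p]) ∈ IsLocalRing.maximalIdeal ℤ_[p] ↔
      ‖z + (k : ℕ)‖ < 1 := by
    intro k
    rw [IsLocalRing.mem_maximalIdeal, PadicInt.mem_nonunits, PadicInt.norm_def]
    have : ((-y - (k : ℤ_[p]) : ℤ_[p]) : ℚ_[p]) = -(z + k) := by
      push_cast
      rw [hy]
      ring
    rw [this, norm_neg]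
  refine ⟨⟨m, hm1⟩, (key m).1 hm2, ?_⟩
  rintro ⟨k, hk⟩ hk2
  have := hm3 k ⟨hk, (key k).2 hk2⟩
  exact Fin.ext this

theorem torus_decomp_exu {q x a : ℚ_[p]} {ρ : ℝ} (hρ : 0 < ρ) (hq : ‖q - 1‖ < 1)
    (hqa : ‖q - 1‖ * ‖a‖ = ρ) (hx : ‖x - a‖ ≤ ρ) :
    ∃! s : Fin p, ‖q ^ (s : ℕ) * x - a‖ < ρ := by
  have hne : (q - 1) * a ≠ 0 := by
    intro h
    rw [← norm_eq_zero, norm_mul, hqa] at h
    exact hρ.ne' h
  have hq1 : ‖q‖ = 1 := by
    have h1 : ‖q - 1‖ < ‖(1 : ℚ_[p])‖ := by simpa using hq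
    have h2 : q = (q - 1) + 1 := by ring
    rw [h2, IsUltrametricDist.norm_add_eq_max_of_norm_ne_norm h1.ne, max_eq_right h1.le, norm_one]
  set z : ℚ_[p] := (x - a) / ((q - 1) * a) with hz
  have hz1 : ‖z‖ ≤ 1 := by
    rw [hz, norm_div, norm_mul, hqa]
    exact (div_le_one hρ).2 hx
  have hzx : x - a = (q - 1) * a * z := by rw [hz, mul_div_cancel₀ _ hne]
  have key : ∀ s : ℕ, ‖q ^ s * x - a‖ < ρ ↔ ‖z + s‖ < 1 := by
    intro s
    have e1 : q ^ s * x - a = ((q - 1) * a) * (z + s) +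
        ((q ^ s - 1) * (x - a) + (q ^ s - 1 - s * (q - 1)) * a) := by
      have : x = a + (q - 1) * a * z := by rw [← hzx]; ring
      rw [this]; ring
    have e2 : ‖(q ^ s - 1) * (x - a) + (q ^ s - 1 - s * (q - 1)) * a‖ < ρ := by
      refine (IsUltrametricDist.norm_add_le_max _ _).trans_lt (max_lt ?_ ?_)
      · rw [norm_mul]
        calc _ ≤ ‖q - 1‖ * ρ := mul_le_mul (torus_decomp_pow_sub_one p hq1 s) hx (norm_nonneg _) (norm_nonneg _)
          _ < 1 * ρ := mul_lt_mul_of_pos_right hq hρ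
          _ = ρ := one_mul _
      · rw [norm_mul]
        calc _ ≤ ‖q - 1‖ ^ 2 * ‖a‖ := mul_le_mul_of_nonneg_right (torus_decomp_pow_sq p hq s) (norm_nonneg _)
          _ = ‖q - 1‖ * (‖q - 1‖ * ‖a‖) := by ring
          _ = ‖q - 1‖ * ρ := by rw [hqa]
          _ < 1 * ρ := mul_lt_mul_of_pos_right hq hρ
          _ = ρ := one_mul _
    have e3 : ‖((q - 1) * a) * (z + s)‖ = ρ * ‖z + s‖ := by rw [norm_mul, norm_mul, hqa]
    constructor
    · intro h
      have : ‖((q - 1) * a) * (z + s)‖ < ρ := by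
        have e4 : ((q - 1) * a) * (z + s) = (q ^ s * x - a) -
          ((q ^ s - 1) * (x - a) + (q ^ s - 1 - s * (q - 1)) * a) := by rw [e1]; ring
        rw [e4, sub_eq_add_neg]
        refine (IsUltrametricDist.norm_add_le_max _ _).trans_lt (max_lt h ?_)
        rw [norm_neg]; exact e2
      rw [e3] at this
      by_contra hc
      push Not at hc
      nlinarith
    · intro h
      rw [e1]
      refine (IsUltrametricDist.norm_add_le_max _ _).trans_lt (max_lt ?_ e2)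
      rw [e3]
      nlinarith
  obtain ⟨s, hs1, hs2⟩ := torus_decomp_digit p hz1
  exact ⟨s, (key s).2 hs1, fun t ht => hs2 t ((key t).1 ht)⟩

theorem torus_decomp_norm_two : (p : ℝ)⁻¹ ≤ ‖(2 : ℚ_[p])‖ := by
  have h2 : (2 : ℚ_[p]) = ((2 : ℤ) : ℚ_[p]) := by norm_num
  by_cases h : ‖(2 : ℚ_[p])‖ < 1
  · rw [h2, Padic.norm_intCast_lt_one_iff] at h
    have h3 : p ∣ 2 := by exact_mod_cast h
    have h4 : p = 2 := (Nat.prime_dvd_prime_iff_eq Fact.out Nat.prime_two).1 h3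
    subst h4
    have := Padic.norm_p (p := 2)
    rw [show (2 : ℚ_[2]) = ((2 : ℕ) : ℚ_[2]) by norm_num, this]
  · push Not at h
    have h1 : (1 : ℝ) ≤ p := by exact_mod_cast (Fact.out : p.Prime).one_le
    exact (inv_le_one_of_one_le₀ h1).trans h

theorem torus_decomp_norm_eq_one {u : ℚ_[p]} (hu : ‖u - 1‖ < 1) : ‖u‖ = 1 := by
  have h1 : ‖u - 1‖ < ‖(1 : ℚ_[p])‖ := by simpa using hu
  have h2 : u = (u - 1) + 1 := by ring
  rw [h2, IsUltrametricDist.norm_add_eq_max_of_norm_ne_norm h1.ne, max_eq_right h1.le, norm_one]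

theorem torus_decomp_norm_inv_sub {u : ℚ_[p]} (hu : ‖u‖ = 1) : ‖u⁻¹ - 1‖ = ‖u - 1‖ := by
  have hu0 : u ≠ 0 := by rintro rfl; simp at hu
  have h : u⁻¹ - 1 = - (u⁻¹ * (u - 1)) := by field_simp; ring
  rw [h, norm_neg, norm_mul, norm_inv, hu, inv_one, one_mul]

omit [NeZero n] in
theorem torus_decomp_coroot (i k : Fin n) (u : ℚ_[p]ˣ) (hu : ‖(u : ℚ_[p]) - 1‖ < 1) (l : Fin n) :
    ‖corootFun p i k u l‖ = 1 ∧ ‖corootFun p i k u l - 1‖ ≤ ‖(u : ℚ_[p]) - 1‖ := by
  have h1 := torus_decomp_norm_eq_one p hu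
  unfold corootFun
  split_ifs
  · exact ⟨h1, le_rfl⟩
  · rw [Units.val_inv_eq_inv_val]
    refine ⟨by rw [norm_inv, h1, inv_one], ?_⟩
    rw [torus_decomp_norm_inv_sub p h1]
  · simp

omit [NeZero n] in
theorem torus_decomp_choice (m : ℕ) (a : SLn p n) (i j : Fin n) (hij : i ≠ j) (haji : a j i = 0)
    (hmax : ∀ k l, k ≠ l → ‖a k l‖ ≤ ‖a i j‖) (e : ℤ) (he : (m : ℤ) + 3 ≤ e) :
    ∃ (f : Fin n → ℚ_[p]) (_ : ∏ k, f k = 1), (∀ k, ‖f k‖ = 1) ∧
      (∀ k, ‖f k - 1‖ ≤ (p : ℝ) ^ (-(m : ℤ))) ∧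
      ‖(f i)⁻¹ * f j - 1‖ = (p : ℝ) ^ (-e) ∧
      (∀ k l, ‖(f k)⁻¹ * f l - 1‖ * ‖a k l‖ ≤ (p : ℝ) ^ (-e) * ‖a i j‖) := by
  have hp1 : (1 : ℝ) < p := by exact_mod_cast (Fact.out : p.Prime).one_lt
  have hp0 : (0 : ℝ) < p := by linarith
  by_cases hk : ∃ k, k ≠ i ∧ k ≠ j
  · obtain ⟨k, hki, hkj⟩ := hk
    set u : ℚ_[p] := 1 + (p : ℚ_[p]) ^ e with hu
    have hu1 : ‖u - 1‖ = (p : ℝ) ^ (-e) := by
      rw [hu, add_sub_cancel_left, Padic.norm_p_zpow]
    have hlt : (p : ℝ) ^ (-e) < 1 := by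
      refine zpow_lt_one_of_neg₀ hp1 ?_
      omega
    have hu2 : ‖u‖ = 1 := torus_decomp_norm_eq_one p (by rw [hu1]; exact hlt)
    have hu0 : u ≠ 0 := by rintro h; rw [h] at hu2; simp at hu2
    have hc := torus_decomp_coroot p i k (Units.mk0 u hu0) (by rw [Units.val_mk0, hu1]; exact hlt)
    simp only [Units.val_mk0] at hc
    rw [hu1] at hc
    refine ⟨corootFun p i k (Units.mk0 u hu0), corootFun_prod p i k hki.symm _, fun l => (hc l).1, ?_, ?_, ?_⟩
    · intro l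
      refine (hc l).2.trans ?_
      exact zpow_le_zpow_right₀ hp1.le (by omega)
    · have e1 : corootFun p i k (Units.mk0 u hu0) i = u := by simp [corootFun]
      have e2 : corootFun p i k (Units.mk0 u hu0) j = 1 := by
        simp [corootFun, hij.symm, hkj.symm]
      rw [e1, e2, mul_one, torus_decomp_norm_inv_sub p hu2, hu1]
    · intro k' l
      by_cases hkl : k' = l
      · subst hkl
        have h0 : corootFun p i k (Units.mk0 u hu0) k' ≠ 0 := by
          intro h; have := (hc k').1; rw [h] at this; simp at this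
        rw [inv_mul_cancel₀ h0, sub_self, norm_zero, zero_mul]
        positivity
      · refine mul_le_mul ?_ (hmax k' l hkl) (norm_nonneg _) (by positivity)
        set f := corootFun p i k (Units.mk0 u hu0) with hf
        have h0 : f k' ≠ 0 := by
          intro h; have := (hc k').1; rw [h] at this; simp at this
        have h1 : (f k')⁻¹ * f l - 1 = (f k')⁻¹ * ((f l - 1) + -(f k' - 1)) := by
          field_simp; ring
        rw [h1, norm_mul, norm_inv, (hc k').1, inv_one, one_mul]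
        refine (IsUltrametricDist.norm_add_le_max _ _).trans (max_le (hc l).2 ?_)
        rw [norm_neg]; exact (hc k').2
  · push Not at hk
    have h2pos : (0 : ℝ) < ‖(2 : ℚ_[p])‖ := by
      have := torus_decomp_norm_two p
      have h3 : (0 : ℝ) < (p : ℝ)⁻¹ := by positivity
      linarith
    have h20 : (2 : ℚ_[p]) ≠ 0 := norm_pos_iff.1 h2pos
    set η : ℚ_[p] := (p : ℚ_[p]) ^ e / 2 with hη
    have hη1 : ‖η‖ * ‖(2 : ℚ_[p])‖ = (p : ℝ) ^ (-e) := by
      rw [← norm_mul, hη, div_mul_cancel₀ _ h20, Padic.norm_p_zpow]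
    have hη2 : ‖η‖ ≤ (p : ℝ) ^ (1 - e) := by
      have h3 : ‖η‖ * (p : ℝ)⁻¹ ≤ (p : ℝ) ^ (-e) := by
        rw [← hη1]
        exact mul_le_mul_of_nonneg_left (torus_decomp_norm_two p) (norm_nonneg _)
      have h4 : (p : ℝ) ^ (1 - e) = (p : ℝ) * (p : ℝ) ^ (-e) := by
        rw [sub_eq_add_neg, zpow_add₀ hp0.ne', zpow_one]
      rw [h4]
      calc ‖η‖ = (p : ℝ) * (‖η‖ * (p : ℝ)⁻¹) := by field_simp
        _ ≤ _ := mul_le_mul_of_nonneg_left h3 hp0.le
    have hη3 : ‖η‖ < ‖(2 : ℚ_[p])‖ := by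
      refine lt_of_le_of_lt hη2 (lt_of_lt_of_le ?_ (torus_decomp_norm_two p))
      rw [← _root_.zpow_neg_one]
      exact zpow_lt_zpow_right₀ hp1 (by omega)
    have hη4 : ‖η‖ ≤ (p : ℝ) ^ (-(m : ℤ)) := hη2.trans (zpow_le_zpow_right₀ hp1.le (by omega))
    have hη5 : ‖η‖ < 1 := lt_of_le_of_lt hη2 (zpow_lt_one_of_neg₀ hp1 (by omega))
    set u : ℚ_[p] := 1 + η with hu
    have hu1 : ‖u - 1‖ = ‖η‖ := by rw [hu, add_sub_cancel_left]
    have hu2 : ‖u‖ = 1 := torus_decomp_norm_eq_one p (by rw [hu1]; exact hη5)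
    have hu0 : u ≠ 0 := by rintro h; rw [h] at hu2; simp at hu2
    have hc := torus_decomp_coroot p i j (Units.mk0 u hu0) (by rw [Units.val_mk0, hu1]; exact hη5)
    simp only [Units.val_mk0] at hc
    rw [hu1] at hc
    have e1 : corootFun p i j (Units.mk0 u hu0) i = u := by simp [corootFun]
    have e2 : corootFun p i j (Units.mk0 u hu0) j = u⁻¹ := by
      simp [corootFun, hij.symm]
    have hq : ‖(corootFun p i j (Units.mk0 u hu0) i)⁻¹ * corootFun p i j (Units.mk0 u hu0) j - 1‖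
        = (p : ℝ) ^ (-e) := by
      rw [e1, e2]
      have h3 : u⁻¹ * u⁻¹ - 1 = -(u⁻¹ * u⁻¹ * (η * (2 + η))) := by
        have : η = u - 1 := by rw [hu]; ring
        rw [this]
        field_simp
        ring
      rw [h3, norm_neg, norm_mul, norm_mul, norm_inv, hu2, norm_mul]
      have h4 : ‖2 + η‖ = ‖(2 : ℚ_[p])‖ := by
        rw [IsUltrametricDist.norm_add_eq_max_of_norm_ne_norm hη3.ne', max_eq_left hη3.le]
      rw [h4, hη1]
      norm_num
    refine ⟨corootFun p i j (Units.mk0 u hu0), corootFun_prod p i j hij _, fun l => (hc l).1,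
      fun l => (hc l).2.trans hη4, hq, ?_⟩
    intro k l
    by_cases hkl : k = l
    · subst hkl
      have h0 : corootFun p i j (Units.mk0 u hu0) k ≠ 0 := by
        intro h; have := (hc k).1; rw [h] at this; simp at this
      rw [inv_mul_cancel₀ h0, sub_self, norm_zero, zero_mul]
      positivity
    · by_cases hki : k = i
      · have hlj : l = j := hk l (by rintro rfl; exact hkl hki)
        subst hki; subst hlj
        exact (mul_le_mul_of_nonneg_right hq.le (norm_nonneg _))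
      · have hkj : k = j := hk k hki
        have hli : l = i := by
          by_contra h
          exact hkl (hkj.trans (hk l h).symm)
        subst hkj; subst hli
        rw [haji, norm_zero, mul_zero]
        positivity

omit [NeZero n] in
theorem torus_decomp_dg_mul (f : Fin n → ℚ_[p]) (hf : ∏ k, f k = 1) (x : SLn p n) (a b : Fin n) :
    (dg p f hf * x : SLn p n) a b = f a * x a b := by
  show ((dg p f hf : Matrix (Fin n) (Fin n) ℚ_[p]) * (x : Matrix (Fin n) (Fin n) ℚ_[p])) a b = _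
  show (Matrix.diagonal f * (x : Matrix (Fin n) (Fin n) ℚ_[p])) a b = _
  rw [Matrix.diagonal_mul]

omit [NeZero n] in
theorem torus_decomp_mul_dg (f : Fin n → ℚ_[p]) (hf : ∏ k, f k = 1) (x : SLn p n) (a b : Fin n) :
    (x * dg p f hf : SLn p n) a b = x a b * f b := by
  show ((x : Matrix (Fin n) (Fin n) ℚ_[p]) * Matrix.diagonal f) a b = _
  rw [Matrix.mul_diagonal]

omit [NeZero n] in
theorem torus_decomp_conj (f : Fin n → ℚ_[p]) (hf : ∏ k, f k = 1) (hne : ∀ k, f k ≠ 0)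
    (x : SLn p n) (a b : Fin n) :
    ((dg p f hf)⁻¹ * x * dg p f hf : SLn p n) a b = (f a)⁻¹ * f b * x a b := by
  have h1 : dg p f hf * ((dg p f hf)⁻¹ * x * dg p f hf) = x * dg p f hf := by group
  have h2 := congrArg (fun g : SLn p n => g a b) h1
  simp only [torus_decomp_dg_mul, torus_decomp_mul_dg] at h2
  have h3 := hne a
  rw [torus_decomp_mul_dg]
  field_simp
  linear_combination h2

omit [NeZero n] in
theorem torus_decomp_conj_pow (f : Fin n → ℚ_[p]) (hf : ∏ k, f k = 1) (hne : ∀ k, f k ≠ 0)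
    (s : ℕ) (x : SLn p n) (a b : Fin n) :
    (((dg p f hf) ^ s)⁻¹ * x * (dg p f hf) ^ s : SLn p n) a b = ((f a)⁻¹ * f b) ^ s * x a b := by
  induction s generalizing x with
  | zero => simp
  | succ s ih =>
    have h1 : ((dg p f hf) ^ (s+1))⁻¹ * x * (dg p f hf) ^ (s+1)
        = ((dg p f hf) ^ s)⁻¹ * ((dg p f hf)⁻¹ * x * dg p f hf) * (dg p f hf) ^ s := by
      rw [pow_succ']; group
    rw [h1, ih, torus_decomp_conj p f hf hne]
    ring

omit [NeZero n] in
theorem torus_decomp_NU (f : Fin n → ℚ_[p]) (hf : ∏ k, f k = 1) (hne : ∀ k, f k ≠ 0)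
    (s : ℕ) (v : Equiv.Perm (Fin n)) {x : SLn p n} (hx : x ∈ NU p v) :
    ((dg p f hf) ^ s)⁻¹ * x * (dg p f hf) ^ s ∈ NU p v := by
  refine ⟨fun i j hij => ?_, fun i => ?_⟩
  · rw [torus_decomp_conj_pow p f hf hne, hx.1 i j hij, mul_zero]
  · rw [torus_decomp_conj_pow p f hf hne, hx.2 i, inv_mul_cancel₀ (hne i), one_pow, one_mul]

omit [NeZero n] in
theorem torus_decomp_Tor (f : Fin n → ℚ_[p]) (hf : ∏ k, f k = 1) (s : ℕ) :
    (dg p f hf) ^ s ∈ Tor p n := by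
  refine pow_mem ?_ s
  refine ⟨fun i j hij => ?_, fun i j hij => ?_⟩
  · rw [dg_apply, if_neg]
    rintro rfl; exact lt_irrefl _ hij
  · rw [dg_apply, if_neg]
    rintro rfl; exact lt_irrefl _ hij

omit [NeZero n] in
theorem torus_decomp_Cong (f : Fin n → ℚ_[p]) (hf : ∏ k, f k = 1) (m : ℕ)
    (hm : ∀ k, ‖f k - 1‖ ≤ (p : ℝ) ^ (-(m : ℤ))) (s : ℕ) :
    (dg p f hf) ^ s ∈ Cong p n m := by
  refine pow_mem ?_ s
  intro i j
  rw [dg_apply, Matrix.one_apply]
  split_ifs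
  · exact hm i
  · rw [sub_zero, norm_zero]; exact (fact_pow_pos p _).le

/-- the ball of radius `ρ` around `a` in the subgroup `Q` -/
def torus_decomp_ball (Q : Subgroup (SLn p n)) (a : SLn p n) (ρ : ℝ) : Set (SLn p n) :=
  {x | x ∈ Q ∧ ∀ k l, ‖x k l - a k l‖ ≤ ρ}

omit [NeZero n] in
theorem torus_decomp_cont (k l : Fin n) : Continuous (fun x : SLn p n => x k l) := by
  have h : Continuous (fun x : SLn p n => (x : Matrix (Fin n) (Fin n) ℚ_[p])) := continuous_subtype_val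
  exact h.matrix_elem k l

omit [NeZero n] in
theorem torus_decomp_open_le (a : SLn p n) {ρ : ℝ} (hρ : 0 < ρ) :
    IsOpen {x : SLn p n | ∀ k l, ‖x k l - a k l‖ ≤ ρ} := by
  have h : {x : SLn p n | ∀ k l, ‖x k l - a k l‖ ≤ ρ}
      = ⋂ k, ⋂ l, (fun x : SLn p n => x k l) ⁻¹' Metric.closedBall (a k l) ρ := by
    ext x; simp [dist_eq_norm]
  rw [h]
  refine isOpen_iInter_of_finite fun k => isOpen_iInter_of_finite fun l => ?_
  exact (IsUltrametricDist.isOpen_closedBall _ hρ.ne').preimage (torus_decomp_cont p k l)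

omit [NeZero n] in
theorem torus_decomp_closed_le (a : SLn p n) (ρ : ℝ) :
    IsClosed {x : SLn p n | ∀ k l, ‖x k l - a k l‖ ≤ ρ} := by
  have h : {x : SLn p n | ∀ k l, ‖x k l - a k l‖ ≤ ρ}
      = ⋂ k, ⋂ l, (fun x : SLn p n => x k l) ⁻¹' Metric.closedBall (a k l) ρ := by
    ext x; simp [dist_eq_norm]
  rw [h]
  refine isClosed_iInter fun k => isClosed_iInter fun l => ?_
  exact (Metric.isClosed_closedBall).preimage (torus_decomp_cont p k l)

theorem torus_decomp_one (w : Equiv.Perm (Fin n)) (U : Set (SLn p n)) (m M0 : ℕ)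
    (hm : (Cong p n m : Set (SLn p n)) ⊆ U) (a : SLn p n)
    (ha : a ∈ (NL p (1 : Equiv.Perm (Fin n)) ⊓ NL p w : Subgroup (SLn p n)))
    (i j : Fin n) (hij : i ≠ j) (hbig : (p : ℝ) ^ (-(M0 : ℤ)) < ‖a i j‖)
    (hmax : ∀ k l, k ≠ l → ‖a k l‖ ≤ ‖a i j‖) :
    ∃ (D' : Set (SLn p n)) (t : Fin p → SLn p n),
      (∀ s, t s ∈ Tor p n ∧ t s ∈ U) ∧
      D' ⊆ torus_decomp_ball p (NL p (1 : Equiv.Perm (Fin n)) ⊓ NL p w) a
        ((p : ℝ) ^ (-((M0 + m + 3 : ℕ) : ℤ))) ∧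
      (∃ O, IsOpen O ∧ D' = O ∩ (NL p (1 : Equiv.Perm (Fin n)) ⊓ NL p w : Subgroup (SLn p n))) ∧
      IsClosed D' ∧
      ∀ x ∈ NL p (1 : Equiv.Perm (Fin n)) ⊓ NL p w,
        Set.indicator (torus_decomp_ball p (NL p (1 : Equiv.Perm (Fin n)) ⊓ NL p w) a
          ((p : ℝ) ^ (-((M0 + m + 3 : ℕ) : ℤ)))) (fun _ => (1 : ℤ)) x
        = ∑ s, Set.indicator D' (fun _ => (1 : ℤ)) ((t s)⁻¹ * x * t s) := by
  classical
  have hp1 : (1 : ℝ) < p := by exact_mod_cast (Fact.out : p.Prime).one_lt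
  have hp0 : (0 : ℝ) < p := by linarith
  set ρ : ℝ := (p : ℝ) ^ (-((M0 + m + 3 : ℕ) : ℤ)) with hρ
  have hρ0 : 0 < ρ := by positivity
  have haij : a i j ≠ 0 := by
    intro h; rw [h, norm_zero] at hbig
    exact absurd hbig (not_lt.2 (by positivity))
  have haji : a j i = 0 := by
    rcases lt_or_gt_of_ne hij with h | h
    · exfalso
      apply haij
      refine ha.1.1 i j ?_
      show Fin.revPerm ((1 : Equiv.Perm (Fin n)) j) < Fin.revPerm ((1 : Equiv.Perm (Fin n)) i)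
      simpa using h
    · refine ha.1.1 j i ?_
      show Fin.revPerm ((1 : Equiv.Perm (Fin n)) i) < Fin.revPerm ((1 : Equiv.Perm (Fin n)) j)
      simpa using h
  -- the exponent
  have hval := Padic.norm_eq_zpow_neg_valuation haij
  set v : ℤ := (a i j).valuation with hv
  have hvM : v < M0 := by
    rw [hval] at hbig
    have := (zpow_lt_zpow_iff_right₀ hp1).1 hbig
    omega
  set e : ℤ := (M0 : ℤ) + m + 3 - v with he
  have heq : (p : ℝ) ^ (-e) * ‖a i j‖ = ρ := by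
    rw [hval, ← zpow_add₀ hp0.ne', hρ]
    congr 1
    push_cast
    omega
  obtain ⟨f, hf, hf1, hf2, hf3, hf4⟩ := torus_decomp_choice p m a i j hij haji hmax e (by omega)
  rw [heq] at hf4
  have hne : ∀ k, f k ≠ 0 := by
    intro k h; have := hf1 k; rw [h] at this; simp at this
  set Q : Subgroup (SLn p n) := NL p (1 : Equiv.Perm (Fin n)) ⊓ NL p w with hQ
  have hQconj : ∀ (s : ℕ) (x : SLn p n), x ∈ Q → ((dg p f hf) ^ s)⁻¹ * x * (dg p f hf) ^ s ∈ Q := by
    intro s x hx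
    exact ⟨torus_decomp_NU p f hf hne s _ hx.1, torus_decomp_NU p f hf hne s _ hx.2⟩
  have hc1 : ∀ k l, ‖(f k)⁻¹ * f l‖ = 1 := by
    intro k l; rw [norm_mul, norm_inv, hf1, hf1]; norm_num
  set D' : Set (SLn p n) := {x | x ∈ Q ∧ (∀ k l, ‖x k l - a k l‖ ≤ ρ) ∧ ‖x i j - a i j‖ < ρ} with hD'
  have hballconj : ∀ (s : ℕ) (x : SLn p n), x ∈ Q →
      ((∀ k l, ‖(((dg p f hf) ^ s)⁻¹ * x * (dg p f hf) ^ s : SLn p n) k l - a k l‖ ≤ ρ) ↔
        ∀ k l, ‖x k l - a k l‖ ≤ ρ) := by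
    intro s x hx
    refine forall_congr' fun k => forall_congr' fun l => ?_
    rw [torus_decomp_conj_pow p f hf hne]
    refine torus_decomp_ball_iff p ?_ ?_
    · rw [norm_pow, hc1, one_pow]
    · exact (mul_le_mul_of_nonneg_right (torus_decomp_pow_sub_one p (hc1 k l) s) (norm_nonneg _)).trans (hf4 k l)
  refine ⟨D', fun s => (dg p f hf) ^ (s : ℕ), ?_, ?_, ?_, ?_, ?_⟩
  · intro s
    exact ⟨torus_decomp_Tor p f hf s, hm (torus_decomp_Cong p f hf m hf2 s)⟩
  · rintro x ⟨h1, h2, _⟩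
    exact ⟨h1, h2⟩
  · refine ⟨{x : SLn p n | ∀ k l, ‖x k l - a k l‖ ≤ ρ} ∩ (fun x : SLn p n => x i j) ⁻¹' Metric.ball (a i j) ρ,
      (torus_decomp_open_le p a hρ0).inter (Metric.isOpen_ball.preimage (torus_decomp_cont p i j)), ?_⟩
    ext x
    simp only [hD', Set.mem_ofPred_eq, Set.mem_inter_iff, Set.mem_preimage, Metric.mem_ball, dist_eq_norm,
      SetLike.mem_coe]
    tauto
  · have h : D' = (Q : Set (SLn p n)) ∩ ({x : SLn p n | ∀ k l, ‖x k l - a k l‖ ≤ ρ} ∩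
        (fun x : SLn p n => x i j) ⁻¹' Metric.ball (a i j) ρ) := by
      ext x
      simp only [hD', Set.mem_ofPred_eq, Set.mem_inter_iff, Set.mem_preimage, Metric.mem_ball, dist_eq_norm,
        SetLike.mem_coe]
    rw [h]
    refine IsClosed.inter ?_ (IsClosed.inter (torus_decomp_closed_le p a ρ)
      ((IsUltrametricDist.isClosed_ball _ _).preimage (torus_decomp_cont p i j)))
    rw [hQ, Subgroup.coe_inf]
    exact (nu_closed p _).inter (nu_closed p _)
  · intro x hx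
    by_cases hxb : ∀ k l, ‖x k l - a k l‖ ≤ ρ
    · have hxB : x ∈ torus_decomp_ball p Q a ρ := ⟨hx, hxb⟩
      rw [Set.indicator_of_mem hxB]
      have hq : ‖(f i)⁻¹ * f j - 1‖ < 1 := by
        rw [hf3]; exact zpow_lt_one_of_neg₀ hp1 (by omega)
      obtain ⟨s0, hs0, hs1⟩ := torus_decomp_exu p (q := (f i)⁻¹ * f j) (x := x i j) (a := a i j) hρ0 hq
        (by rw [hf3, heq]) (hxb i j)
      have hmem : ∀ s : Fin p, (((dg p f hf) ^ (s : ℕ))⁻¹ * x * (dg p f hf) ^ (s : ℕ) ∈ D') ↔ s = s0 := by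
        intro s
        constructor
        · rintro ⟨_, _, h3⟩
          rw [torus_decomp_conj_pow p f hf hne] at h3
          exact hs1 s h3
        · rintro rfl
          refine ⟨hQconj s x hx, (hballconj s x hx).2 hxb, ?_⟩
          rw [torus_decomp_conj_pow p f hf hne]
          exact hs0
      rw [Finset.sum_eq_single s0]
      · rw [Set.indicator_of_mem ((hmem s0).2 rfl)]
      · intro s _ hs
        rw [Set.indicator_of_notMem]
        intro h; exact hs ((hmem s).1 h)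
      · intro h; exact absurd (Finset.mem_univ _) h
    · have hxB : x ∉ torus_decomp_ball p Q a ρ := fun h => hxb h.2
      rw [Set.indicator_of_notMem hxB]
      symm
      refine Finset.sum_eq_zero fun s _ => ?_
      rw [Set.indicator_of_notMem]
      rintro ⟨_, h2, _⟩
      exact hxb ((hballconj s x hx).1 h2)

omit [NeZero n] in
theorem torus_decomp_radius (Q : Subgroup (SLn p n)) (D O : Set (SLn p n)) (hD : IsCompact D)
    (hO : IsOpen O) (hDO : D = O ∩ Q) :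
    ∃ M : ℕ, ∀ a ∈ D, torus_decomp_ball p Q a ((p : ℝ) ^ (-(M : ℤ))) ⊆ D := by
  have hp1 : (1 : ℝ) < p := by exact_mod_cast (Fact.out : p.Prime).one_lt
  have hp0 : (0 : ℝ) < p := by linarith
  let φ : SLn p n → (Fin n → Fin n → ℚ_[p]) := fun g k l => g k l
  have hφ : Continuous φ := continuous_pi fun k => continuous_pi fun l => torus_decomp_cont p k l
  obtain ⟨V, hV, hVO⟩ : ∃ V : Set (Fin n → Fin n → ℚ_[p]), IsOpen V ∧ φ ⁻¹' V = O := by
    obtain ⟨V, hV, hVO⟩ := isOpen_induced_iff.1 hO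
    exact ⟨V, hV, hVO⟩
  have hsub : φ '' D ⊆ V := by
    rintro _ ⟨a, ha, rfl⟩
    rw [hDO, ← hVO] at ha
    exact ha.1
  obtain ⟨δ, hδ, hth⟩ := (hD.image hφ).exists_thickening_subset_open hV hsub
  obtain ⟨M, hM⟩ := exists_pow_lt_of_lt_one hδ (inv_lt_one_of_one_lt₀ hp1)
  refine ⟨M, fun a ha x hx => ?_⟩
  rw [hDO]
  refine ⟨?_, hx.1⟩
  rw [← hVO]
  apply hth
  rw [Metric.mem_thickening_iff]
  refine ⟨φ a, ⟨a, ha, rfl⟩, ?_⟩
  have h1 : dist (φ x) (φ a) ≤ (p : ℝ) ^ (-(M : ℤ)) := by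
    rw [dist_pi_le_iff (by positivity)]
    intro k
    rw [dist_pi_le_iff (by positivity)]
    intro l
    rw [dist_eq_norm]
    exact hx.2 k l
  refine lt_of_le_of_lt h1 ?_
  rw [_root_.zpow_neg, _root_.zpow_natCast, ← inv_pow]
  exact hM

omit [NeZero n] in
theorem torus_decomp_partition (Q : Subgroup (SLn p n)) (D : Set (SLn p n)) (hD : IsCompact D)
    (hDQ : D ⊆ Q) {ρ : ℝ} (hρ : 0 < ρ) (hball : ∀ a ∈ D, torus_decomp_ball p Q a ρ ⊆ D) :
    ∃ B : Finset (Set (SLn p n)), (∀ S ∈ B, ∃ a ∈ D, S = torus_decomp_ball p Q a ρ) ∧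
      ∀ x ∈ Q, Set.indicator D (fun _ => (1 : ℤ)) x = ∑ S ∈ B, Set.indicator S (fun _ => (1 : ℤ)) x := by
  classical
  obtain ⟨t, ht1, ht2⟩ := hD.elim_nhds_subcover
    (fun a => {x : SLn p n | ∀ k l, ‖x k l - a k l‖ ≤ ρ}) (fun a _ =>
      (torus_decomp_open_le p a hρ).mem_nhds (by intro k l; rw [sub_self, norm_zero]; exact hρ.le))
  refine ⟨t.image (fun a => torus_decomp_ball p Q a ρ), ?_, ?_⟩
  · intro S hS
    obtain ⟨a, ha, rfl⟩ := Finset.mem_image.1 hS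
    exact ⟨a, ht1 a ha, rfl⟩
  · intro x hxQ
    by_cases hx : x ∈ D
    · rw [Set.indicator_of_mem hx]
      have h1 := ht2 hx
      simp only [Set.mem_iUnion] at h1
      obtain ⟨a, hat, hxa⟩ := h1
      have hxa' : ∀ k l, ‖x k l - a k l‖ ≤ ρ := hxa
      rw [Finset.sum_eq_single (torus_decomp_ball p Q a ρ)]
      · rw [Set.indicator_of_mem]
        exact ⟨hxQ, hxa'⟩
      · intro S hS hne
        obtain ⟨b, hb, rfl⟩ := Finset.mem_image.1 hS
        rw [Set.indicator_of_notMem]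
        intro hxb
        apply hne
        have key : ∀ (a b : SLn p n), (∀ k l, ‖x k l - a k l‖ ≤ ρ) → (∀ k l, ‖x k l - b k l‖ ≤ ρ) →
            torus_decomp_ball p Q b ρ ⊆ torus_decomp_ball p Q a ρ := by
          intro a b hxa hxb y hy
          refine ⟨hy.1, fun k l => ?_⟩
          have e : y k l - a k l = (y k l - b k l) + (-(x k l - b k l) + (x k l - a k l)) := by ring
          rw [e]
          refine (IsUltrametricDist.norm_add_le_max _ _).trans (max_le (hy.2 k l) ?_)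
          refine (IsUltrametricDist.norm_add_le_max _ _).trans (max_le ?_ (hxa k l))
          rw [norm_neg]; exact hxb k l
        exact Set.Subset.antisymm (key a b hxa' hxb.2) (key b a hxb.2 hxa')
      · intro h
        exact absurd (Finset.mem_image_of_mem _ hat) h
    · rw [Set.indicator_of_notMem hx]
      symm
      refine Finset.sum_eq_zero fun S hS => ?_
      obtain ⟨b, hb, rfl⟩ := Finset.mem_image.1 hS
      rw [Set.indicator_of_notMem]
      intro h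
      exact hx (hball b (ht1 b hb) h)

omit [NeZero n] in
theorem torus_decomp_max (a : SLn p n) (r : ℝ) (k0 l0 : Fin n) (h0 : k0 ≠ l0) (hr : r < ‖a k0 l0‖) :
    ∃ i j : Fin n, i ≠ j ∧ r < ‖a i j‖ ∧ ∀ k l, k ≠ l → ‖a k l‖ ≤ ‖a i j‖ := by
  classical
  obtain ⟨q, hq, hq2⟩ := (Finset.univ.filter (fun q : Fin n × Fin n => q.1 ≠ q.2)).exists_max_image
    (fun q => ‖a q.1 q.2‖) ⟨(k0, l0), by simpa using h0⟩
  refine ⟨q.1, q.2, by simpa using hq, ?_, fun k l hkl => hq2 (k, l) (by simpa using hkl)⟩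
  exact lt_of_lt_of_le hr (hq2 (k0, l0) (by simpa using h0))

/-! ======= TARGETS ======= -/

/-- TARGET: decomposition of a compact open subset `D` of the unipotent group
`Q = NL p 1 ⊓ NL p w` (lower unipotent matrices `x`, `x a b ≠ 0` with `b < a` only if `w b < w a`),
not containing `1`, under small torus elements.

Proof. Use the sup norm on matrices, `d(x, y) = max_{a,b} ‖x a b - y a b‖`. As `D` is compact and
open in `Q`, there is a real `ρ = p^(-M)`, as small as we like, such that `D` is a disjoint union of finitely many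
balls `Bl(a) = {x ∈ Q | ∀ i j, ‖x i j - a i j‖ ≤ ρ}`, `a ∈ D` (being in the same ball of radius `ρ`
is an equivalence relation on `Q`; by compactness of `D` and openness `D` is stable for it when `ρ`
is small, and `D` meets only finitely many classes). Also, as `1 ∉ D` and `D` is
compact, there is `r > 0` with: for all `x ∈ D` some off-diagonal entry has norm `≥ r`; and take
`ρ` much smaller than `r`. It is enough to treat each ball `Bl(a)` (then take
the disjoint union of the index sets, `Fin r` with `r` the number of balls): we need `D' ⊆ Q` and `p` torus elements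
`t_0, ..., t_(p-1)` in `U` with `1_{Bl(a)}(x) = ∑_s 1_{D'}(t_s⁻¹ x t_s)` for `x ∈ Q`.
Choose `(i, j)`, `j < i`, with `‖a i j‖` maximal among the off-diagonal entries of `a`, so
`‖a i j‖ ≥ r`. Choose a small `η ∈ ℚ_[p]`, put `u = 1 + η` and let `t` be:
 * if `n ≥ 3`: `u` at place `i`, `u⁻¹` at a place `k` different from `i` and `j`, `1` elsewhere (so `t = coroot i k u`);
 * if `n = 2`: `t = coroot i j u`  (if `n = 1` then `Q` is trivial and `D` is empty).
Conjugation: `(t⁻¹ x t) a b = (t a)⁻¹ * (t b) * x a b`. So `(t⁻¹ x t) i j = q * x i j` with `q = u⁻¹`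
if `n ≥ 3` and `q = u⁻²` if `n = 2`, and the other entries are multiplied by `q'` with
`‖q' - 1‖ ≤ ‖η‖`. In the case `n ≥ 3`, `‖q - 1‖ = ‖η‖`, choose `η` with
`‖η‖ * ‖a i j‖ = ρ` (possible: all these are powers of `p`; `‖η‖ ≤ ρ/r` is small so that `t ∈ U`);
in the case `n = 2` choose `η` with `‖q - 1‖ * ‖a i j‖ = ρ`, where `‖u⁻² - 1‖ = ‖2 η + η^2‖ = ‖2η‖` for `‖η‖ < ‖2‖`.
Let `t_s = t^s`, `0 ≤ s < p`, and `D' = {x ∈ Bl(a) | ‖x i j - a i j‖ ≤ ρ/p}`.
Conjugation by `t` preserves `Bl(a)` (all off diagonal entries of elements of `Bl(a)` have norm at most `‖a i j‖`,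
and `‖q' - 1‖ ‖x a b‖ ≤ ‖η‖ ‖a i j‖ = ρ` if `n ≥ 3`; for `n = 2` there is only one entry).
For `x ∈ Bl(a)`: `t_s⁻¹ x t_s ∈ D'` iff `‖q^s x i j - a i j‖ ≤ ρ/p`. Write `q = 1 + κ`, `‖κ‖ ‖a i j‖ = ρ`;
then `q^s x i j - a i j ≡ (x i j - a i j) + s κ (a i j)` modulo elements of norm `≤ ρ/p` (as `‖κ‖ < 1`, and
`‖κ‖ρ ≤ ρ/p`, `‖κ^2 a i j‖ ≤ ρ/p`), and dividing by `κ a i j` (of norm `ρ`) this is `c + s` with `c` in `ℤ_[p]`; exactly one
`s ∈ {0, ..., p-1}` has `‖c + s‖ ≤ 1/p`. So exactly one `s` has `t_s⁻¹ x t_s ∈ D'`.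
And for `x ∈ Q` outside `Bl(a)` no `t_s⁻¹ x t_s` is in `D' ⊆ Bl(a)`, since conjugation by `t` is a bijection of
`Bl(a)` (its inverse preserves `Bl(a)` too). `D'` is compact (closed and bounded) and open in `Q`.
You may of course organise this differently. -/
theorem torus_decomp (w : Equiv.Perm (Fin n)) (U : Set (SLn p n)) (hU : U ∈ 𝓝 (1 : SLn p n))
    (D : Set (SLn p n)) (hD : IsCompact D) (h1 : (1 : SLn p n) ∉ D)
    (hO : ∃ O, IsOpen O ∧
      D = O ∩ (NL p (1 : Equiv.Perm (Fin n)) ⊓ NL p w : Subgroup (SLn p n))) :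
    ∃ (r : ℕ) (D' : Fin r → Set (SLn p n)) (t : Fin r → Fin p → SLn p n),
      (∀ j s, t j s ∈ Tor p n ∧ t j s ∈ U) ∧
      (∀ j, IsCompact (D' j) ∧ ∃ O, IsOpen O ∧
        D' j = O ∩ (NL p (1 : Equiv.Perm (Fin n)) ⊓ NL p w : Subgroup (SLn p n))) ∧
      ∀ x ∈ NL p (1 : Equiv.Perm (Fin n)) ⊓ NL p w,
        Set.indicator D (fun _ => (1 : ℤ)) x
        = ∑ j, ∑ s, Set.indicator (D' j) (fun _ => (1 : ℤ)) ((t j s)⁻¹ * x * t j s) := by
  classical
  have hp1 : (1 : ℝ) < p := by exact_mod_cast (Fact.out : p.Prime).one_lt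
  obtain ⟨m, _, hm⟩ := cong_small p n U hU
  obtain ⟨O, hO, hDO⟩ := hO
  obtain ⟨M0, hM0⟩ := torus_decomp_radius p (NL p (1 : Equiv.Perm (Fin n)) ⊓ NL p w) D O hD hO hDO
  have hDQ : D ⊆ (NL p (1 : Equiv.Perm (Fin n)) ⊓ NL p w : Subgroup (SLn p n)) := by
    rw [hDO]; exact Set.inter_subset_right
  have hρ : (0 : ℝ) < (p : ℝ) ^ (-((M0 + m + 3 : ℕ) : ℤ)) := fact_pow_pos p _
  have hle : (p : ℝ) ^ (-((M0 + m + 3 : ℕ) : ℤ)) ≤ (p : ℝ) ^ (-(M0 : ℤ)) :=
    zpow_le_zpow_right₀ hp1.le (by push_cast; omega)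
  have hball : ∀ a ∈ D, torus_decomp_ball p (NL p (1 : Equiv.Perm (Fin n)) ⊓ NL p w) a
      ((p : ℝ) ^ (-((M0 + m + 3 : ℕ) : ℤ))) ⊆ D := by
    intro a ha x hx
    exact hM0 a ha ⟨hx.1, fun k l => (hx.2 k l).trans hle⟩
  obtain ⟨B, hB1, hB2⟩ := torus_decomp_partition p _ D hD hDQ hρ hball
  have hS : ∀ S : B, ∃ (D' : Set (SLn p n)) (t : Fin p → SLn p n),
      (∀ s, t s ∈ Tor p n ∧ t s ∈ U) ∧
      IsCompact D' ∧
      (∃ O, IsOpen O ∧ D' = O ∩ (NL p (1 : Equiv.Perm (Fin n)) ⊓ NL p w : Subgroup (SLn p n))) ∧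
      ∀ x ∈ NL p (1 : Equiv.Perm (Fin n)) ⊓ NL p w,
        Set.indicator (S : Set (SLn p n)) (fun _ => (1 : ℤ)) x
        = ∑ s, Set.indicator D' (fun _ => (1 : ℤ)) ((t s)⁻¹ * x * t s) := by
    rintro ⟨S, hS⟩
    obtain ⟨a, haD, rfl⟩ := hB1 S hS
    have haQ : a ∈ (NL p (1 : Equiv.Perm (Fin n)) ⊓ NL p w : Subgroup (SLn p n)) := hDQ haD
    have hex : ∃ k l, k ≠ l ∧ (p : ℝ) ^ (-(M0 : ℤ)) < ‖a k l‖ := by
      by_contra hcon
      push Not at hcon
      apply h1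
      refine hM0 a haD ⟨one_mem _, fun k l => ?_⟩
      by_cases hkl : k = l
      · subst hkl
        rw [haQ.1.2 k, Matrix.SpecialLinearGroup.coe_one, Matrix.one_apply_eq, sub_self, norm_zero]
        exact (fact_pow_pos p _).le
      · rw [Matrix.SpecialLinearGroup.coe_one, Matrix.one_apply_ne hkl, zero_sub, norm_neg]
        exact hcon k l hkl
    obtain ⟨k0, l0, h0, hr⟩ := hex
    obtain ⟨i, j, hij, hbig, hmax⟩ := torus_decomp_max p a _ k0 l0 h0 hr
    obtain ⟨D', t, c1, c2, c3, c4, c5⟩ := torus_decomp_one p w U m M0 hm a haQ i j hij hbig hmax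
    exact ⟨D', t, c1, hD.of_isClosed_subset c4 (c2.trans (hball a haD)), c3, c5⟩
  choose D' t c1 c2 c3 c4 using hS
  refine ⟨B.card, fun j => D' (B.equivFin.symm j), fun j => t (B.equivFin.symm j),
    fun j s => c1 _ s, fun j => ⟨c2 _, c3 _⟩, fun x hx => ?_⟩
  rw [hB2 x hx, ← Finset.sum_coe_sort B (fun S => Set.indicator S (fun _ => (1 : ℤ)) x)]
  rw [Equiv.sum_comp B.equivFin.symm (fun S => ∑ s, Set.indicator (D' S) (fun _ => (1 : ℤ))
    ((t S s)⁻¹ * x * t S s))]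
  exact Finset.sum_congr rfl fun S _ => c4 S x hx
end Pool.Agent.Helper911
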