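import Mathlib
import Pool.Agent.Helper911_SL.Defs2
import Pool.Agent.Helper911_SL.JE
import Pool.Agent.Helper911_SL.JF

set_option autoImplicit false
set_option linter.unusedSectionVars false
set_option maxHeartbeats 1000000

noncomputable section

open Matrix Topology Filter

namespace Pool.Agent.Helper911


variable (p : ℕ) [Fact p.Prime] {n : ℕ} [NeZero n]



/-! ======= auxiliary lemmas ======= -/

theorem tie_mem_NL {g : SLn p n} :
    g ∈ NL p (1 : Equiv.Perm (Fin n)) ↔ (∀ i j : Fin n, i < j → g i j = 0) ∧ ∀ i, g i i = 1 := by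
  constructor
  · rintro ⟨h1, h2⟩
    refine ⟨fun i j hij => h1 i j ?_, h2⟩
    show Fin.revPerm ((1 : Equiv.Perm (Fin n)) j) < Fin.revPerm ((1 : Equiv.Perm (Fin n)) i)
    simpa using hij
  · rintro ⟨h1, h2⟩
    refine ⟨fun i j hij => h1 i j ?_, h2⟩
    have : Fin.revPerm ((1 : Equiv.Perm (Fin n)) j) < Fin.revPerm ((1 : Equiv.Perm (Fin n)) i) := hij
    simpa using this

theorem tie_mem_NU {g : SLn p n} :
    g ∈ NU p (1 : Equiv.Perm (Fin n)) ↔ (∀ i j : Fin n, j < i → g i j = 0) ∧ ∀ i, g i i = 1 :=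
  Iff.rfl

theorem tie_mul_el (A : SLn p n) (q r : Fin n) (h : q ≠ r) (v : ℚ_[p]) (s c : Fin n) :
    (A * el p q r h v : SLn p n) s c = A s c + (if c = r then A s q * v else 0) := by
  rw [Matrix.SpecialLinearGroup.coe_mul, Matrix.mul_apply]
  simp only [el_apply, mul_add, Finset.sum_add_distrib]
  congr 1
  · rw [Finset.sum_eq_single c]
    · simp
    · intro k _ hk; simp [hk]
    · intro h; exact absurd (Finset.mem_univ _) h
  · rw [Finset.sum_eq_single q]
    · by_cases hc : c = r <;> simp [hc]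
    · intro k _ hk; simp [hk]
    · intro h; exact absurd (Finset.mem_univ _) h

theorem tie_el_mul (A : SLn p n) (q r : Fin n) (h : q ≠ r) (v : ℚ_[p]) (s c : Fin n) :
    (el p q r h v * A : SLn p n) s c = A s c + (if s = q then v * A r c else 0) := by
  rw [Matrix.SpecialLinearGroup.coe_mul, Matrix.mul_apply]
  simp only [el_apply, add_mul, Finset.sum_add_distrib]
  congr 1
  · rw [Finset.sum_eq_single s]
    · simp
    · intro k _ hk; simp [Ne.symm hk]
    · intro h; exact absurd (Finset.mem_univ _) h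
  · rw [Finset.sum_eq_single r]
    · by_cases hc : s = q <;> simp [hc]
    · intro k _ hk; simp [hk]
    · intro h; exact absurd (Finset.mem_univ _) h

theorem tie_el_inv (q r : Fin n) (h : q ≠ r) (v : ℚ_[p]) :
    (el p q r h v)⁻¹ = el p q r h (-v) := by
  rw [inv_eq_iff_mul_eq_one]
  ext s c
  rw [tie_mul_el, el_apply, el_apply, Matrix.SpecialLinearGroup.coe_one, Matrix.one_apply]
  by_cases hc : c = r
  · by_cases hs : s = q
    · subst hc hs
      simp [h]
    · simp [hc, hs]
  · simp [hc]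

/-- Conjugation by an elementary matrix, entrywise. -/
theorem tie_conj_el (a : SLn p n) (q r : Fin n) (h : q ≠ r) (v : ℚ_[p]) (s c : Fin n) :
    ((el p q r h v)⁻¹ * a * el p q r h v : SLn p n) s c =
      a s c - (if s = q then v * a r c else 0) +
        (if c = r then (a s q - (if s = q then v * a r q else 0)) * v else 0) := by
  rw [tie_mul_el, tie_el_inv, tie_el_mul, tie_el_mul]
  by_cases hs : s = q
  · by_cases hc : c = r
    · simp only [hs, hc, if_true]; ring
    · simp only [hs, hc, if_true, if_false]; ring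
  · simp [hs]

/-- Conjugation of a lower unipotent matrix by an upper elementary matrix. -/
theorem tie_conj_NL {a : SLn p n} (ha : a ∈ NL p (1 : Equiv.Perm (Fin n))) {q r : Fin n}
    (hqr : q < r) (v : ℚ_[p]) (h1 : ∀ s, q < s → s ≤ r → a s q = 0)
    (h2 : ∀ c, q ≤ c → c < r → a r c = 0) :
    (el p q r hqr.ne v)⁻¹ * a * el p q r hqr.ne v ∈ NL p (1 : Equiv.Perm (Fin n)) := by
  obtain ⟨hl, hd⟩ := (tie_mem_NL p).1 ha
  rw [tie_mem_NL]
  have hrq : a r q = 0 := h1 r hqr le_rfl
  constructor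
  · intro s c hsc
    rw [tie_conj_el, hl s c hsc]
    by_cases hs : s = q
    · subst hs
      simp only [if_true, hrq, mul_zero, sub_zero, hd, one_mul, zero_sub]
      by_cases hc : c = r
      · subst hc
        simp [hd]
      · rw [if_neg hc, add_zero]
        rcases lt_or_gt_of_ne hc with h | h
        · rw [h2 c hsc.le h]; simp
        · rw [hl r c h]; simp
    · simp only [if_neg hs, sub_zero, zero_add]
      by_cases hc : c = r
      · subst hc
        rw [if_pos rfl]
        rcases lt_or_gt_of_ne hs with h | h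
        · rw [hl s q h, zero_mul]
        · rw [h1 s h hsc.le, zero_mul]
      · rw [if_neg hc]
  · intro s
    rw [tie_conj_el, hd s]
    by_cases hs : s = q
    · subst hs
      simp [hrq, hqr.ne]
    · by_cases hr : s = r
      · subst hr
        simp [hs, hrq]
      · simp [hs, hr]

/-- The elements `e⁻¹ (el q r v) e`. -/
theorem tie_el_mem (w : Equiv.Perm (Fin n)) {q r : Fin n} (hqr : q < r)
    (hw : w.symm r < w.symm q) (v : ℚ_[p]) :
    (wrep p w)⁻¹ * el p q r hqr.ne v * wrep p w ∈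
      NL p (1 : Equiv.Perm (Fin n)) ⊓ NU p w := by
  set g' : SLn p n := (wrep p w)⁻¹ * el p q r hqr.ne v * wrep p w with hg'
  have hc : wrep p w * g' * (wrep p w)⁻¹ = el p q r hqr.ne v := by rw [hg']; group
  have hent : ∀ a b, g' a b = eps p w (w a) * eps p w (w b) * el p q r hqr.ne v (w a) (w b) := by
    intro a b
    have h := conj_wrep_apply p w g' (w a) (w b)
    rw [hc, Equiv.symm_apply_apply, Equiv.symm_apply_apply] at h
    rw [h]
    have e1 := eps_mul_self p w (w a)
    have e2 := eps_mul_self p w (w b)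
    calc g' a b = (eps p w (w a) * eps p w (w a)) * (eps p w (w b) * eps p w (w b)) * g' a b := by
          rw [e1, e2]; ring
      _ = _ := by ring
  refine Subgroup.mem_inf.2 ⟨?_, ?_⟩
  · rw [tie_mem_NL]
    constructor
    · intro a b hab
      rw [hent, el_apply]
      have h1 : w a ≠ w b := fun h => hab.ne (w.injective h)
      have h2 : ¬ (w a = q ∧ w b = r) := by
        rintro ⟨ha, hb⟩
        rw [← ha, ← hb, Equiv.symm_apply_apply, Equiv.symm_apply_apply] at hw
        exact absurd hab hw.le.not_gt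
      simp [h1, h2]
    · intro a
      rw [hent, el_apply, eps_mul_self]
      have h2 : ¬ (w a = q ∧ w a = r) := by
        rintro ⟨ha, hb⟩
        exact hqr.ne (ha.symm.trans hb)
      simp [h2]
  · rw [← conj_wrep_NU, hc, tie_mem_NU]
    constructor
    · intro i j hij
      rw [el_apply]
      have h2 : ¬ (i = q ∧ j = r) := by
        rintro ⟨rfl, rfl⟩
        exact absurd hqr hij.le.not_gt
      simp [hij.ne', h2]
    · intro i
      rw [el_apply]
      have h2 : ¬ (i = q ∧ i = r) := by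
        rintro ⟨ha, hb⟩
        exact hqr.ne (ha.symm.trans hb)
      simp [h2]

/-- The `2 × 2` identity. -/
theorem tie_coroot {j i : Fin n} (hji : j ≠ i) (x : ℚ_[p]ˣ) {t v v' t' : ℚ_[p]}
    (h1 : 1 + t * v = ((x⁻¹ : ℚ_[p]ˣ) : ℚ_[p])) (h2 : v' = v * ((x⁻¹ : ℚ_[p]ˣ) : ℚ_[p]))
    (h3 : t' = x * t) :
    el p i j hji.symm t * el p j i hji v =
      coroot p j i hji x * el p j i hji v' * el p i j hji.symm t' := by
  have hx : (x : ℚ_[p]) * ((x⁻¹ : ℚ_[p]ˣ) : ℚ_[p]) = 1 := x.mul_inv
  have hx0 : (x : ℚ_[p]) ≠ 0 := x.ne_zero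
  ext s c
  rw [mul_assoc, tie_el_mul, Matrix.SpecialLinearGroup.coe_mul, Matrix.mul_apply,
    Finset.sum_eq_single s]
  · rw [tie_el_mul, coroot, dg_apply, if_pos rfl]
    simp only [el_apply, corootFun]
    by_cases hsj : s = j
    · by_cases hcj : c = j
      · simp only [hsj, hcj, hji, hji.symm, if_true, if_false, true_and, and_false, and_true,
          false_and, add_zero, zero_add]
        rw [h2, h3]
        linear_combination (-1 : ℚ_[p]) * hx - (x : ℚ_[p]) * h1 - (x : ℚ_[p]) * v * t * hx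
      · by_cases hci : c = i
        · simp only [hsj, hci, hji, hji.symm, if_true, if_false, true_and, and_false, and_true,
            false_and, add_zero, zero_add]
          rw [h2]
          linear_combination (-v) * hx
        · simp [hsj, hji, hji.symm, Ne.symm hcj, Ne.symm hci, hcj, hci]
    · by_cases hsi : s = i
      · by_cases hcj : c = j
        · simp only [hsi, hcj, hji, hji.symm, if_true, if_false, true_and, and_false, and_true,
            false_and, add_zero, zero_add]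
          rw [h3]
          linear_combination (-t) * hx
        · by_cases hci : c = i
          · simp only [hsi, hci, hji, hji.symm, if_true, if_false, true_and, and_false, and_true,
              false_and, add_zero, zero_add]
            linear_combination h1
          · simp [hsi, hji, hji.symm, Ne.symm hcj, Ne.symm hci, hcj, hci]
      · simp [hsi, hsj]
  · intro k _ hk
    rw [coroot, dg_apply, if_neg (Ne.symm hk), zero_mul]
  · intro h; exact absurd (Finset.mem_univ _) h

/-- The key remark. -/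
theorem tie_key (w : Equiv.Perm (Fin n)) (X : Subgroup (SLn p n)) (R : Set (SLn p n))
    (H : ∀ n1 ∈ R, ∀ s ∈ NL p (1 : Equiv.Perm (Fin n)) ⊓ NU p w,
      ∀ b ∈ Up p (1 : Equiv.Perm (Fin n)), ∀ n2 ∈ NU p (1 : Equiv.Perm (Fin n)) ⊓ NL p w,
      ∀ y ∈ NL p (1 : Equiv.Perm (Fin n)) ⊓ NL p w,
        wrep p w * n1 * s = b * wrep p w * n2 * y → y = 1 ∧ n2 ∈ R ∧ b ∈ X)
    {a b m : SLn p n} (ha : (wrep p w)⁻¹ * a * wrep p w ∈ R) {q r : Fin n} (hqr : q < r)
    (hw : w.symm r < w.symm q) (v : ℚ_[p]) (hb : b ∈ Up p (1 : Equiv.Perm (Fin n)))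
    (hm : m ∈ NL p (1 : Equiv.Perm (Fin n)))
    (e : a * el p q r hqr.ne v = b * m) :
    (wrep p w)⁻¹ * m * wrep p w ∈ R ∧ b ∈ X := by
  have h1 : (wrep p w)⁻¹ * m * wrep p w ∈ NL p w := by
    rw [← conj_wrep_NL]
    have : wrep p w * ((wrep p w)⁻¹ * m * wrep p w) * (wrep p w)⁻¹ = m := by group
    rw [this]
    exact hm
  obtain ⟨h, hh, y, hy, hxy, -⟩ := peel_low p w _ h1
  have h2 : wrep p w * ((wrep p w)⁻¹ * a * wrep p w) *
      ((wrep p w)⁻¹ * el p q r hqr.ne v * wrep p w) = b * wrep p w * h * y := by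
    have e1 : wrep p w * ((wrep p w)⁻¹ * a * wrep p w) *
      ((wrep p w)⁻¹ * el p q r hqr.ne v * wrep p w) = (a * el p q r hqr.ne v) * wrep p w := by
      group
    have e2 : b * wrep p w * h * y = b * wrep p w * (h * y) := by group
    rw [e1, e2, ← hxy, e]
    group
  obtain ⟨hy1, hh1, hb1⟩ := H _ ha _ (tie_el_mem p w hqr hw v) b hb h hh y hy h2
  refine ⟨?_, hb1⟩
  rw [hxy, hy1, mul_one]
  exact hh1

theorem tie_el_up {q r : Fin n} (hqr : q < r) (v : ℚ_[p]) :
    el p q r hqr.ne v ∈ NU p (1 : Equiv.Perm (Fin n)) := by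
  rw [tie_mem_NU]
  constructor
  · intro i j hij
    rw [el_apply]
    have h2 : ¬ (i = q ∧ j = r) := by
      rintro ⟨rfl, rfl⟩
      exact absurd hqr hij.le.not_gt
    simp [hij.ne', h2]
  · intro i
    rw [el_apply]
    have h2 : ¬ (i = q ∧ i = r) := by
      rintro ⟨ha, hb⟩
      exact hqr.ne (ha.symm.trans hb)
    simp [h2]

theorem tie_el_low {q r : Fin n} (hqr : q < r) (v : ℚ_[p]) :
    el p r q hqr.ne' v ∈ NL p (1 : Equiv.Perm (Fin n)) := by
  rw [tie_mem_NL]
  constructor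
  · intro i j hij
    rw [el_apply]
    have h2 : ¬ (i = r ∧ j = q) := by
      rintro ⟨rfl, rfl⟩
      exact absurd hqr hij.le.not_gt
    simp [hij.ne, h2]
  · intro i
    rw [el_apply]
    have h2 : ¬ (i = r ∧ i = q) := by
      rintro ⟨ha, hb⟩
      exact hqr.ne (hb.symm.trans ha)
    simp [h2]

theorem tie_coroot_up {j i : Fin n} (hji : j ≠ i) (x : ℚ_[p]ˣ) :
    coroot p j i hji x ∈ Up p (1 : Equiv.Perm (Fin n)) := by
  intro a b hab
  have : a ≠ b := by rintro rfl; exact lt_irrefl _ hab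
  rw [coroot, dg_apply, if_neg this]

/-! ======= TARGETS ======= -/

/-- TARGET. Notation: `e = wrep p w`. `Up p 1` upper triangular; `NU p 1`, `NL p 1` upper and lower
unipotent; `e g e⁻¹ ∈ NL p 1 ↔ g ∈ NL p w`, `e g e⁻¹ ∈ NU p 1 ↔ g ∈ NU p w`.

Proof. Put `R' = e R e⁻¹ ⊆ NL p 1`. The entry formula is `conj_wrep_apply`. An element `a ∈ R'` has nonzero
off-diagonal entries only at `(i, j)` with `j < i` and `w⁻¹ i < w⁻¹ j` (as `R ⊆ NU p 1 ⊓ NL p w`).
For `j < k` and `w⁻¹ k < w⁻¹ j` the element `e⁻¹ (el j k v) e` is in `NL p 1 ⊓ NU p w` (a possible `s`).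
Key remark (*): if `a ∈ R'`, `g = el j k v` with `j < k`, `w⁻¹ k < w⁻¹ j`, and `a * g = b * m` with
`b ∈ Up p 1`, `m ∈ NL p 1`, then `m ∈ R'` and `b ∈ X`. Indeed `e⁻¹ m e ∈ NL p w`, so `e⁻¹ m e = n2 * y` by
`peel_low`, and `H` applies.
Choose `a ∈ R'` and `(i, j)`, `j < i`, with `a i j ≠ 0` and `d = i - j` minimal among all elements of `R'` and
all their nonzero off-diagonal entries (elements of `R'` are `≠ 1`). So all entries of all elements of `R'`
at distance `< d` below the diagonal vanish.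
Case `d ≥ 2`: take `k` with `j < k < i`. If `w⁻¹ k < w⁻¹ j`, take `g = el j k 1`, `b = el j k 1`,
`m = b⁻¹ a g` (column `k` += column `j`, then row `j` -= row `k`); because the entries of `a` at distance `< d`
vanish, `m` is lower unipotent, and `m i k = a i k + a i j = a i j ≠ 0` at distance `i - k < d`:
contradiction with (*) and minimality. Otherwise `w⁻¹ i < w⁻¹ j < w⁻¹ k`; take `g = b = el k i 1`, `m = b⁻¹ a g`
(column `i` += column `k`, then row `k` -= row `i`); again `m` is lower unipotent and `m k j = a k j - a i j = - a i j ≠ 0`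
at distance `k - j < d`: contradiction.
Case `d = 1`: `i = j + 1`, `t = a i j ≠ 0`. For a unit `x` put `v = (x⁻¹ - 1)/t`, so `1 + v t = x⁻¹`;
`g = el j i v` is allowed (`w⁻¹ i < w⁻¹ j`). Write `a = el i j t * m1` with `m1 ∈ NL p 1`, `m1 i j = 0`. Then
`a * g = (el i j t * el j i v) * (g⁻¹ m1 g)`, with `g⁻¹ m1 g ∈ NL p 1` (as `i = j+1` and `m1 i j = 0`), and
`el i j t * el j i v = coroot j i x * u * el i j t'` with `u = el j i v'` (`u ∈ NU p 1`), `v' = v x⁻¹`, `t' = t x`:
this is the 2x2 identity `[[1,v],[t,1+tv]] = [[x,0],[0,x⁻¹]] [[1,v'],[0,1]] [[1,0],[t',1]]` in the rows and columns `j, i`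
(check: with `1+tv = x⁻¹`). So by (*) `coroot j i x * u ∈ X`, hence `coroot j i x ∈ X`. -/
theorem tie_axiom (w : Equiv.Perm (Fin n)) (X : Subgroup (SLn p n))
    (hX : NU p (1 : Equiv.Perm (Fin n)) ≤ X) (R : Set (SLn p n))
    (hR : ∀ x ∈ R, x ∈ NU p (1 : Equiv.Perm (Fin n)) ⊓ NL p w)
    (h1 : (1 : SLn p n) ∉ R) (hne : R.Nonempty)
    (H : ∀ n1 ∈ R, ∀ s ∈ NL p (1 : Equiv.Perm (Fin n)) ⊓ NU p w,
      ∀ b ∈ Up p (1 : Equiv.Perm (Fin n)), ∀ n2 ∈ NU p (1 : Equiv.Perm (Fin n)) ⊓ NL p w,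
      ∀ y ∈ NL p (1 : Equiv.Perm (Fin n)) ⊓ NL p w,
        wrep p w * n1 * s = b * wrep p w * n2 * y → y = 1 ∧ n2 ∈ R ∧ b ∈ X) :
    ∃ (j i : Fin n) (hji : j ≠ i), (j : ℕ) + 1 = (i : ℕ) ∧
      ∀ x : ℚ_[p]ˣ, coroot p j i hji x ∈ X := by
  classical
  have hconj : ∀ a : SLn p n,
      wrep p w * ((wrep p w)⁻¹ * a * wrep p w) * (wrep p w)⁻¹ = a := fun a => by group
  have haNL : ∀ a : SLn p n, (wrep p w)⁻¹ * a * wrep p w ∈ R →
      a ∈ NL p (1 : Equiv.Perm (Fin n)) := by
    intro a ha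
    have h := (Subgroup.mem_inf.1 (hR _ ha)).2
    rw [← conj_wrep_NL, hconj] at h
    exact h
  have haw : ∀ a : SLn p n, (wrep p w)⁻¹ * a * wrep p w ∈ R → ∀ i j : Fin n, j < i →
      a i j ≠ 0 → w.symm i < w.symm j := by
    intro a ha i j hji hne
    by_contra hcon
    have hlt : w.symm j < w.symm i :=
      lt_of_le_of_ne (not_lt.1 hcon) (fun h => hji.ne (w.symm.injective h))
    have h := conj_wrep_apply p w ((wrep p w)⁻¹ * a * wrep p w) i j
    rw [hconj, ((tie_mem_NU p).1 (Subgroup.mem_inf.1 (hR _ ha)).1).1 _ _ hlt, mul_zero] at h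
    exact hne h
  have hex : ∃ d : ℕ, ∃ a : SLn p n, (wrep p w)⁻¹ * a * wrep p w ∈ R ∧
      ∃ i j : Fin n, j < i ∧ (i : ℕ) - (j : ℕ) = d ∧ a i j ≠ 0 := by
    obtain ⟨n1, hn1⟩ := hne
    obtain ⟨a, ha⟩ : ∃ a : SLn p n, a = wrep p w * n1 * (wrep p w)⁻¹ := ⟨_, rfl⟩
    have e : (wrep p w)⁻¹ * a * wrep p w = n1 := by rw [ha]; group
    have haR : (wrep p w)⁻¹ * a * wrep p w ∈ R := by rw [e]; exact hn1
    by_contra hcon
    have h1' : a = 1 := by
      obtain ⟨hl, hd⟩ := (tie_mem_NL p).1 (haNL a haR)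
      ext i j
      rw [Matrix.SpecialLinearGroup.coe_one, Matrix.one_apply]
      rcases lt_trichotomy i j with h | h | h
      · rw [hl i j h, if_neg h.ne]
      · subst h; rw [hd, if_pos rfl]
      · rw [if_neg h.ne']
        by_contra hne'
        exact hcon ⟨_, a, haR, i, j, h, rfl, hne'⟩
    apply h1
    rw [h1'] at haR
    simpa using haR
  obtain ⟨a, haR, i, j, hji, hd, hne'⟩ := Nat.find_spec hex
  have hmin : ∀ b : SLn p n, (wrep p w)⁻¹ * b * wrep p w ∈ R → ∀ i' j' : Fin n, j' < i' →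
      (i' : ℕ) - (j' : ℕ) < (i : ℕ) - (j : ℕ) → b i' j' = 0 := by
    intro b hb i' j' hlt hdd
    by_contra hne''
    rw [hd] at hdd
    exact Nat.find_min hex hdd ⟨b, hb, i', j', hlt, rfl, hne''⟩
  clear hd
  have hwij := haw a haR i j hji hne'
  have haL := haNL a haR
  have hji' : (j : ℕ) < (i : ℕ) := hji
  rcases Nat.lt_or_ge ((j : ℕ) + 1) (i : ℕ) with hd2 | hd1
  · -- distance at least two
    exfalso
    have hkn : (j : ℕ) + 1 < n := lt_trans hd2 i.2
    obtain ⟨k, hk⟩ : ∃ k : Fin n, (k : ℕ) = (j : ℕ) + 1 := ⟨⟨(j : ℕ) + 1, hkn⟩, rfl⟩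
    have hjk : j < k := by rw [Fin.lt_def, hk]; omega
    have hki : k < i := by rw [Fin.lt_def, hk]; omega
    rcases lt_or_ge (w.symm k) (w.symm j) with hw | hw
    · have hm := tie_conj_NL p haL hjk 1
        (fun s hs1 hs2 => hmin a haR s j hs1 (by
          rw [Fin.lt_def] at hs1; rw [Fin.le_def] at hs2; omega))
        (fun c hc1 hc2 => hmin a haR k c hc2 (by
          rw [Fin.le_def] at hc1; rw [Fin.lt_def] at hc2; omega))
      have hkey := tie_key p w X R H haR hjk hw 1 (tie_el_up p hjk 1).1 hm (by group)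
      have h0 := hmin _ hkey.1 i k hki (by omega)
      rw [tie_conj_el] at h0
      have h1' : a i k = 0 := hmin a haR i k hki (by omega)
      rw [h1', if_neg hji.ne', if_neg hji.ne', if_pos rfl] at h0
      apply hne'
      linear_combination h0
    · have hwik : w.symm i < w.symm k := lt_of_lt_of_le hwij hw
      have hm := tie_conj_NL p haL hki 1
        (fun s hs1 hs2 => hmin a haR s k hs1 (by
          rw [Fin.lt_def] at hs1; rw [Fin.le_def] at hs2; omega))
        (fun c hc1 hc2 => hmin a haR i c hc2 (by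
          rw [Fin.le_def] at hc1; rw [Fin.lt_def] at hc2; omega))
      have hkey := tie_key p w X R H haR hki hwik 1 (tie_el_up p hki 1).1 hm (by group)
      have h0 := hmin _ hkey.1 k j hjk (by omega)
      rw [tie_conj_el] at h0
      have h1' : a k j = 0 := hmin a haR k j hjk (by omega)
      rw [h1', if_pos rfl, if_neg hji.ne] at h0
      apply hne'
      linear_combination (-1 : ℚ_[p]) * h0
  · -- distance one
    have hij1 : (j : ℕ) + 1 = (i : ℕ) := by omega
    refine ⟨j, i, hji.ne, hij1, fun x => ?_⟩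
    obtain ⟨t, ht⟩ : ∃ t : ℚ_[p], t = a i j := ⟨_, rfl⟩
    have ht0 : t ≠ 0 := by rw [ht]; exact hne'
    obtain ⟨v, hv⟩ : ∃ v : ℚ_[p], v = (((x⁻¹ : ℚ_[p]ˣ) : ℚ_[p]) - 1) / t := ⟨_, rfl⟩
    have htv : 1 + t * v = ((x⁻¹ : ℚ_[p]ˣ) : ℚ_[p]) := by
      rw [hv]; field_simp; ring
    have hcor := tie_coroot p hji.ne x htv rfl rfl
    obtain ⟨m1, hm1⟩ : ∃ m1 : SLn p n, m1 = (el p i j hji.ne' t)⁻¹ * a := ⟨_, rfl⟩
    have hm1L : m1 ∈ NL p (1 : Equiv.Perm (Fin n)) := by
      rw [hm1]
      exact mul_mem (inv_mem (tie_el_low p hji t)) haL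
    have hm1ij : m1 i j = 0 := by
      rw [hm1, tie_el_inv, tie_el_mul, if_pos rfl, ((tie_mem_NL p).1 haL).2 j, ht]
      ring
    have hm2L := tie_conj_NL p hm1L hji v
      (fun s hs1 hs2 => by
        have : s = i := by
          apply Fin.ext
          rw [Fin.lt_def] at hs1; rw [Fin.le_def] at hs2; omega
        rw [this]; exact hm1ij)
      (fun c hc1 hc2 => by
        have : c = j := by
          apply Fin.ext
          rw [Fin.le_def] at hc1; rw [Fin.lt_def] at hc2; omega
        rw [this]; exact hm1ij)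
    have hb : coroot p j i hji.ne x * el p j i hji.ne (v * ((x⁻¹ : ℚ_[p]ˣ) : ℚ_[p])) ∈
        Up p (1 : Equiv.Perm (Fin n)) :=
      mul_mem (tie_coroot_up p hji.ne x) (tie_el_up p hji _).1
    have hm : el p i j hji.ne' (x * t) *
        ((el p j i hji.ne v)⁻¹ * m1 * el p j i hji.ne v) ∈ NL p (1 : Equiv.Perm (Fin n)) :=
      mul_mem (tie_el_low p hji _) hm2L
    have heq : a * el p j i hji.ne v =
        (coroot p j i hji.ne x * el p j i hji.ne (v * ((x⁻¹ : ℚ_[p]ˣ) : ℚ_[p]))) *
        (el p i j hji.ne' (x * t) *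
        ((el p j i hji.ne v)⁻¹ * m1 * el p j i hji.ne v)) := by
      rw [← mul_assoc, ← hcor, hm1]
      group
    have hkey := tie_key p w X R H haR hji hwij v hb hm heq
    have hu : el p j i hji.ne (v * ((x⁻¹ : ℚ_[p]ˣ) : ℚ_[p])) ∈ X := hX (tie_el_up p hji _)
    exact (Subgroup.mul_mem_cancel_right X hu).1 hkey.2
end Pool.Agent.Helper911
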