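import Mathlib
import Pool.Agent.Helper911_SL.Defs2
import Pool.Agent.Helper911_Abs.Flag
import Pool.Agent.Helper911_SL.JA
import Pool.Agent.Helper911_SL.JB
import Pool.Agent.Helper911_SL.JC
import Pool.Agent.Helper911_SL.JD
import Pool.Agent.Helper911_SL.JE
import Pool.Agent.Helper911_SL.JF
import Pool.Agent.Helper911_SL.JG
import Pool.Agent.Helper911_SL.JH
import Pool.Agent.Helper911_SL.JI
import Pool.Agent.Helper911_SL.JJ
import Pool.Agent.Helper911_SL.JK

set_option autoImplicit false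
set_option linter.unusedSectionVars false

noncomputable section

open Matrix Topology Filter

namespace Pool.Agent.Helper911

variable (p : ℕ) [Fact p.Prime] {n : ℕ} [NeZero n]

/-- The cell index. -/
def cellIdx (g : SLn p n) : Equiv.Perm (Fin n) := (bruhat_exists p g).choose

theorem cellIdx_spec (g : SLn p n) : ∃ b ∈ Up p (1 : Equiv.Perm (Fin n)),
    ∃ y ∈ NL p (1 : Equiv.Perm (Fin n)), g = b * wrep p (cellIdx p g) * y :=
  (bruhat_exists p g).choose_spec

theorem cellIdx_eq (w : Equiv.Perm (Fin n)) (g b y : SLn p n)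
    (hb : b ∈ Up p (1 : Equiv.Perm (Fin n))) (hy : y ∈ NL p (1 : Equiv.Perm (Fin n)))
    (h : g = b * wrep p w * y) : cellIdx p g = w := by
  obtain ⟨b', hb', y', hy', h'⟩ := cellIdx_spec p g
  refine (bruhat_unique p (cellIdx p g) w (b⁻¹ * b') (mul_mem (inv_mem hb) hb') (y' * y⁻¹)
    (mul_mem hy' (inv_mem hy)) ?_).symm
  have : b * wrep p w * y = b' * wrep p (cellIdx p g) * y' := h.symm.trans h'
  calc wrep p w = b⁻¹ * (b * wrep p w * y) * y⁻¹ := by group
    _ = b⁻¹ * (b' * wrep p (cellIdx p g) * y') * y⁻¹ := by rw [this]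
    _ = _ := by group

omit [NeZero n] in
theorem tor_le : Tor p n ≤ Up p (1 : Equiv.Perm (Fin n)) := inf_le_left

/-- The flag structure on SL_n(Q_p). -/
def slFlag : Flag p (SLn p n) (Equiv.Perm (Fin n)) where
  B := Up p 1
  N := NU p 1
  Nb := NL p 1
  Z := Tor p n
  K := Cong p n 0
  Gam := Cong p n 1
  z := zel p n
  e := wrep p
  idx := cellIdx p
  P w := NU p 1 ⊓ NL p w
  Q w := NL p 1 ⊓ NL p w
  N_le := fun g hg => hg.1
  Z_le := tor_le p
  P_le _ := inf_le_left
  Q_le _ := inf_le_left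
  Gam_le := by
    intro g hg i j
    refine (hg i j).trans ?_
    simpa using pow_neg_le_one p 1
  z_mem := zel_mem p
  e_mem := wrep_mem p
  B_closed := up_closed p 1
  K_compact := cong_compact p n 0
  K_open := cong_open p n 0
  Gam_open := cong_open p n 1
  P_closed w := (nu_closed p 1).inter (nu_closed p _)
  Q_closed w := (nu_closed p _).inter (nu_closed p _)
  iwasawa := iwasawa p
  small := by
    intro U hU
    obtain ⟨m, _, hm⟩ := cong_small p n U hU
    exact ⟨Cong p n m, cong_open p n m, hm⟩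
  conj_Z := conj_wrep_Tor p
  conj_N t ht g hg := tor_conj_NU p 1 t g ht hg
  conj_Nb t ht g hg := tor_conj_NU p _ t g ht hg
  conj_P w t ht g hg := ⟨tor_conj_NU p 1 t g ht hg.1, tor_conj_NU p _ t g ht hg.2⟩
  conj_Q w t ht g hg := ⟨tor_conj_NU p _ t g ht hg.1, tor_conj_NU p _ t g ht hg.2⟩
  decomp := by
    intro w y hy
    obtain ⟨s, hs, q, hq, h⟩ := peel_st p w y hy
    exact ⟨s, hs.1, (conj_wrep_NU p w s).2 hs.2, q, hq, h⟩
  idx_left := by
    intro b hb g
    obtain ⟨b', hb', y', hy', h'⟩ := cellIdx_spec p g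
    exact cellIdx_eq p _ _ (b * b') y' (mul_mem hb hb') hy' (by rw [h']; simp [mul_assoc, ← h'])
  idx_right_Nb := by
    intro y hy g
    obtain ⟨b', hb', y', hy', h'⟩ := cellIdx_spec p g
    exact cellIdx_eq p _ _ b' (y' * y) hb' (mul_mem hy' hy) (by conv_lhs => rw [h']
                                                                simp [mul_assoc])
  idx_right_Z := by
    intro t ht g
    obtain ⟨b', hb', y', hy', h'⟩ := cellIdx_spec p g
    refine cellIdx_eq p _ _ (b' * (wrep p (cellIdx p g) * t * (wrep p (cellIdx p g))⁻¹))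
      (t⁻¹ * y' * t) (mul_mem hb' (tor_le p (conj_wrep_Tor p _ t ht))) ?_ ?_
    · have := tor_conj_NU p _ t⁻¹ y' (inv_mem ht) hy'
      rwa [inv_inv] at this
    · conv_lhs => rw [h']
      group
  idx_e w := cellIdx_eq p w _ 1 1 (one_mem _) (one_mem _) (by simp)
  exists_rep g := cellIdx_spec p g
  chart_open := chart_open p
  chart_inj := by
    intro w b hb n1 hn1 y1 hy1 n2 hn2 y2 hy2 h
    have h3 : (wrep p w) * (n1 * y1 * (n2 * y2)⁻¹) * (wrep p w)⁻¹ = b := by
      have : (wrep p w) * (n1 * y1 * (n2 * y2)⁻¹) * (wrep p w)⁻¹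
        = (wrep p w * n1 * y1) * (n2 * y2)⁻¹ * (wrep p w)⁻¹ := by group
      rw [this, h]; group
    have h4 : (wrep p w) * (n1 * y1 * (n2 * y2)⁻¹) * (wrep p w)⁻¹ ∈ NL p 1 :=
      (conj_wrep_NL p w _).2 (mul_mem (mul_mem hn1.2 hy1.2) (inv_mem (mul_mem hn2.2 hy2.2)))
    have h5 : b = 1 := up_inter_NL p b hb (h3 ▸ h4)
    rw [h5] at h3
    have h6 : n1 * y1 * (n2 * y2)⁻¹ = 1 := by
      have := congrArg (fun x => (wrep p w)⁻¹ * x * wrep p w) h3
      simpa [mul_assoc] using this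
    have h7 : n2⁻¹ * n1 = y2 * y1⁻¹ := by
      have h8 : n1 * y1 = n2 * y2 := mul_inv_eq_one.1 h6
      have : n2⁻¹ * (n1 * y1) * y1⁻¹ = n2⁻¹ * (n2 * y2) * y1⁻¹ := by rw [h8]
      simpa [mul_assoc] using this
    have h8 : n2⁻¹ * n1 = 1 := up_inter_NL p _ (mul_mem (inv_mem hn2.1.1) hn1.1.1)
      (h7 ▸ mul_mem hy2.1 (inv_mem hy1.1))
    refine ⟨(inv_mul_eq_one.1 h8).symm, ?_⟩
    rw [h8] at h7
    exact (mul_inv_eq_one.1 h7.symm).symm
  shrink_Nb y hy h := shrink_Nb p y hy 1 h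
  absorb_Nb y hy := absorb_Nb p y hy 1
  unif_Nb := by
    intro U hU
    obtain ⟨M, _, hM⟩ := cong_small p n U hU
    obtain ⟨m, hm⟩ := unif_Nb (n := n) p M
    refine ⟨m, fun y hy h => hM (hm y hy fun i j => (h i j).trans ?_)⟩
    simpa using pow_neg_le_one p 1
  shrink_N y hy h := shrink_N p y hy 1 h
  absorb_N y hy := absorb_N p y hy 1
  unif_N := by
    intro U hU
    obtain ⟨M, _, hM⟩ := cong_small p n U hU
    obtain ⟨m, hm⟩ := unif_N (n := n) p M
    refine ⟨m, fun y hy h => hM (hm y hy fun i j => (h i j).trans ?_)⟩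
    simpa using pow_neg_le_one p 1
  iwahori := by
    intro g hg
    obtain ⟨b, hb, _, y, hy, _, h⟩ := iwahori p 1 le_rfl g⁻¹ (inv_mem hg)
    obtain ⟨t, ht, u, hu, h'⟩ := up_factor p b⁻¹ (inv_mem hb)
    refine ⟨y⁻¹, inv_mem hy, t, ht, u, hu, ?_⟩
    have : g = y⁻¹ * b⁻¹ := by rw [← _root_.mul_inv_rev, ← h, inv_inv]
    rw [this, h', mul_assoc]
  prop y hy _ := prop_unip p _ y hy
  stab_inj := by
    intro w w' h
    refine stab_inj p w w' fun s hs => ?_
    rw [← conj_wrep_NU p w, ← conj_wrep_NU p w']; exact h s hs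
  torus_decomp := torus_decomp p

end Pool.Agent.Helper911
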