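import Mathlib
import Pool.Agent.Helper911_SL.Inst
import Pool.Agent.Helper911_Abs.ME
import Pool.Agent.Helper911_Abs.MF1
import Pool.Agent.Helper911_Abs.MF2
import Pool.Agent.Helper911_Abs.MG

/-! Characters of the torus of SL_n(Q_p) and the principal series. -/

set_option autoImplicit false
set_option linter.unusedSectionVars false

noncomputable section

open Matrix Topology Filter

namespace Pool.Agent.Helper911

variable (p : ℕ) [Fact p.Prime] {n : ℕ}

/-- The diagonal torus of SL_n(Q_p): vectors of units with product one. -/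
def TorU (n : ℕ) : Subgroup (Fin n → ℚ_[p]ˣ) where
  carrier := {t | ∏ i, t i = 1}
  mul_mem' := by
    intro a b ha hb
    show ∏ i, (a * b) i = 1
    simp only [Pi.mul_apply, Finset.prod_mul_distrib]
    rw [show ∏ i, a i = 1 from ha, show ∏ i, b i = 1 from hb, one_mul]
  one_mem' := by show ∏ i, (1 : Fin n → ℚ_[p]ˣ) i = 1; simp
  inv_mem' := by
    intro a ha
    show ∏ i, (a⁻¹) i = 1
    simp only [Pi.inv_apply, Finset.prod_inv_distrib]
    rw [show ∏ i, a i = 1 from ha, inv_one]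

theorem up_prod_diag (b : SLn p n) (hb : b ∈ Up p (1 : Equiv.Perm (Fin n))) :
    ∏ i, b i i = 1 := by
  have h1 := b.2
  rw [Matrix.det_of_isUpperTriangular] at h1
  · exact h1
  · intro i j hij
    exact hb i j hij

theorem up_diag_ne (b : SLn p n) (hb : b ∈ Up p (1 : Equiv.Perm (Fin n))) (i : Fin n) :
    b i i ≠ 0 := by
  intro h
  have h1 := up_prod_diag p b hb
  have h2 : ∏ i, b i i = 0 := Finset.prod_eq_zero (Finset.mem_univ i) h
  rw [h2] at h1
  exact zero_ne_one h1

/-- The diagonal of an upper triangular matrix of SL_n. -/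
def diagU (b : SLn p n) (hb : b ∈ Up p (1 : Equiv.Perm (Fin n))) : TorU p n :=
  ⟨fun i => Units.mk0 (b i i) (up_diag_ne p b hb i), by
    show ∏ i, Units.mk0 (b i i) (up_diag_ne p b hb i) = 1
    ext
    rw [Units.coe_prod]
    simpa using up_prod_diag p b hb⟩

theorem diagU_val (b : SLn p n) (hb : b ∈ Up p (1 : Equiv.Perm (Fin n))) (i : Fin n) :
    (((diagU p b hb : TorU p n) : Fin n → ℚ_[p]ˣ) i : ℚ_[p]) = b i i := rfl

theorem up_mul_diag (a b : SLn p n) (ha : a ∈ Up p (1 : Equiv.Perm (Fin n)))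
    (hb : b ∈ Up p (1 : Equiv.Perm (Fin n))) (i : Fin n) : (a * b : SLn p n) i i = a i i * b i i := by
  simp only [Matrix.SpecialLinearGroup.coe_mul, Matrix.mul_apply]
  rw [Finset.sum_eq_single i]
  · intro k _ hk
    rcases lt_or_gt_of_ne hk with h | h
    · rw [ha i k h, zero_mul]
    · rw [hb k i h, mul_zero]
  · intro h; exact absurd (Finset.mem_univ i) h

theorem diagU_mul (a b : SLn p n) (ha : a ∈ Up p (1 : Equiv.Perm (Fin n)))
    (hb : b ∈ Up p (1 : Equiv.Perm (Fin n))) :
    diagU p (a * b) (mul_mem ha hb) = diagU p a ha * diagU p b hb := by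
  apply Subtype.ext
  funext i
  ext
  exact up_mul_diag p a b ha hb i

variable {C : Type*} [NormedField C]

/-- The extension of a character of the torus to the Borel subgroup (as a function on the group). -/
def chiB (χ : TorU p n →* Cˣ) (g : SLn p n) : C := by
  classical
  exact if h : g ∈ Up p (1 : Equiv.Perm (Fin n)) then ((χ (diagU p g h) : Cˣ) : C) else 1

theorem chiB_eq (χ : TorU p n →* Cˣ) (g : SLn p n) (h : g ∈ Up p (1 : Equiv.Perm (Fin n))) :
    chiB p χ g = ((χ (diagU p g h) : Cˣ) : C) := by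
  unfold chiB
  rw [dif_pos h]

theorem chiB_mul (χ : TorU p n →* Cˣ) (a b : SLn p n) (ha : a ∈ Up p (1 : Equiv.Perm (Fin n)))
    (hb : b ∈ Up p (1 : Equiv.Perm (Fin n))) : chiB p χ (a * b) = chiB p χ a * chiB p χ b := by
  rw [chiB_eq p χ _ (mul_mem ha hb), chiB_eq p χ _ ha, chiB_eq p χ _ hb, diagU_mul, map_mul,
    Units.val_mul]

theorem chiB_ne (χ : TorU p n →* Cˣ) (a : SLn p n) (ha : a ∈ Up p (1 : Equiv.Perm (Fin n))) :
    chiB p χ a ≠ 0 := by
  rw [chiB_eq p χ _ ha]; exact Units.ne_zero _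

theorem chiB_N (χ : TorU p n →* Cˣ) (a : SLn p n) (ha : a ∈ NU p (1 : Equiv.Perm (Fin n))) :
    chiB p χ a = 1 := by
  rw [chiB_eq p χ _ ha.1]
  have : diagU p a ha.1 = 1 := by
    apply Subtype.ext
    funext i
    ext
    exact ha.2 i
  rw [this, map_one, Units.val_one]

theorem diagU_continuous : Continuous (fun b : (Up p (1 : Equiv.Perm (Fin n)) :
    Subgroup (SLn p n)) => diagU p b.1 b.2) := by
  refine Continuous.subtype_mk ?_ _
  refine continuous_pi fun i => ?_
  rw [Units.continuous_iff]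
  have h1 : Continuous fun b : (Up p (1 : Equiv.Perm (Fin n)) : Subgroup (SLn p n)) =>
      (b.1 i i : ℚ_[p]) := by
    have h2 : Continuous fun b : (Up p (1 : Equiv.Perm (Fin n)) : Subgroup (SLn p n)) =>
        ((b.1 : SLn p n) : Matrix (Fin n) (Fin n) ℚ_[p]) :=
      Matrix.SpecialLinearGroup.isClosedEmbedding_val.continuous.comp continuous_subtype_val
    exact (continuous_apply_apply i i).comp h2
  refine ⟨h1, ?_⟩
  refine Continuous.congr (h1.inv₀ fun b => up_diag_ne p b.1 b.2 i) fun b => ?_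
  simp

theorem chiB_cont (χ : TorU p n →* Cˣ) (hχ : Continuous χ) :
    ContinuousOn (chiB p χ) (Up p (1 : Equiv.Perm (Fin n)) : Set (SLn p n)) := by
  rw [continuousOn_iff_continuous_domRestrict]
  have h1 : Continuous (fun b : (Up p (1 : Equiv.Perm (Fin n)) : Subgroup (SLn p n)) =>
      ((χ (diagU p b.1 b.2) : Cˣ) : C)) :=
    Units.continuous_val.comp (hχ.comp (diagU_continuous p))
  refine h1.congr fun b => ?_
  show _ = chiB p χ b.1
  rw [chiB_eq p χ b.1 b.2]

variable [NeZero n]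

/-- on a compact subgroup a continuous character has norm one -/
theorem chiB_norm (χ : TorU p n →* Cˣ) (hχ : Continuous χ) (b : SLn p n)
    (hb : b ∈ Up p (1 : Equiv.Perm (Fin n))) (hK : b ∈ Cong p n 0) : ‖chiB p χ b‖ = 1 := by
  -- boundedness on the compact group B ∩ K
  have hcomp : IsCompact ((Cong p n 0 : Set (SLn p n)) ∩ (Up p (1 : Equiv.Perm (Fin n)))) :=
    (cong_compact p n 0).inter_right (up_closed p 1)
  obtain ⟨M, hM⟩ := hcomp.exists_bound_of_continuousOn
    ((chiB_cont p χ hχ).mono Set.inter_subset_right)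
  have key : ∀ b : SLn p n, b ∈ Up p (1 : Equiv.Perm (Fin n)) → b ∈ Cong p n 0 →
      ‖chiB p χ b‖ ≤ 1 := by
    intro b hb hK
    by_contra hcon
    push Not at hcon
    have hpow : ∀ k : ℕ, ‖chiB p χ b‖ ^ k ≤ M := by
      intro k
      have h2 : chiB p χ (b ^ k) = chiB p χ b ^ k := by
        induction k with
        | zero =>
          rw [pow_zero, pow_zero]
          exact chiB_N p χ 1 (one_mem _)
        | succ k ih => rw [pow_succ, chiB_mul p χ _ _ (pow_mem hb k) hb, ih, pow_succ]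
      rw [← norm_pow, ← h2]
      exact hM _ ⟨pow_mem hK k, pow_mem hb k⟩
    obtain ⟨k, hk⟩ := pow_unbounded_of_one_lt M hcon
    exact absurd (hpow k) (not_le.2 hk)
  refine le_antisymm (key b hb hK) ?_
  have h1 := key b⁻¹ (inv_mem hb) (inv_mem hK)
  have h2 : chiB p χ b * chiB p χ b⁻¹ = 1 := by
    rw [← chiB_mul p χ _ _ hb (inv_mem hb), mul_inv_cancel]
    exact chiB_N p χ 1 (one_mem _)
  have h3 : ‖chiB p χ b‖ * ‖chiB p χ b⁻¹‖ = 1 := by rw [← norm_mul, h2, norm_one]
  nlinarith [norm_nonneg (chiB p χ b), norm_nonneg (chiB p χ b⁻¹)]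

/-- The character data of a continuous character of the torus. -/
def slChar (χ : TorU p n →* Cˣ) (hχ : Continuous χ) : CharData (slFlag p (n := n)) C where
  chi := chiB p χ
  chi_mul b hb b' hb' := chiB_mul p χ b b' hb hb'
  chi_ne b hb := chiB_ne p χ b hb
  chi_N b hb := chiB_N p χ b hb
  chi_K b hb hK := chiB_norm p χ hχ b hb hK
  chi_cont := chiB_cont p χ hχ

/-- The coroot as an element of the torus. -/
def corootU (i j : Fin n) (h : i ≠ j) (x : ℚ_[p]ˣ) : TorU p n :=
  ⟨fun k => if k = i then x else if k = j then x⁻¹ else 1, by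
    show ∏ k, _ = 1
    have h1 : ∀ k, (if k = i then x else if k = j then x⁻¹ else 1)
        = (if k = i then x else 1) * (if k = j then x⁻¹ else 1) := by
      intro k
      by_cases hi : k = i
      · simp [hi, h]
      · simp [hi]
    simp only [h1, Finset.prod_mul_distrib, Finset.prod_ite_eq', Finset.mem_univ, if_true,
      mul_inv_cancel]⟩

theorem coroot_mem_up (i j : Fin n) (h : i ≠ j) (x : ℚ_[p]ˣ) :
    coroot p i j h x ∈ Up p (1 : Equiv.Perm (Fin n)) := by
  intro a b hab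
  have : a ≠ b := by rintro rfl; exact lt_irrefl _ hab
  unfold coroot
  rw [dg_apply, if_neg this]

theorem chiB_coroot (χ : TorU p n →* Cˣ) (i j : Fin n) (h : i ≠ j) (x : ℚ_[p]ˣ) :
    chiB p χ (coroot p i j h x) = ((χ (corootU p i j h x) : Cˣ) : C) := by
  rw [chiB_eq p χ _ (coroot_mem_up p i j h x)]
  congr 2
  apply Subtype.ext
  funext k
  ext
  have e1 : (coroot p i j h x) k k = corootFun p i j x k := by
    unfold coroot
    rw [dg_apply, if_pos rfl]
  have e2 : (((corootU p i j h x : TorU p n) : Fin n → ℚ_[p]ˣ) k : ℚ_[p])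
      = corootFun p i j x k := by
    show (((if k = i then x else if k = j then x⁻¹ else 1 : ℚ_[p]ˣ)) : ℚ_[p]) = _
    unfold corootFun
    split_ifs <;> rfl
  exact e1.trans e2.symm

/-- The tie hypothesis for SL_n. -/
theorem sl_tie (χ : TorU p n →* Cˣ) (hχ : Continuous χ)
    (hs : ∀ (i j : Fin n) (h : i ≠ j), (i : ℕ) + 1 = (j : ℕ) → ∃ x, χ (corootU p i j h x) ≠ 1) :
    TieHyp (slChar p χ hχ) := by
  intro u R hR h1 hne H
  let Xs : Subgroup (SLn p n) :=
    { carrier := {b | b ∈ Up p (1 : Equiv.Perm (Fin n)) ∧ chiB p χ b = 1}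
      mul_mem' := by
        rintro a b ⟨ha, ha'⟩ ⟨hb, hb'⟩
        exact ⟨mul_mem ha hb, by rw [chiB_mul p χ a b ha hb, ha', hb', one_mul]⟩
      one_mem' := ⟨one_mem _, chiB_N p χ 1 (one_mem _)⟩
      inv_mem' := by
        rintro a ⟨ha, ha'⟩
        refine ⟨inv_mem ha, ?_⟩
        have := chiB_mul p χ a a⁻¹ ha (inv_mem ha)
        rw [mul_inv_cancel, chiB_N p χ 1 (one_mem _), ha', one_mul] at this
        exact this.symm }
  obtain ⟨j, i, hji, hsucc, hx⟩ := tie_axiom p u Xs (fun b hb => ⟨hb.1, chiB_N p χ b hb⟩) R hR h1 hne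
    (fun n1 hn1 s hs' b hb n2 hn2 y hy h => by
      obtain ⟨g1, g2, g3⟩ := H n1 hn1 s ⟨hs'.1, (conj_wrep_NU p u s).2 hs'.2⟩ b hb n2 hn2 y hy h
      exact ⟨g1, g2, hb, g3⟩)
  obtain ⟨x, hx'⟩ := hs j i hji hsucc
  apply hx'
  have := (hx x).2
  rw [chiB_coroot] at this
  exact Units.ext this

end Pool.Agent.Helper911
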