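import Mathlib
import Pool.Agent.Helper911_Abs.Core

set_option autoImplicit false

noncomputable section

open Topology Filter

namespace Pool.Agent.Helper911

variable (p : ℕ) [Fact p.Prime] (C : Type*) [NormedField C] [NormedAlgebra ℚ_[p] C]

include p in
theorem field_ultra : IsUltrametricDist C := by
  refine IsUltrametricDist.isUltrametricDist_of_forall_norm_natCast_le_one fun k => ?_
  have h : ((k : ℕ) : C) = algebraMap ℚ_[p] C (k : ℚ_[p]) := by simp
  rw [h, norm_algebraMap']
  have := Padic.norm_int_le_one (p := p) (k : ℤ)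
  simpa using this

theorem field_disc [FiniteDimensional ℚ_[p] C] : ∃ rho : ℝ, Disc p C rho := by
  haveI := field_ultra p C
  haveI : ProperSpace C := FiniteDimensional.proper ℚ_[p] C
  have hp : ‖(p : C)‖ = (p : ℝ)⁻¹ := by
    have h : ((p : ℕ) : C) = algebraMap ℚ_[p] C (p : ℚ_[p]) := by simp
    rw [h, norm_algebraMap']
    exact Padic.norm_p
  have hp1 : (1 : ℝ) < p := by exact_mod_cast (Fact.out : p.Prime).one_lt
  have hp2 : ‖(p : C)‖ < 1 := by rw [hp]; exact inv_lt_one_of_one_lt₀ hp1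
  have hp3 : 0 < ‖(p : C)‖ := by rw [hp]; positivity
  have hclosed : IsClosed (Metric.ball (0 : C) 1) := IsUltrametricDist.isClosed_ball 0 1
  have hcomp : IsCompact (Metric.ball (0 : C) 1) :=
    Metric.isCompact_of_isClosed_isBounded hclosed Metric.isBounded_ball
  obtain ⟨x0, hx0, hmax⟩ := hcomp.exists_isMaxOn ⟨0, Metric.mem_ball_self one_pos⟩
    continuous_norm.continuousOn
  have hgap : ∀ x : C, ‖x‖ < 1 → ‖x‖ ≤ ‖x0‖ := fun x hx => hmax (by simpa using hx)
  refine ⟨‖x0‖, ⟨lt_of_lt_of_le hp3 (hgap _ hp2), by simpa using hx0, hgap, hp2, ?_,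
    ⟨(p : C), hp3, hp2⟩⟩⟩
  exact norm_pos_iff.1 hp3

end Pool.Agent.Helper911
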