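import Mathlib
import Pool.Agent.Helper911_SL.Char
import Pool.Agent.Helper911_SL.Field

set_option autoImplicit false
set_option linter.unusedSectionVars false

noncomputable section

open Matrix Topology Filter

namespace Pool.Agent.Helper911

variable (p : ℕ) [Fact p.Prime] {n : ℕ} [NeZero n] {C : Type*} [NormedField C]

/-- Irreducibility for smooth characters. -/
theorem smooth_irred [IsUltrametricDist C] {rho : ℝ} (hd : Disc p C rho) (χ : TorU p n →* Cˣ)
    (hχ : Continuous χ)
    (hsm : ∃ U ∈ 𝓝 (1 : SLn p n), ∀ b ∈ Up p (1 : Equiv.Perm (Fin n)), b ∈ U → chiB p χ b = 1)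
    (hs : ∀ (i j : Fin n) (h : i ≠ j), (i : ℕ) + 1 = (j : ℕ) → ∃ x, χ (corootU p i j h x) ≠ 1)
    (R : SubRep (slChar p χ hχ)) (hne : R.V ≠ ⊥) : ∀ f, IsSec (slChar p χ hχ) f → f ∈ R.V := by
  obtain ⟨u, Om, hm, hOmu, hcw, hopen, hvan, Φ, hΦR, hΦ, hS⟩ :=
    mainA hd (sl_tie p χ hχ hs) R hne
  have hu : u ∈ Om := (hOmu u).2 (wle_refl _ u)
  obtain ⟨H, hH, hinv⟩ := annih R hm.isOpen hopen hu hvan hΦR hΦ hS (fun _ => 1)
    (fun _ _ _ _ => (one_mul _).symm) (fun _ _ => one_ne_zero) hsm (fun _ => 1)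
    (fun _ _ _ => (one_mul _).symm) (fun _ _ _ _ => rfl)
  have hinv' : ∀ h ∈ H, ∀ g, Φ (g * h) = Φ g := by
    classical
    intro h hh g
    by_cases h1 : h = 1
    · rw [h1, mul_one]
    · have := hinv {h, 1} (fun x => if x = 1 then -1 else 1) (by
        intro x hx
        rw [Finset.mem_insert, Finset.mem_singleton] at hx
        rcases hx with rfl | rfl
        · exact hh
        · exact one_mem _) (fun g => by
          rw [Finset.sum_pair h1]; simp [h1]) g
      rw [Finset.sum_pair h1] at this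
      simp only [h1, if_false, if_true, mul_one, one_mul, neg_mul] at this
      linear_combination this
  exact all_of_phi R hΦR hΦ (phi_inv_trivial (R.sec _ hΦR) hΦ H hH hinv')

end Pool.Agent.Helper911
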